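import Mathlib
import Pool.Agent.H204R3.CM.Defs

/-!
# Abelian varieties up to isogeny, and the classes generated by divisors and by Weil classes on
abelian fourfolds
-/

namespace Pool.Agent.Q60.D3

open Pool.Agent.H204R3.CM

/-- A complex abelian variety up to isogeny. `T` is its tangent space at the origin (a finite
dimensional complex vector space), `H` its rational homology `H_1(X, ℚ)` and `per : H → T` the
inclusion of the rational homology: it spans `T` over the real numbers and the dimension of `H` is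
twice the complex dimension of `T` (so `H = Λ ⊗ ℚ` for a lattice `Λ` in `T`). There is a
polarization: a positive definite Hermitian form on `T`, linear in the first variable, whose imaginary
part has rational values on `H`. -/
structure AV where
  /-- the rational homology -/
  H : Type
  [gH : AddCommGroup H]
  [qH : Module ℚ H]
  [fH : FiniteDimensional ℚ H]
  /-- the tangent space -/
  T : Type
  [gT : AddCommGroup T]
  [cT : Module ℂ T]
  [fT : FiniteDimensional ℂ T]
  /-- the inclusion of the rational homology -/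
  per : H →+ T
  /-- the lattice spans the tangent space -/
  span : Submodule.span ℝ (Set.range per) = ⊤
  /-- the rank of the lattice -/
  dim : Module.finrank ℚ H = 2 * Module.finrank ℂ T
  /-- the polarization -/
  pol : ∃ E : T → T → ℂ, (∀ u', IsLinearMap ℂ fun u => E u u') ∧
    (∀ u u', E u' u = starRingEnd ℂ (E u u')) ∧ (∀ u, u ≠ 0 → 0 < (E u u).re) ∧
    ∀ v w, ∃ q : ℚ, (E (per v) (per w)).im = q

attribute [instance] AV.gH AV.qH AV.fH AV.gT AV.cT AV.fT

/-- A rational linear map `H_1(X, ℚ) → H_1(Y, ℚ)` is (a rational multiple of) a homomorphism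
`X → Y` if it is compatible with a complex linear map of the tangent spaces. -/
def IsHom (X Y : AV) (h : X.H →ₗ[ℚ] Y.H) : Prop :=
  ∃ C : X.T →ₗ[ℂ] Y.T, ∀ w, C (X.per w) = Y.per (h w)

/-- The polarization of a product. -/
theorem pol_prod (X Y : AV) : ∃ E : X.T × Y.T → X.T × Y.T → ℂ,
    (∀ u', IsLinearMap ℂ fun u => E u u') ∧ (∀ u u', E u' u = starRingEnd ℂ (E u u')) ∧
    (∀ u, u ≠ 0 → 0 < (E u u).re) ∧
    ∀ v w : X.H × Y.H, ∃ q : ℚ, (E (X.per.prodMap Y.per v) (X.per.prodMap Y.per w)).im = q := by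
  obtain ⟨E, h1, h2, h3, h4⟩ := X.pol
  obtain ⟨F, k1, k2, k3, k4⟩ := Y.pol
  refine ⟨fun u v => E u.1 v.1 + F u.2 v.2, fun u' => ⟨fun a b => ?_, fun c a => ?_⟩,
    fun u u' => ?_, fun u hu => ?_, fun v w => ?_⟩
  · have e1 := (h1 u'.1).map_add a.1 b.1
    have e2 := (k1 u'.2).map_add a.2 b.2
    change E (a.1 + b.1) u'.1 + F (a.2 + b.2) u'.2 = _
    rw [e1, e2]
    ring
  · have e1 := (h1 u'.1).map_smul c a.1
    have e2 := (k1 u'.2).map_smul c a.2
    change E (c • a.1) u'.1 + F (c • a.2) u'.2 = _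
    rw [e1, e2, smul_add]
  · simp only
    rw [h2 u.1 u'.1, k2 u.2 u'.2, map_add]
  · have e0 : ∀ a, 0 ≤ (E a a).re := by
      intro a
      by_cases ha : a = 0
      · have h : E 0 a = 0 := (h1 a).map_zero
        rw [ha] at h ⊢
        rw [h, Complex.zero_re]
      · exact (h3 a ha).le
    have f0 : ∀ a, 0 ≤ (F a a).re := by
      intro a
      by_cases ha : a = 0
      · have h : F 0 a = 0 := (k1 a).map_zero
        rw [ha] at h ⊢
        rw [h, Complex.zero_re]
      · exact (k3 a ha).le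
    rw [Complex.add_re]
    by_cases hu1 : u.1 = 0
    · have hu2 : u.2 ≠ 0 := fun h => hu (Prod.ext hu1 h)
      exact add_pos_of_nonneg_of_pos (e0 _) (k3 _ hu2)
    · exact add_pos_of_pos_of_nonneg (h3 _ hu1) (f0 _)
  · obtain ⟨q, hq⟩ := h4 v.1 w.1
    obtain ⟨r, hr⟩ := k4 v.2 w.2
    refine ⟨q + r, ?_⟩
    change (E (X.per v.1) (X.per w.1) + F (Y.per v.2) (Y.per w.2)).im = _
    rw [Complex.add_im, hq, hr]
    push_cast
    ring

theorem span_prod (X Y : AV) :
    Submodule.span ℝ (Set.range (X.per.prodMap Y.per)) = (⊤ : Submodule ℝ (X.T × Y.T)) := by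
  have h1 : (⊤ : Submodule ℝ (X.T × Y.T)) =
      Submodule.prod (⊤ : Submodule ℝ X.T) (⊤ : Submodule ℝ Y.T) := Submodule.prod_top.symm
  rw [eq_top_iff, h1, ← X.span, ← Y.span]
  rintro ⟨a, b⟩ ⟨ha, hb⟩
  have h2 : (a, b) = LinearMap.inl ℝ X.T Y.T a + LinearMap.inr ℝ X.T Y.T b := by simp
  rw [h2]
  refine Submodule.add_mem _ ?_ ?_
  · have h3 := Submodule.mem_map_of_mem (f := LinearMap.inl ℝ X.T Y.T) ha
    rw [Submodule.map_span] at h3
    refine Submodule.span_mono ?_ h3
    rintro _ ⟨_, ⟨w, rfl⟩, rfl⟩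
    exact ⟨(w, 0), by simp⟩
  · have h3 := Submodule.mem_map_of_mem (f := LinearMap.inr ℝ X.T Y.T) hb
    rw [Submodule.map_span] at h3
    refine Submodule.span_mono ?_ h3
    rintro _ ⟨_, ⟨w, rfl⟩, rfl⟩
    exact ⟨(0, w), by simp⟩

/-- The product of two abelian varieties. -/
def AV.prod (X Y : AV) : AV where
  H := X.H × Y.H
  T := X.T × Y.T
  per := X.per.prodMap Y.per
  span := span_prod X Y
  dim := by
    rw [Module.finrank_prod, Module.finrank_prod, X.dim, Y.dim]
    ring
  pol := pol_prod X Y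

/-- `f` is a Weil class of an imaginary quadratic field on the abelian fourfold `Y`: `Y` has
dimension four, `f ∈ H^4(Y, ℚ)` is a Hodge class, and there are a positive integer `d` and an
endomorphism `h = √-d` of `Y` such that `h` may be moved in `f` from each variable to each other
variable (so `f` lies in the line `Λ^4_K H¹(Y, ℚ)` over the field `K = ℚ(√-d)`). -/
def IsWeilClass (Y : AV) (f : Y.H [⋀^Fin 4]→ₗ[ℚ] ℚ) : Prop :=
  Module.finrank ℂ Y.T = 4 ∧ IsHodge Y.per f ∧
    ∃ (d : ℕ) (h : Y.H →ₗ[ℚ] Y.H), 0 < d ∧ IsHom Y Y h ∧ (∀ w, h (h w) = -((d : ℚ) • w)) ∧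
      ∀ (v : Fin 4 → Y.H) (k l : Fin 4),
        f (Function.update v k (h (v k))) = f (Function.update v l (h (v l)))

/-- The smallest system of cohomology classes `f ∈ H^κ(X, ℚ)` of complex abelian varieties `X`
(alternating forms on `H_1(X, ℚ)` in variables indexed by the finite set `κ`) which contains the
Hodge classes of degree two and the Weil classes of imaginary quadratic fields on abelian fourfolds,
and which is stable under linear combinations, cup products, pull-backs along homomorphisms and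
push-forwards along projections `X × Y → X`. -/
inductive Gen : (X : AV) → (κ : Type) → (X.H [⋀^κ]→ₗ[ℚ] ℚ) → Prop
  /-- classes of degree zero -/
  | unit {X : AV} {κ : Type} [IsEmpty κ] (f : X.H [⋀^κ]→ₗ[ℚ] ℚ) : Gen X κ f
  /-- Hodge classes of degree two -/
  | divisor {X : AV} {κ : Type} (hκ : Nat.card κ = 2) (f : X.H [⋀^κ]→ₗ[ℚ] ℚ)
      (hf : IsHodge X.per f) : Gen X κ f
  /-- Weil classes on abelian fourfolds -/
  | weil {Y : AV} (f : Y.H [⋀^Fin 4]→ₗ[ℚ] ℚ) (hf : IsWeilClass Y f) : Gen Y (Fin 4) f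
  | zero (X : AV) (κ : Type) : Gen X κ 0
  | add {X : AV} {κ : Type} (f g : X.H [⋀^κ]→ₗ[ℚ] ℚ) (hf : Gen X κ f) (hg : Gen X κ g) :
      Gen X κ (f + g)
  | smul {X : AV} {κ : Type} (a : ℚ) (f : X.H [⋀^κ]→ₗ[ℚ] ℚ) (hf : Gen X κ f) :
      Gen X κ (a • f)
  /-- renaming of the variables -/
  | reindex {X : AV} {κ κ' : Type} (e : κ ≃ κ') (f : X.H [⋀^κ]→ₗ[ℚ] ℚ) (hf : Gen X κ f) :
      Gen X κ' (f.domDomCongr e)
  /-- cup products (up to a factor) -/
  | cup {X : AV} {κ κ' : Type} [Fintype κ] [DecidableEq κ] [Fintype κ'] [DecidableEq κ']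
      (f : X.H [⋀^κ]→ₗ[ℚ] ℚ) (g : X.H [⋀^κ']→ₗ[ℚ] ℚ) (hf : Gen X κ f) (hg : Gen X κ' g)
      (h : X.H [⋀^κ ⊕ κ']→ₗ[ℚ] ℚ)
      (hh : ∀ v : κ ⊕ κ' → X.H, h v = ∑ σ : Equiv.Perm (κ ⊕ κ'), ((Equiv.Perm.sign σ : ℤ) : ℚ) *
        (f (fun k => v (σ (Sum.inl k))) * g (fun k => v (σ (Sum.inr k))))) :
      Gen X (κ ⊕ κ') h
  /-- pull-back along a homomorphism -/
  | pull {X Y : AV} {κ : Type} (h : X.H →ₗ[ℚ] Y.H) (hh : IsHom X Y h)
      (f : Y.H [⋀^κ]→ₗ[ℚ] ℚ) (hf : Gen Y κ f) : Gen X κ (f.compLinearMap h)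
  /-- push-forward (integration over the fibres) along the projection `X × Y → X`: insert a basis
  of `H_1(Y, ℚ)` -/
  | push {X Y : AV} {κ κ' : Type} (b : Module.Basis κ' ℚ Y.H)
      (f : (X.prod Y).H [⋀^κ ⊕ κ']→ₗ[ℚ] ℚ) (hf : Gen (X.prod Y) (κ ⊕ κ') f)
      (g : X.H [⋀^κ]→ₗ[ℚ] ℚ)
      (hg : ∀ v : κ → X.H,
        g v = f (Sum.elim (fun k => ((v k, 0) : X.H × Y.H)) (fun k => ((0, b k) : X.H × Y.H)))) :
      Gen X κ g

/-- The abelian variety `X` is simple: the only rational subspaces of the homology whose real span in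
the tangent space is a complex subspace are the trivial ones. -/
def IsSimple (X : AV) : Prop :=
  ∀ U : Submodule ℚ X.H,
    (∀ x ∈ Submodule.span ℝ (X.per '' U), Complex.I • x ∈ Submodule.span ℝ (X.per '' U)) →
      U = ⊥ ∨ U = ⊤

/-- `X` is of CM type: the endomorphism algebra contains a commutative semisimple (that is, reduced)
algebra of dimension `2 dim X` over `ℚ`. -/
def IsCM (X : AV) : Prop :=
  ∃ S : Subalgebra ℚ (Module.End ℚ X.H), (∀ s ∈ S, IsHom X X s) ∧ (∀ s ∈ S, ∀ t ∈ S, s * t = t * s) ∧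
    (∀ s ∈ S, s * s = 0 → s = 0) ∧ Module.finrank ℚ S = Module.finrank ℚ X.H

/-- `X` is isogenous to the product of the abelian varieties `A i`: there are homomorphisms
`p i : X → A i` such that the induced map of the rational homology to the product is bijective. -/
def IsIsogenousToProd (X : AV) {ι : Type} (A : ι → AV) : Prop :=
  ∃ p : ∀ i, X.H →ₗ[ℚ] (A i).H, (∀ i, IsHom X (A i) (p i)) ∧
    Function.Bijective fun (v : X.H) (i : ι) => p i v

end Pool.Agent.Q60.D3
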