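import Mathlib
import Pool.Agent.Q60.D3.Defs

/-!
# Project D3: statements of the lemma jobs, abstract part

Complex valued forms on the rational homology, their weights, the complex span of the generated
classes.
-/

namespace Pool.Agent.Q60.D3

open Pool.Agent.H204R3.CM

/-- A rational alternating form as a complex valued form. -/
noncomputable def cx {H κ : Type} [AddCommGroup H] [Module ℚ H] (f : H [⋀^κ]→ₗ[ℚ] ℚ) :
    H [⋀^κ]→ₗ[ℚ] ℂ :=
  (Algebra.linearMap ℚ ℂ).compAlternatingMap f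

/-- The complex span of the generated classes. -/
noncomputable def GC (X : AV) (κ : Type) : Submodule ℂ (X.H [⋀^κ]→ₗ[ℚ] ℂ) :=
  Submodule.span ℂ {F | ∃ f, Gen X κ f ∧ F = cx f}

/-- The alternation of the complex valued form `F` is in the complex span of the generated
classes. -/
def Good (X : AV) (κ : Type) [Fintype κ] [DecidableEq κ]
    (F : MultilinearMap ℚ (fun _ : κ => X.H) ℂ) : Prop :=
  MultilinearMap.alternatization F ∈ GC X κ

/-- The product of two forms in different variables. -/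
noncomputable def mulF {H κ κ' : Type} [AddCommGroup H] [Module ℚ H]
    (F : MultilinearMap ℚ (fun _ : κ => H) ℂ) (G : MultilinearMap ℚ (fun _ : κ' => H) ℂ) :
    MultilinearMap ℚ (fun _ : κ ⊕ κ' => H) ℂ :=
  (LinearMap.mul' ℚ ℂ).compMultilinearMap (F.domCoprod G)

/-- The complex valued form `F` on the homology extends to the tangent space and the complex
numbers `z` of absolute value one multiply it by `z ^ w`. -/
def HasWeight {H T κ : Type} [AddCommGroup H] [Module ℚ H] [AddCommGroup T] [Module ℂ T]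
    (per : H →+ T) (F : MultilinearMap ℚ (fun _ : κ => H) ℂ) (w : ℤ) : Prop :=
  ∃ ψ : MultilinearMap ℝ (fun _ : κ => T) ℂ, (∀ v : κ → H, ψ (fun l => per (v l)) = F v) ∧
    ∀ z : ℂ, ‖z‖ = 1 → ∀ u : κ → T, ψ (fun l => z • u l) = z ^ w * ψ u

/-- The conjugate of a form under an automorphism of the field of complex numbers. -/
noncomputable def conjF {H κ : Type} [AddCommGroup H] [Module ℚ H] (σ : ℂ ≃+* ℂ)
    (F : MultilinearMap ℚ (fun _ : κ => H) ℂ) : MultilinearMap ℚ (fun _ : κ => H) ℂ :=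
  ((σ : ℂ →+* ℂ).toRatAlgHom.toLinearMap).compMultilinearMap F

/-- The quadratic character: `1` if `σ` fixes the square root `μ` of a rational number and `-1`
otherwise. -/
noncomputable def chi (μ : ℂ) (σ : ℂ ≃+* ℂ) : ℤ := open Classical in if σ μ = μ then 1 else -1

/-- The complex valued form with rational part `β`. -/
noncomputable def cxM {H κ : Type} [AddCommGroup H] [Module ℚ H]
    (β : MultilinearMap ℚ (fun _ : κ => H) ℚ) : MultilinearMap ℚ (fun _ : κ => H) ℂ :=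
  (Algebra.linearMap ℚ ℂ).compMultilinearMap β

/-- Data of an abelian variety `A` of dimension `n` (`n = 1` or `n = 3`) with an endomorphism `φ`,
`φ ^ 2 = -d` with `d` squarefree, and a determinant form `δ` on the eigenspace of `φ` for the
eigenvalue `μ`, of weight `s = 1` or `s = -1`. -/
structure KOn (A : AV) (n : ℕ) where
  hn : n = 1 ∨ n = 3
  dimA : Module.finrank ℂ A.T = n
  φ : A.H →ₗ[ℚ] A.H
  hφ : IsHom A A φ
  d : ℕ
  hd : Squarefree d
  sq : ∀ w, φ (φ w) = -((d : ℚ) • w)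
  δ : A.H [⋀^Fin n]→ₗ[ℚ] ℂ
  μ : ℂ
  hμ : μ * μ = -(d : ℂ)
  eig : ∀ (v : Fin n → A.H) (k : Fin n), δ (Function.update v k (φ (v k))) = μ * δ v
  s : ℤ
  hs : s = 1 ∨ s = -1
  wt : HasWeight A.per δ.toMultilinearMap s

/-- The data of a monomial on `X`: determinant forms composed with homomorphisms from `X`, and
rational bilinear Hodge forms on `X`. -/
structure Mon (X : AV) (κ : Type) where
  /-- the number of the determinants -/
  m : ℕ
  n : Fin m → ℕ
  A : Fin m → AV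
  D : ∀ j, KOn (A j) (n j)
  h : ∀ (j : Fin m), Fin (n j) → (X.H →ₗ[ℚ] (A j).H)
  hh : ∀ (j : Fin m) (k : Fin (n j)), IsHom X (A j) (h j k)
  /-- the number of the bilinear forms -/
  p : ℕ
  β : Fin p → MultilinearMap ℚ (fun _ : Fin 2 => X.H) ℚ
  hβ : ∀ q, HasWeight X.per (cxM (β q)) 0
  e : (Σ j : Fin m, Fin (n j)) ⊕ (Fin p × Fin 2) ≃ κ

/-- The value of the monomial. -/
noncomputable def Mon.val {X : AV} {κ : Type} (M : Mon X κ) (v : κ → X.H) : ℂ :=
  (∏ j, (M.D j).δ fun k => M.h j k (v (M.e (Sum.inl ⟨j, k⟩)))) *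
    ∏ q, ((M.β q fun a => v (M.e (Sum.inr (q, a))) : ℚ) : ℂ)

/-- The monomial is balanced: for each `d` the determinants with `φ ^ 2 = -d` have total weight
zero. -/
def Mon.Balanced {X : AV} {κ : Type} (M : Mon X κ) : Prop :=
  ∀ d : ℕ, ∑ j, (if (M.D j).d = d then (M.D j).s else 0) = 0

/-! ## The jobs -/

/-- JOB GEN1. If the complex form given by the rational form `f` is in the complex span of the
generated classes, then `f` is generated. -/
def S_desc : Prop :=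
  ∀ (X : AV) (κ : Type) (f : X.H [⋀^κ]→ₗ[ℚ] ℚ), cx f ∈ GC X κ → Gen X κ f

/-- JOB GEN1. Alternating forms. -/
def S_good_alt : Prop :=
  ∀ (X : AV) (κ : Type) [Fintype κ] [DecidableEq κ] (F : X.H [⋀^κ]→ₗ[ℚ] ℂ),
    Good X κ F.toMultilinearMap ↔ F ∈ GC X κ

/-- JOB GEN1. Linear combinations. -/
def S_good_lin : Prop :=
  ∀ (X : AV) (κ : Type) [Fintype κ] [DecidableEq κ],
    (∀ F G : MultilinearMap ℚ (fun _ : κ => X.H) ℂ, Good X κ F → Good X κ G → Good X κ (F + G)) ∧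
    (∀ (c : ℂ) (F : MultilinearMap ℚ (fun _ : κ => X.H) ℂ), Good X κ F → Good X κ (c • F)) ∧
    Good X κ 0

/-- JOB GEN1. Renaming of the variables. -/
def S_good_reindex : Prop :=
  ∀ (X : AV) (κ κ' : Type) [Fintype κ] [DecidableEq κ] [Fintype κ'] [DecidableEq κ'] (e : κ ≃ κ')
    (F : MultilinearMap ℚ (fun _ : κ => X.H) ℂ), Good X κ F → Good X κ' (F.domDomCongr e)

/-- JOB GEN1. Products. -/
def S_good_mul : Prop :=
  ∀ (X : AV) (κ κ' : Type) [Fintype κ] [DecidableEq κ] [Fintype κ'] [DecidableEq κ']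
    (F : MultilinearMap ℚ (fun _ : κ => X.H) ℂ) (G : MultilinearMap ℚ (fun _ : κ' => X.H) ℂ),
    Good X κ F → Good X κ' G → Good X (κ ⊕ κ') (mulF F G)

/-- JOB GEN1. Pull-backs. -/
def S_good_pull : Prop :=
  ∀ (X Y : AV) (κ : Type) [Fintype κ] [DecidableEq κ] (h : X.H →ₗ[ℚ] Y.H), IsHom X Y h →
    ∀ F : MultilinearMap ℚ (fun _ : κ => Y.H) ℂ, Good Y κ F →
      Good X κ (F.compLinearMap fun _ => h)

/-- JOB INS. Contraction over an abelian curve `E`: if `F(x) ε(w)` and `G(x) ε'(w)` are good on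
`X × E` then `F G` is good on `X` (cup product and push-forward along `X × E → X`). -/
def S_ins : Prop :=
  ∀ (X E : AV) (κ κ' : Type) [Fintype κ] [DecidableEq κ] [Fintype κ'] [DecidableEq κ']
    (b : Module.Basis (Fin 2) ℚ E.H) (ε ε' : E.H [⋀^Fin 1]→ₗ[ℚ] ℂ),
    (ε fun _ => b 0) * (ε' fun _ => b 1) - (ε fun _ => b 1) * (ε' fun _ => b 0) ≠ 0 →
    ∀ (F : MultilinearMap ℚ (fun _ : κ => X.H) ℂ) (G : MultilinearMap ℚ (fun _ : κ' => X.H) ℂ)
      (F' : MultilinearMap ℚ (fun _ : κ ⊕ Fin 1 => (X.prod E).H) ℂ)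
      (G' : MultilinearMap ℚ (fun _ : κ' ⊕ Fin 1 => (X.prod E).H) ℂ),
    (∀ v : κ ⊕ Fin 1 → X.H × E.H,
      F' v = F (fun k => (v (Sum.inl k)).1) * ε (fun k => (v (Sum.inr k)).2)) →
    (∀ v : κ' ⊕ Fin 1 → X.H × E.H,
      G' v = G (fun k => (v (Sum.inl k)).1) * ε' (fun k => (v (Sum.inr k)).2)) →
    Good (X.prod E) (κ ⊕ Fin 1) F' → Good (X.prod E) (κ' ⊕ Fin 1) G' → Good X (κ ⊕ κ') (mulF F G)

/-- JOB POL (polarization). If `δ(a) ε(w)` is good on `A × E` then so is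
`δ(h_0 x_0, h_1 x_1, h_2 x_2) ε(w)` on `X × E`, for homomorphisms `h_k : X → A`. -/
def S_pol : Prop :=
  ∀ (X A E : AV) (δ : A.H [⋀^Fin 3]→ₗ[ℚ] ℂ) (ε : E.H [⋀^Fin 1]→ₗ[ℚ] ℂ)
    (G : MultilinearMap ℚ (fun _ : Fin 3 ⊕ Fin 1 => (A.prod E).H) ℂ),
    (∀ v : Fin 3 ⊕ Fin 1 → A.H × E.H,
      G v = δ (fun k => (v (Sum.inl k)).1) * ε (fun k => (v (Sum.inr k)).2)) →
    Good (A.prod E) (Fin 3 ⊕ Fin 1) G →
    ∀ h : Fin 3 → (X.H →ₗ[ℚ] A.H), (∀ k, IsHom X A (h k)) →
    ∀ G' : MultilinearMap ℚ (fun _ : Fin 3 ⊕ Fin 1 => (X.prod E).H) ℂ,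
    (∀ v : Fin 3 ⊕ Fin 1 → X.H × E.H,
      G' v = δ (fun k => h k (v (Sum.inl k)).1) * ε (fun k => (v (Sum.inr k)).2)) →
    Good (X.prod E) (Fin 3 ⊕ Fin 1) G'

/-- JOB L0 (descent). If all conjugates of the complex valued form `F` have weight zero then the
forms `lam ∘ F` have weight zero, for all rational linear functions `lam`. -/
def S_L0 : Prop :=
  ∀ (X : AV) (κ : Type) [Fintype κ] [DecidableEq κ] (F : MultilinearMap ℚ (fun _ : κ => X.H) ℂ),
    (∀ σ : ℂ ≃+* ℂ, HasWeight X.per (conjF σ F) 0) →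
    ∀ lam : ℂ →ₗ[ℚ] ℚ, HasWeight X.per (cxM (lam.compMultilinearMap F)) 0

/-- JOB L0. A form of weight zero in the sense of `HasWeight` is a Hodge class. -/
def S_hodge : Prop :=
  ∀ (X : AV) (κ : Type) [Fintype κ] [DecidableEq κ] (f : X.H [⋀^κ]→ₗ[ℚ] ℚ),
    HasWeight X.per (cx f).toMultilinearMap 0 ↔ IsHodge X.per f

/-- JOB WT. The weights of the conjugates of a determinant form. -/
def S_wt : Prop :=
  ∀ (A : AV) (n : ℕ) (K : KOn A n) (σ : ℂ ≃+* ℂ),
    HasWeight A.per (conjF σ K.δ.toMultilinearMap) (K.s * chi K.μ σ)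

/-- JOB WEIL. The form `δ(x) ε(w)` on `A × E`, `A` a threefold and `E` an elliptic curve, with
opposite weights and the same eigenvalue, is good. -/
def S_weil : Prop :=
  ∀ (A E : AV) (K : KOn A 3) (L : KOn E 1), L.d = K.d → L.μ = K.μ → L.s = -K.s →
    ∀ G : MultilinearMap ℚ (fun _ : Fin 3 ⊕ Fin 1 => (A.prod E).H) ℂ,
    (∀ v : Fin 3 ⊕ Fin 1 → A.H × E.H,
      G v = K.δ (fun k => (v (Sum.inl k)).1) * L.δ (fun k => (v (Sum.inr k)).2)) →
    Good (A.prod E) (Fin 3 ⊕ Fin 1) G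

/-- JOB ELL. For each squarefree `d` and each root `μ` of `-d` there is an elliptic curve with data of
the weights `1` and `-1`. -/
def S_ell : Prop :=
  ∀ (d : ℕ) (_ : Squarefree d) (μ : ℂ) (_ : μ * μ = -(d : ℂ)),
    ∃ (E : AV) (b : Module.Basis (Fin 2) ℚ E.H) (K L : KOn E 1),
      K.d = d ∧ L.d = d ∧ K.μ = μ ∧ L.μ = μ ∧ K.s = 1 ∧ L.s = -1 ∧
      (K.δ fun _ => b 0) * (L.δ fun _ => b 1) - (K.δ fun _ => b 1) * (L.δ fun _ => b 0) ≠ 0

/-- JOB CHI. The conjugation characters of different imaginary quadratic fields are independent. -/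
def S_chi : Prop :=
  ∀ (m : ℕ) (d : Fin m → ℕ) (_ : ∀ j, Squarefree (d j)) (μ : Fin m → ℂ)
    (_ : ∀ j, μ j * μ j = -(d j : ℂ)) (s : Fin m → ℤ),
    (∀ σ : ℂ ≃+* ℂ, ∑ j, s j * chi (μ j) σ = 0) →
    ∀ e : ℕ, ∑ j, (if d j = e then s j else 0) = 0

/-- JOB T2. The balanced monomials are good. -/
def S_bal : Prop :=
  ∀ (X : AV) (κ : Type) [Fintype κ] [DecidableEq κ] (M : Mon X κ), M.Balanced →
    ∀ F : MultilinearMap ℚ (fun _ : κ => X.H) ℂ, (∀ v, F v = M.val v) → Good X κ F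

/-- JOB CONV. The generated classes are Hodge classes. -/
def S_conv : Prop :=
  ∀ (X : AV) (κ : Type) (f : X.H [⋀^κ]→ₗ[ℚ] ℚ), Gen X κ f → Finite κ → IsHodge X.per f

end Pool.Agent.Q60.D3
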