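import Mathlib
import Pool.Agent.Q60.D3.Stm
import Pool.Agent.W437.HD.Rat

/-!
# The abelian variety with a given period matrix
-/

set_option linter.unusedSectionVars false
set_option linter.unusedVariables false
set_option linter.unusedSimpArgs false

namespace Pool.Agent.Q60.D3

open Matrix Pool.Agent.H204R3.CM Pool.Agent.W437.HC Pool.Agent.W437.HD

variable {g : ℕ} {Z : Matrix (Fin g) (Fin g) ℂ}

theorem perOne_apply (Z : Matrix (Fin g) (Fin g) ℂ) (w : Fin g ⊕ Fin g → ℚ) (i : Fin g) :
    perOne Z w i = (w (Sum.inl i) : ℂ) + ∑ k, Z i k * (w (Sum.inr k) : ℂ) := rfl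

theorem perOne_inl (Z : Matrix (Fin g) (Fin g) ℂ) (i : Fin g) :
    perOne Z (Pi.single (Sum.inl i) 1) = Pi.single i 1 := by
  funext j
  rw [perOne_apply]
  have h1 : ∀ k, (Pi.single (Sum.inl i) (1 : ℚ) : Fin g ⊕ Fin g → ℚ) (Sum.inr k) = 0 := fun k =>
    Pi.single_eq_of_ne (by simp) _
  simp only [h1, Rat.cast_zero, mul_zero, Finset.sum_const_zero, add_zero]
  by_cases h : j = i
  · subst h
    rw [Pi.single_eq_same, Pi.single_eq_same, Rat.cast_one]
  · rw [Pi.single_eq_of_ne (by simpa using h), Pi.single_eq_of_ne h, Rat.cast_zero]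

theorem perOne_inr (Z : Matrix (Fin g) (Fin g) ℂ) (k : Fin g) :
    perOne Z (Pi.single (Sum.inr k) 1) = fun i => Z i k := by
  funext j
  rw [perOne_apply]
  have h1 : (Pi.single (Sum.inr k) (1 : ℚ) : Fin g ⊕ Fin g → ℚ) (Sum.inl j) = 0 :=
    Pi.single_eq_of_ne (by simp) _
  rw [h1, Rat.cast_zero, zero_add, Finset.sum_eq_single k]
  · rw [Pi.single_eq_same, Rat.cast_one, mul_one]
  · intro l _ hl
    rw [Pi.single_eq_of_ne (by simpa using hl), Rat.cast_zero, mul_zero]
  · intro h
    exact absurd (Finset.mem_univ _) h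

theorem span_perOne (hpos : (imM Z).PosDef) :
    Submodule.span ℝ (Set.range (perOne Z)) = (⊤ : Submodule ℝ (Fin g → ℂ)) := by
  rw [eq_top_iff]
  intro t _
  have hu : IsUnit (imM Z).det := hpos.isUnit.map Matrix.detMonoidHom
  set b : Fin g → ℝ := (imM Z)⁻¹ *ᵥ fun i => (t i).im with hb
  set a : Fin g → ℝ := (fun i => (t i).re) - reM Z *ᵥ b with ha
  have h1 : t = ∑ i, a i • perOne Z (Pi.single (Sum.inl i) 1) +
      ∑ k, b k • perOne Z (Pi.single (Sum.inr k) 1) := by
    simp only [perOne_inl, perOne_inr]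
    have hYb : imM Z *ᵥ b = fun i => (t i).im := by
      rw [hb, mulVec_mulVec, mul_nonsing_inv _ hu, one_mulVec]
    funext j
    rw [Pi.add_apply, Finset.sum_apply, Finset.sum_apply, Finset.sum_eq_single j]
    · simp only [Pi.smul_apply, Pi.single_eq_same]
      apply Complex.ext
      · simp only [Complex.add_re, Complex.real_smul, Complex.mul_re, Complex.ofReal_re,
          Complex.one_re, Complex.ofReal_im, Complex.one_im, mul_zero, sub_zero, mul_one,
          Complex.re_sum, zero_mul, ha, Pi.sub_apply]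
        simp only [mulVec, dotProduct, Matrix.map_apply]
        have : ∀ x, b x * (Z j x).re = (Z j x).re * b x := fun x => mul_comm _ _
        simp only [this]
        ring
      · have h2 := congrFun hYb j
        simp only [mulVec, dotProduct, Matrix.map_apply] at h2
        simp only [Complex.add_im, Complex.real_smul, Complex.mul_im, Complex.ofReal_re,
          Complex.one_re, Complex.ofReal_im, Complex.one_im, mul_zero, mul_one,
          Complex.im_sum, zero_mul, add_zero, zero_add]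
        rw [← h2]
        exact Finset.sum_congr rfl fun x _ => mul_comm _ _
    · intro i _ hi
      rw [Pi.smul_apply, Pi.single_eq_of_ne (Ne.symm hi), smul_zero]
    · intro h
      exact absurd (Finset.mem_univ _) h
  rw [h1]
  refine Submodule.add_mem _ ?_ ?_
  · exact Submodule.sum_mem _ fun i _ => Submodule.smul_mem _ _ (Submodule.subset_span ⟨_, rfl⟩)
  · exact Submodule.sum_mem _ fun i _ => Submodule.smul_mem _ _ (Submodule.subset_span ⟨_, rfl⟩)

theorem perOne_re (w : Fin g ⊕ Fin g → ℚ) (i : Fin g) : (perOne Z w i).re =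
    (w (Sum.inl i) : ℝ) + ∑ k, reM Z i k * (w (Sum.inr k) : ℝ) := by
  rw [perOne_apply]
  simp only [Complex.add_re, Complex.re_sum, Complex.mul_re, Complex.ratCast_re,
    Complex.ratCast_im, mul_zero, sub_zero, Matrix.map_apply]

theorem perOne_im (w : Fin g ⊕ Fin g → ℚ) (i : Fin g) : (perOne Z w i).im =
    ∑ k, imM Z i k * (w (Sum.inr k) : ℝ) := by
  rw [perOne_apply]
  simp only [Complex.add_im, Complex.im_sum, Complex.mul_im, Complex.ratCast_re,
    Complex.ratCast_im, mul_zero, zero_add, Matrix.map_apply]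

theorem pol_perOne (hZ : Zᵀ = Z) (hpos : (imM Z).PosDef) : ∃ E : (Fin g → ℂ) → (Fin g → ℂ) → ℂ,
    (∀ u', IsLinearMap ℂ fun u => E u u') ∧
    (∀ u u', E u' u = starRingEnd ℂ (E u u')) ∧ (∀ u, u ≠ 0 → 0 < (E u u).re) ∧
    ∀ v w, ∃ q : ℚ, (E (perOne Z v) (perOne Z w)).im = q := by
  have hu : IsUnit (imM Z).det := hpos.isUnit.map Matrix.detMonoidHom
  have hYs : (imM Z)ᵀ = imM Z := imM_symm hZ
  have hXs : (reM Z)ᵀ = reM Z := reM_symm hZ
  set W : Matrix (Fin g) (Fin g) ℝ := (imM Z)⁻¹ with hW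
  have hWs : Wᵀ = W := by rw [hW, transpose_nonsing_inv, hYs]
  have hWp : W.PosDef := hpos.inv
  refine ⟨fun u v => ∑ i, ∑ j, (W i j : ℂ) * (u i * starRingEnd ℂ (v j)), ?_, ?_, ?_, ?_⟩
  · intro u'
    refine ⟨fun a b => ?_, fun c a => ?_⟩
    · simp only [Pi.add_apply]
      rw [← Finset.sum_add_distrib]
      refine Finset.sum_congr rfl fun i _ => ?_
      rw [← Finset.sum_add_distrib]
      refine Finset.sum_congr rfl fun j _ => ?_
      ring
    · simp only [Pi.smul_apply, smul_eq_mul, Finset.mul_sum]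
      refine Finset.sum_congr rfl fun i _ => Finset.sum_congr rfl fun j _ => ?_
      ring
  · intro u u'
    refine Finset.sum_comm.trans ?_
    change _ = starRingEnd ℂ (∑ i, ∑ j, (W i j : ℂ) * (u i * starRingEnd ℂ (u' j)))
    rw [map_sum]
    refine Finset.sum_congr rfl fun i _ => ?_
    rw [map_sum]
    refine Finset.sum_congr rfl fun j _ => ?_
    have h1 : W j i = W i j := congrFun (congrFun hWs i) j
    rw [map_mul, map_mul, Complex.conj_ofReal, Complex.conj_conj, h1]
    ring
  · intro u hne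
    have h1 : (∑ i, ∑ j, (W i j : ℂ) * (u i * starRingEnd ℂ (u j))).re =
        (fun i => (u i).re) ⬝ᵥ (W *ᵥ fun i => (u i).re) +
          (fun i => (u i).im) ⬝ᵥ (W *ᵥ fun i => (u i).im) := by
      simp only [Complex.re_sum, dotProduct, mulVec, Finset.mul_sum]
      rw [← Finset.sum_add_distrib]
      refine Finset.sum_congr rfl fun i _ => ?_
      rw [← Finset.sum_add_distrib]
      refine Finset.sum_congr rfl fun j _ => ?_
      simp only [Complex.mul_re, Complex.ofReal_re, Complex.ofReal_im, zero_mul, sub_zero,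
        Complex.conj_re, Complex.conj_im]
      ring
    rw [h1]
    have key : ∀ x : Fin g → ℝ, x ≠ 0 → 0 < x ⬝ᵥ (W *ᵥ x) := by
      intro x hx
      have h2 := hWp.dotProduct_mulVec_pos hx
      simpa using h2
    have key0 : ∀ x : Fin g → ℝ, 0 ≤ x ⬝ᵥ (W *ᵥ x) := by
      intro x
      by_cases hx : x = 0
      · rw [hx, zero_dotProduct]
      · exact (key x hx).le
    by_cases hre : (fun i => (u i).re) = 0
    · have him : (fun i => (u i).im) ≠ 0 := by
        intro him
        apply hne
        funext i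
        exact Complex.ext (congrFun hre i) (congrFun him i)
      exact add_pos_of_nonneg_of_pos (key0 _) (key _ him)
    · exact add_pos_of_pos_of_nonneg (key _ hre) (key0 _)
  · intro v w
    refine ⟨∑ k, (v (Sum.inr k) * w (Sum.inl k) - v (Sum.inl k) * w (Sum.inr k)), ?_⟩
    have h1 : (∑ i, ∑ j, (W i j : ℂ) * (perOne Z v i * starRingEnd ℂ (perOne Z w j))).im =
        (fun i => (perOne Z v i).im) ⬝ᵥ (W *ᵥ fun i => (perOne Z w i).re) -
          (fun i => (perOne Z v i).re) ⬝ᵥ (W *ᵥ fun i => (perOne Z w i).im) := by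
      simp only [Complex.im_sum, dotProduct, mulVec, Finset.mul_sum]
      rw [← Finset.sum_sub_distrib]
      refine Finset.sum_congr rfl fun i _ => ?_
      rw [← Finset.sum_sub_distrib]
      refine Finset.sum_congr rfl fun j _ => ?_
      simp only [Complex.mul_im, Complex.ofReal_re, Complex.ofReal_im, zero_mul, add_zero,
        Complex.conj_re, Complex.conj_im]
      ring
    rw [h1]
    set vl : Fin g → ℝ := fun k => (v (Sum.inl k) : ℝ) with hvl
    set vr : Fin g → ℝ := fun k => (v (Sum.inr k) : ℝ) with hvr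
    set wl : Fin g → ℝ := fun k => (w (Sum.inl k) : ℝ) with hwl
    set wr : Fin g → ℝ := fun k => (w (Sum.inr k) : ℝ) with hwr
    have e1 : (fun i => (perOne Z v i).im) = imM Z *ᵥ vr := by
      funext i
      rw [perOne_im]
      rfl
    have e2 : (fun i => (perOne Z v i).re) = vl + reM Z *ᵥ vr := by
      funext i
      rw [perOne_re]
      rfl
    have e3 : (fun i => (perOne Z w i).im) = imM Z *ᵥ wr := by
      funext i
      rw [perOne_im]
      rfl
    have e4 : (fun i => (perOne Z w i).re) = wl + reM Z *ᵥ wr := by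
      funext i
      rw [perOne_re]
      rfl
    rw [e1, e2, e3, e4]
    have e5 : ∀ x : Fin g → ℝ, (imM Z *ᵥ vr) ⬝ᵥ (W *ᵥ x) = vr ⬝ᵥ x := by
      intro x
      rw [dotProduct_mulVec, vecMul_mulVec, hYs, hW, mul_nonsing_inv _ hu, vecMul_one]
    have e6 : ∀ x : Fin g → ℝ, x ⬝ᵥ (W *ᵥ (imM Z *ᵥ wr)) = x ⬝ᵥ wr := by
      intro x
      rw [mulVec_mulVec, hW, nonsing_inv_mul _ hu, one_mulVec]
    rw [e5, e6]
    have e7 : vr ⬝ᵥ (reM Z *ᵥ wr) = (reM Z *ᵥ vr) ⬝ᵥ wr := by
      rw [dotProduct_mulVec]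
      congr 1
      rw [← mulVec_transpose, hXs]
    rw [dotProduct_add, add_dotProduct, e7]
    push_cast
    rw [Finset.sum_sub_distrib]
    simp only [dotProduct, hvl, hvr, hwl, hwr]
    ring

/-- The abelian variety `ℂ ^ g / (ℤ ^ g + Z ℤ ^ g)`. -/
noncomputable def ofZ (Z : Matrix (Fin g) (Fin g) ℂ) (hZ : Zᵀ = Z) (hpos : (imM Z).PosDef) : AV where
  H := Fin g ⊕ Fin g → ℚ
  T := Fin g → ℂ
  per := perOne Z
  span := span_perOne hpos
  dim := by
    rw [Module.finrank_fintype_fun_eq_card, Module.finrank_fintype_fun_eq_card, Fintype.card_sum,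
      Fintype.card_fin]
    ring
  pol := pol_perOne hZ hpos

end Pool.Agent.Q60.D3
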