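import Mathlib
import Pool.Agent.Q60.D3.OfZ
import Pool.Agent.W437.HP.Blk
import Pool.Agent.W437.HQ.Endo

/-!
# Homomorphisms and rational matrices
-/

set_option linter.unusedSectionVars false
set_option linter.unusedVariables false

namespace Pool.Agent.Q60.D3

open Matrix Pool.Agent.H204R3.CM Pool.Agent.W437.HC Pool.Agent.W437.HD Pool.Agent.W437.HP
  Pool.Agent.W437.HQ

section hom

variable {g g' : ℕ} {Z : Matrix (Fin g) (Fin g) ℂ} {Z' : Matrix (Fin g') (Fin g') ℂ}

/-- The real case of `mulVec`, with values in a rational space. -/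
theorem cast_mulVec {m n : Type*} [Fintype n] (N : Matrix m n ℚ) (w : n → ℚ) :
    (fun k => (((N *ᵥ w) k : ℚ) : ℂ)) = cK ℂ N *ᵥ fun k => ((w k : ℚ) : ℂ) := by
  funext k
  simp [cK, mulVec, dotProduct]

/-- Rational matrices that commute with the Hodge operators are homomorphisms. -/
theorem hom_of_comm (hZ : Zᵀ = Z) (hpos : (imM Z).PosDef) (hZ' : Z'ᵀ = Z') (hpos' : (imM Z').PosDef)
    {N : Matrix (Fin g' ⊕ Fin g') (Fin g ⊕ Fin g) ℚ} (h : cK ℂ N * DZ Z = DZ Z' * cK ℂ N) :
    IsHom (ofZ Z hZ hpos) (ofZ Z' hZ' hpos') (Matrix.mulVecLin N) := by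
  have hY : IsUnit (imM Z).det := hpos.isUnit.map Matrix.detMonoidHom
  have hY' : IsUnit (imM Z').det := hpos'.isUnit.map Matrix.detMonoidHom
  refine ⟨Matrix.mulVecLin (PZ Z' * cK ℂ N * r10 g), fun w => ?_⟩
  have key : ∀ w : Fin g ⊕ Fin g → ℚ,
      (PZ Z' * cK ℂ N * r10 g) *ᵥ perOne Z w = perOne Z' (N *ᵥ w) := ?_
  · exact key w
  clear w
  intro w
  rw [perOne_PZ, perOne_PZ, cast_mulVec]
  have h6 : PZ Z' * cK ℂ N * LM Z = 0 := by
    have h7 : PZ Z' * cK ℂ N * LM Z = -(PZ Z' * cK ℂ N * LM Z) := by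
      conv_lhs => rw [← PZ_DZ hY', Matrix.mul_assoc (PZ Z'), ← h, Matrix.mul_assoc,
        Matrix.mul_assoc, DZ_LM hY, Matrix.mul_neg, Matrix.mul_neg, ← Matrix.mul_assoc]
    have h8 : (2 : ℂ) • (PZ Z' * cK ℂ N * LM Z) = 0 := by
      rw [two_smul]
      nth_rewrite 1 [h7]
      rw [neg_add_cancel]
    exact (smul_eq_zero.1 h8).resolve_left two_ne_zero
  have h7 : PZ Z' * cK ℂ N = PZ Z' * cK ℂ N * r10 g * PZ Z := by
    conv_lhs => rw [← Matrix.mul_one (PZ Z' * cK ℂ N), one_eq (Z := Z)]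
    rw [Matrix.mul_add, ← Matrix.mul_assoc, ← Matrix.mul_assoc _ (LM Z), h6, Matrix.zero_mul,
      add_zero]
  rw [mulVec_mulVec, mulVec_mulVec, ← h7]

end hom

section rat

/-- A space of matrices stable under all automorphisms is spanned by rational matrices. -/
theorem rat_span {m n : Type*} [Fintype m] [Fintype n] (S : Submodule ℂ (Matrix m n ℂ))
    (hS : ∀ σ : ℂ ≃+* ℂ, ∀ X ∈ S, X.map σ ∈ S) {X : Matrix m n ℂ} (hX : X ∈ S) :
    X ∈ Submodule.span ℂ {Y : Matrix m n ℂ | ∃ N : Matrix m n ℚ, cK ℂ N ∈ S ∧ Y = cK ℂ N} := by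
  let M : (m × n → ℂ) →ₗ[ℂ] Matrix m n ℂ :=
    { toFun := fun x => Matrix.of fun i j => x (i, j)
      map_add' := fun x y => rfl
      map_smul' := fun c x => rfl }
  have hsp := span_rational (S.comap M) (by
    intro σ v hv
    have h4 := hS σ _ hv
    exact h4)
  have key : ∀ x ∈ S.comap M, M x ∈
      Submodule.span ℂ {Y : Matrix m n ℂ | ∃ N : Matrix m n ℚ, cK ℂ N ∈ S ∧ Y = cK ℂ N} := by
    intro x hx
    rw [hsp] at hx
    induction hx using Submodule.span_induction with
    | mem w hw =>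
      obtain ⟨hw1, u, rfl⟩ := hw
      exact Submodule.subset_span ⟨Matrix.of fun i j => u (i, j), hw1, rfl⟩
    | zero => rw [map_zero]; exact Submodule.zero_mem _
    | add x y _ _ hx hy => rw [map_add]; exact Submodule.add_mem _ hx hy
    | smul c x _ hx => rw [map_smul]; exact Submodule.smul_mem _ _ hx
  exact key (fun q => X q.1 q.2) hX

theorem map_map_symm {m n : Type*} (A : Matrix m n ℂ) (σ : ℂ ≃+* ℂ) :
    (A.map σ.symm).map σ = A := by
  ext i j
  simp

theorem map_trans {m n : Type*} (A : Matrix m n ℂ) (σ τ : ℂ ≃+* ℂ) :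
    (A.map ((σ.trans τ.symm : ℂ ≃+* ℂ))).map τ = A.map σ := by
  ext i j
  simp

theorem map_refl {m n : Type*} (A : Matrix m n ℂ) : A.map (RingEquiv.refl ℂ) = A := by
  ext i j
  rfl

theorem cK_map {m n : Type*} (N : Matrix m n ℚ) (σ : ℂ ≃+* ℂ) : (cK ℂ N).map σ = cK ℂ N := by
  ext i j
  simp [cK]

/-- Matrices which intertwine all conjugates of two operators. -/
theorem span_homs {m n : Type*} [Fintype m] [Fintype n] {D : Matrix n n ℂ} {D' : Matrix m m ℂ}
    {M : Matrix m n ℂ} (hM : ∀ σ : ℂ ≃+* ℂ, M * D.map σ = D'.map σ * M) :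
    M ∈ Submodule.span ℂ {Y : Matrix m n ℂ | ∃ N : Matrix m n ℚ,
      cK ℂ N * D = D' * cK ℂ N ∧ Y = cK ℂ N} := by
  let S : Submodule ℂ (Matrix m n ℂ) :=
    { carrier := {M | ∀ σ : ℂ ≃+* ℂ, M * D.map σ = D'.map σ * M}
      zero_mem' := fun σ => by rw [Matrix.zero_mul, Matrix.mul_zero]
      add_mem' := fun {a b} ha hb σ => by rw [Matrix.add_mul, Matrix.mul_add, ha σ, hb σ]
      smul_mem' := fun c a ha σ => by rw [Matrix.smul_mul, Matrix.mul_smul, ha σ] }
  have h1 := rat_span S (by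
    intro τ X hX σ
    have h2 := congrArg (fun A => A.map τ) (hX (σ.trans τ.symm))
    simp only [Matrix.map_mul] at h2
    rw [map_trans, map_trans] at h2
    exact h2) hM
  refine Submodule.span_mono ?_ h1
  rintro _ ⟨N, hN, rfl⟩
  refine ⟨N, ?_, rfl⟩
  have h2 := hN (RingEquiv.refl ℂ)
  rw [map_refl, map_refl] at h2
  exact h2

/-- Bilinear forms killed by all conjugates of an operator. -/
theorem span_bil {n : Type*} [Fintype n] {D : Matrix n n ℂ}
    {G : Matrix n n ℂ} (hG : ∀ σ : ℂ ≃+* ℂ, (D.map σ)ᵀ * G + G * D.map σ = 0) :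
    G ∈ Submodule.span ℂ {Y : Matrix n n ℂ | ∃ N : Matrix n n ℚ,
      Dᵀ * cK ℂ N + cK ℂ N * D = 0 ∧ Y = cK ℂ N} := by
  have h1 : ∀ σ : ℂ ≃+* ℂ, G * D.map σ = (-Dᵀ).map σ * G := by
    intro σ
    have h2 : (-Dᵀ).map σ = -(D.map σ)ᵀ := by
      ext i j
      simp
    rw [h2, Matrix.neg_mul]
    exact eq_neg_of_add_eq_zero_right (hG σ)
  refine Submodule.span_mono ?_ (span_homs h1)
  rintro _ ⟨N, hN, rfl⟩
  refine ⟨N, ?_, rfl⟩
  rw [hN, Matrix.neg_mul, add_neg_cancel]

end rat

section multi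

/-- A multilinear expression in elements of spans. -/
theorem multi_span {T : Type*} [Fintype T] [DecidableEq T] {E : T → Type*}
    [∀ t, AddCommGroup (E t)] [∀ t, Module ℂ (E t)] {V : Type*} [AddCommGroup V] [Module ℂ V]
    (Ψ : MultilinearMap ℂ E V) (S : ∀ t, Set (E t)) (x : ∀ t, E t)
    (hx : ∀ t, x t ∈ Submodule.span ℂ (S t)) :
    Ψ x ∈ Submodule.span ℂ {y | ∃ s : ∀ t, E t, (∀ t, s t ∈ S t) ∧ y = Ψ s} := by
  have key : ∀ (F : Finset T) (x : ∀ t, E t), (∀ t ∈ F, x t ∈ Submodule.span ℂ (S t)) →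
      (∀ t, t ∉ F → x t ∈ S t) →
      Ψ x ∈ Submodule.span ℂ {y | ∃ s : ∀ t, E t, (∀ t, s t ∈ S t) ∧ y = Ψ s} := by
    intro F
    induction F using Finset.induction_on with
    | empty =>
      intro x _ h
      exact Submodule.subset_span ⟨x, fun t => h t (Finset.notMem_empty t), rfl⟩
    | insert t F ht ih =>
      intro x h1 h2
      have h3 : ∀ y ∈ Submodule.span ℂ (S t), Ψ (Function.update x t y) ∈
          Submodule.span ℂ {y | ∃ s : ∀ t, E t, (∀ t, s t ∈ S t) ∧ y = Ψ s} := by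
        intro y hy
        induction hy using Submodule.span_induction with
        | mem y hy =>
          refine ih _ (fun t' ht' => ?_) fun t' ht' => ?_
          · have hne : t' ≠ t := fun h => ht (h ▸ ht')
            rw [Function.update_of_ne hne]
            exact h1 t' (Finset.mem_insert_of_mem ht')
          · by_cases hne : t' = t
            · subst hne
              rw [Function.update_self]
              exact hy
            · rw [Function.update_of_ne hne]
              exact h2 t' fun h => (Finset.mem_insert.1 h).elim hne ht'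
        | zero => rw [MultilinearMap.map_update_zero]; exact Submodule.zero_mem _
        | add a b _ _ ha hb => rw [MultilinearMap.map_update_add]; exact Submodule.add_mem _ ha hb
        | smul c a _ ha =>
          rw [MultilinearMap.map_update_smul]
          exact Submodule.smul_mem _ _ ha
      have h4 := h3 (x t) (h1 t (Finset.mem_insert_self t F))
      rwa [Function.update_eq_self] at h4
  exact key Finset.univ x (fun t _ => hx t) fun t ht => absurd (Finset.mem_univ t) ht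

end multi

end Pool.Agent.Q60.D3
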