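import Mathlib
import Pool.Agent.Q60.D3.Stm
import Pool.Agent.W437.HR.Pcs
import Pool.Agent.Q59.GC.Core

/-!
# Project D3: statements of the lemma jobs, Lie algebra part
-/

namespace Pool.Agent.Q60.D3

open Matrix Pool.Agent.H204R3.CM Pool.Agent.H204R3.SP Pool.Agent.W437.HC Pool.Agent.W437.HD
  Pool.Agent.W437.HP Pool.Agent.W437.HR

/-- The Hodge operator commutes with all its conjugates (the abelian variety is of CM type). -/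
def Comm {g : ℕ} (Z : Matrix (Fin g) (Fin g) ℂ) : Prop :=
  ∀ σ : ℂ ≃+* ℂ, (DZ Z).map σ * DZ Z = DZ Z * (DZ Z).map σ

/-- Data of an elliptic curve of CM type or of an abelian threefold with an endomorphism `φ`,
`φ ^ 2 = -d`: a basis `u` of the eigenspace of `μ` and the dual basis `v` of the eigenspace of `-μ`,
consisting of eigenvectors of the Hodge operator; on the eigenspace of `μ` it has the trace one. -/
structure KZ {g : ℕ} (Z : Matrix (Fin g) (Fin g) ℂ) where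
  hg : g = 1 ∨ g = 3
  φ : Matrix (Fin g ⊕ Fin g) (Fin g ⊕ Fin g) ℚ
  d : ℕ
  hd : Squarefree d
  sq : φ * φ = -((d : ℚ) • (1 : Matrix (Fin g ⊕ Fin g) (Fin g ⊕ Fin g) ℚ))
  com : cK ℂ φ * DZ Z = DZ Z * cK ℂ φ
  skew : φᵀ * Om g ℚ = -(Om g ℚ * φ)
  μ : ℂ
  hμ : μ * μ = -(d : ℂ)
  u : Fin g → Fin g ⊕ Fin g → ℂ
  v : Fin g → Fin g ⊕ Fin g → ℂ
  hu : ∀ k, cK ℂ φ *ᵥ u k = μ • u k
  hv : ∀ k, cK ℂ φ *ᵥ v k = (-μ) • v k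
  dual : ∀ k l, u k ⬝ᵥ (Om g ℂ *ᵥ v l) = if k = l then 1 else 0
  hDu : ∀ k, DZ Z *ᵥ u k = (if (k : ℕ) = 2 then (-1 : ℂ) else 1) • u k
  hDv : ∀ k, DZ Z *ᵥ v k = (if (k : ℕ) = 2 then (1 : ℂ) else -1) • v k

/-- Each Lie algebra which contains all conjugates of the Hodge operator contains elements acting on
the eigenspace of `μ` as the elementary matrices off the diagonal. -/
def KFull {g : ℕ} {Z : Matrix (Fin g) (Fin g) ℂ} (K : KZ Z) : Prop :=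
  ∀ L : Submodule ℂ (Matrix (Fin g ⊕ Fin g) (Fin g ⊕ Fin g) ℂ),
    (∀ X ∈ L, ∀ Y ∈ L, X * Y - Y * X ∈ L) → (∀ σ : ℂ ≃+* ℂ, (DZ Z).map σ ∈ L) →
    ∀ i j : Fin g, i ≠ j → ∃ X ∈ L, ∀ k, X *ᵥ K.u k = if k = j then K.u i else 0

/-- The traceless part. -/
noncomputable def tl (A : Matrix (Fin 3) (Fin 3) ℂ) : Matrix (Fin 3) (Fin 3) ℂ :=
  A - (A.trace / 3) • 1

/-- The diagonal matrix with entries `1, 1, -1`. -/
noncomputable def dg : Matrix (Fin 3) (Fin 3) ℂ := Matrix.diagonal ![1, 1, -1]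

/-- JOB NF (normal form). Each abelian variety is isogenous to a principally polarized one. -/
def S_nf : Prop :=
  ∀ A : AV, ∃ (g : ℕ) (Z : Matrix (Fin g) (Fin g) ℂ) (e : A.H ≃ₗ[ℚ] (Fin g ⊕ Fin g → ℚ))
    (C : A.T ≃ₗ[ℂ] (Fin g → ℂ)), Zᵀ = Z ∧ (imM Z).PosDef ∧ ∀ w, C (A.per w) = perOne Z (e w)

/-- JOB NOE. In the homology of a simple abelian variety not of CM type there is no common
eigenvector of the conjugates of the Hodge operator. -/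
def S_noe : Prop :=
  ∀ (g : ℕ) (Z : Matrix (Fin g) (Fin g) ℂ), Zᵀ = Z → (imM Z).PosDef → IsSimpleAV Z → ¬ Comm Z →
    ∀ v : Fin g ⊕ Fin g → ℂ, (∀ σ : ℂ ≃+* ℂ, ∃ c : ℂ, (DZ Z).map σ *ᵥ v = c • v) → v = 0

/-- JOB TRI (trichotomy). -/
def S_tri : Prop :=
  ∀ (g : ℕ) (Z : Matrix (Fin g) (Fin g) ℂ), Zᵀ = Z → (imM Z).PosDef → IsSimpleAV Z → g ≤ 3 →
    Comm Z ∨ HasPcs (DZ Z) ∨ (g = 3 ∧ Nonempty (KZ Z))

/-- JOB FULL. -/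
def S_full : Prop :=
  ∀ (g : ℕ) (Z : Matrix (Fin g) (Fin g) ℂ), Zᵀ = Z → (imM Z).PosDef → IsSimpleAV Z → ¬ Comm Z →
    ∀ K : KZ Z, KFull K

/-- JOB CM1. -/
def S_cm1 : Prop :=
  ∀ Z : Matrix (Fin 1) (Fin 1) ℂ, (imM Z).PosDef → Comm Z → Nonempty (KZ Z)

/-- JOB CMD. -/
def S_cmd : Prop :=
  ∀ (A : AV) (g : ℕ) (Z : Matrix (Fin g) (Fin g) ℂ) (e : A.H ≃ₗ[ℚ] (Fin g ⊕ Fin g → ℚ))
    (C : A.T ≃ₗ[ℂ] (Fin g → ℂ)), Zᵀ = Z → (imM Z).PosDef →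
    (∀ w, C (A.per w) = perOne Z (e w)) → IsSimple A → Comm Z → IsCM A

/-- JOB CHIZ. The conjugates of the Hodge operator on the two eigenspaces. -/
def S_chiz : Prop :=
  ∀ (g : ℕ) (Z : Matrix (Fin g) (Fin g) ℂ), Zᵀ = Z → (imM Z).PosDef → ∀ (K : KZ Z) (σ : ℂ ≃+* ℂ),
    ∃ T : Matrix (Fin g) (Fin g) ℂ, (∀ k, (DZ Z).map σ *ᵥ K.u k = ∑ l, T l k • K.u l) ∧
      (∀ k, (DZ Z).map σ *ᵥ K.v k = -∑ l, T k l • K.v l) ∧ T * T = 1 ∧ T.trace = (chi K.μ σ : ℂ)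

/-- JOB GR (Goursat-Ribet for simple quotients of a Lie algebra). -/
def S_gr : Prop :=
  ∀ (M : Type) [AddCommGroup M] [Module ℂ M] (br : M → M → M) (Q : Type) [Finite Q]
    (W : Q → Type) [∀ q, AddCommGroup (W q)] [∀ q, Module ℂ (W q)]
    (P : ∀ q, M →ₗ[ℂ] Module.End ℂ (W q)),
    (∀ q X Y, P q (br X Y) = P q X * P q Y - P q Y * P q X) →
    (∀ q, ∀ I : Submodule ℂ (Module.End ℂ (W q)), (∀ X, ∀ A ∈ I, P q X * A - A * P q X ∈ I) →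
      (∀ A ∈ I, ∃ X, P q X = A) → I ≠ ⊥ → ∀ X, P q X ∈ I) →
    (∀ q, ∃ X Y, P q (br X Y) ≠ 0) →
    (∀ q q', q ≠ q' → ∃ X, P q' X = 0 ∧ P q X ≠ 0) →
    ∀ q X, ∃ Y ∈ Submodule.span ℂ {A | ∃ B C, A = br B C}, P q Y = P q X ∧
      ∀ q', q' ≠ q → P q' Y = 0

/-- JOB SLI (simplicity of `sl_3`). -/
def S_sli : Prop :=
  ∀ I : Submodule ℂ (Matrix (Fin 3) (Fin 3) ℂ), (∀ A ∈ I, A.trace = 0) →
    (∀ i j : Fin 3, i ≠ j → ∀ A ∈ I, Matrix.single i j 1 * A - A * Matrix.single i j 1 ∈ I) →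
    I ≠ ⊥ → ∀ A : Matrix (Fin 3) (Fin 3) ℂ, A.trace = 0 → A ∈ I

/-- JOB LINK (two pieces of type `sl_3` that are not independent are isomorphic). -/
def S_link : Prop :=
  ∀ (M : Type) [AddCommGroup M] [Module ℂ M] (br : M → M → M)
    (T T' : M →ₗ[ℂ] Matrix (Fin 3) (Fin 3) ℂ),
    (∀ X Y, T (br X Y) = T X * T Y - T Y * T X) →
    (∀ X Y, T' (br X Y) = T' X * T' Y - T' Y * T' X) →
    (∀ i j : Fin 3, i ≠ j → ∃ X, T X = Matrix.single i j 1) →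
    (∀ i j : Fin 3, i ≠ j → ∃ X, T' X = Matrix.single i j 1) →
    ∀ δ : M, T δ = dg → T' δ = dg → (∀ X, tl (T' X) = 0 → tl (T X) = 0) →
    ∃ τ : Matrix (Fin 3) (Fin 3) ℂ, IsUnit τ.det ∧ ∀ X, tl (T X) * τ = τ * tl (T' X)

/-- JOB NOL (pieces of types `sp` and `sl_3` are independent). -/
def S_nol : Prop :=
  ∀ (M : Type) [AddCommGroup M] [Module ℂ M] (br : M → M → M)
    (N : Type) [AddCommGroup N] [Module ℂ N] [FiniteDimensional ℂ N] [Nontrivial N]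
    (w : N →ₗ[ℂ] N →ₗ[ℂ] ℂ) (ρ : M →ₗ[ℂ] Module.End ℂ N) (T : M →ₗ[ℂ] Matrix (Fin 3) (Fin 3) ℂ),
    (∀ x, w x x = 0) → (∀ x, (∀ y, w x y = 0) → x = 0) →
    (∀ X Y, ρ (br X Y) = ρ X * ρ Y - ρ Y * ρ X) → (∀ X, IsSp w (ρ X)) →
    (∀ x y, ∃ X, ρ X = EE w x y) →
    (∀ X Y, T (br X Y) = T X * T Y - T Y * T X) →
    (∀ i j : Fin 3, i ≠ j → ∃ X, T X = Matrix.single i j 1) →
    ∀ δ : M, T δ = dg → ρ δ * ρ δ = 1 →
    (∃ X, ρ X = 0 ∧ tl (T X) ≠ 0) ∧ ∃ X, tl (T X) = 0 ∧ ρ X ≠ 0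

/-- A Lie algebra acting on symplectic spaces, on spaces of dimension three and by characters. -/
structure Sys3 (M : Type) [AddCommGroup M] [Module ℂ M] (br : M → M → M) {𝒮 : Type} (𝒦 𝒞 : Type)
    (N : 𝒮 → Type) [∀ a, AddCommGroup (N a)] [∀ a, Module ℂ (N a)] where
  s : Sys M br N
  T : 𝒦 → M →ₗ[ℂ] Matrix (Fin 3) (Fin 3) ℂ
  Tbr : ∀ k X Y, T k (br X Y) = T k X * T k Y - T k Y * T k X
  Tfull : ∀ k, ∀ i j : Fin 3, i ≠ j → ∃ X, T k X = Matrix.single i j 1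
  χ : 𝒞 → M →ₗ[ℂ] ℂ
  χbr : ∀ c X Y, χ c (br X Y) = 0
  δ : M
  δT : ∀ k, T k δ = dg
  δρ : ∀ a, s.ρ a δ * s.ρ a δ = 1

/-- Two pieces of dimension three are isomorphic up to scalars. -/
def LnkK {M : Type} [AddCommGroup M] [Module ℂ M] {br : M → M → M} {𝒮 𝒦 𝒞 : Type}
    {N : 𝒮 → Type} [∀ a, AddCommGroup (N a)] [∀ a, Module ℂ (N a)]
    (S : Sys3 M br 𝒦 𝒞 N) (k k' : 𝒦) : Prop :=
  ∃ τ : Matrix (Fin 3) (Fin 3) ℂ, IsUnit τ.det ∧ ∀ X, tl (S.T k X) * τ = τ * tl (S.T k' X)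

/-- JOB GRS (application of Goursat-Ribet to a mixed system). -/
def S_grs : Prop :=
  ∀ (M : Type) [AddCommGroup M] [Module ℂ M] (br : M → M → M) (𝒮 𝒦 𝒞 : Type) [Finite 𝒮]
    [Finite 𝒦] (N : 𝒮 → Type) [∀ a, AddCommGroup (N a)] [∀ a, Module ℂ (N a)]
    [∀ a, FiniteDimensional ℂ (N a)] [∀ a, Nontrivial (N a)] (S : Sys3 M br 𝒦 𝒞 N),
    (∀ a x y, ∃ X, S.s.ρ a X = EE (S.s.w a) x y ∧ (∀ b, ¬ Lnk S.s a b → S.s.ρ b X = 0) ∧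
      (∀ b (f : N a ≃ₗ[ℂ] N b), (∀ X u, f (S.s.ρ a X u) = S.s.ρ b X (f u)) →
        (∀ x y, S.s.w b (f x) (f y) = S.s.w a x y) → S.s.ρ b X = EE (S.s.w b) (f x) (f y)) ∧
      (∀ k, S.T k X = 0) ∧ ∀ c, S.χ c X = 0) ∧
    ∀ k, ∀ A : Matrix (Fin 3) (Fin 3) ℂ, A.trace = 0 → ∃ X,
      (∀ k' (τ : Matrix (Fin 3) (Fin 3) ℂ), IsUnit τ.det →
        (∀ Y, tl (S.T k Y) * τ = τ * tl (S.T k' Y)) → τ * S.T k' X = A * τ) ∧
      (∀ k', ¬ LnkK S k k' → S.T k' X = 0) ∧ (∀ a, S.s.ρ a X = 0) ∧ ∀ c, S.χ c X = 0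

/-- JOB WGT. A form with coefficients of weight `w` for the Hodge operator has weight `w`. -/
def S_wgt : Prop :=
  ∀ (g : ℕ) (Z : Matrix (Fin g) (Fin g) ℂ), (imM Z).PosDef → ∀ (κ : Type) [Fintype κ]
    [DecidableEq κ] (F : MultilinearMap ℚ (fun _ : κ => Fin g ⊕ Fin g → ℚ) ℂ) (w : ℤ),
    act (DZ Z) (fun I : κ → Fin g ⊕ Fin g => F fun k => Pi.single (I k) 1) =
      (w : ℂ) • (fun I : κ → Fin g ⊕ Fin g => F fun k => Pi.single (I k) 1) →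
    HasWeight (perOne Z) F w

/-- JOB WGT. The coefficients of a Hodge class. -/
def S_ish : Prop :=
  ∀ (g : ℕ) (Z : Matrix (Fin g) (Fin g) ℂ), (imM Z).PosDef → ∀ (κ : Type) [Fintype κ]
    [DecidableEq κ] (f : (Fin g ⊕ Fin g → ℚ) [⋀^κ]→ₗ[ℚ] ℚ), IsHodge (perOne Z) f →
    IsH (DZ Z) fun I : κ → Fin g ⊕ Fin g => f fun k => Pi.single (I k) 1

open Pool.Agent.Q59.GC in
/-- JOB EXP (expansion of a Hodge tensor). `I` is the set of isomorphism classes of pieces with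
their duality `Λ.star`, `𝒜` the set of pieces, `cl a` the class of `a`, `ev a` a basis of the piece
and `co a` the coordinates, indexed by the letters of the class `cl a`. -/
def S_exp : Prop :=
  ∀ (B : Type) [Fintype B] [DecidableEq B] (D : Matrix B B ℂ) (n : ℕ) (I : Type) [Fintype I]
    [DecidableEq I] (Λ : Labels n I) (𝒜 : Type) [Fintype 𝒜] [DecidableEq 𝒜] (cl : 𝒜 → I)
    (co : 𝒜 → Matrix (Letter Λ) B ℂ) (ev : 𝒜 → Letter Λ → B → ℂ) (ε : Letter Λ → ℂ)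
    (wt : I → (ℂ ≃+* ℂ) → ℂ),
    (∀ i, Λ.orth i = false) → (∀ x : Letter Λ, ε (dual x) = -ε x) → (∀ x, ε x ≠ 0) →
    (∀ i : B, (Pi.single i 1 : B → ℂ) = ∑ a, ∑ r, co a r i • ev a r) →
    (∀ a (r : Letter Λ), r.1 ≠ cl a → ev a r = 0) →
    (∀ a (r : Letter Λ) (i : B), r.1 ≠ cl a → co a r i = 0) →
    (∀ b c : Letter Λ, (dual b).1 = c.1 → (c ≠ dual b ∨ Λ.star b.1 = b.1) →
      ∃ X ∈ lieM D ℂ, ∀ a r, X *ᵥ ev a r = JJ dual ε c r • ev a b + JJ dual ε b r • ev a c) →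
    (∀ σ : ℂ ≃+* ℂ, ∃ X ∈ lieM D ℂ, ∀ a r, X *ᵥ ev a r = wt r.1 σ • ev a r) →
    (∀ i σ, wt (Λ.star i) σ = -wt i σ) →
    ∀ (κ : Type) [Fintype κ] [DecidableEq κ] (c : (κ → B) → ℚ), IsH D c →
    cst ℂ c ∈ Submodule.span ℂ {F : (κ → B) → ℂ | ∃ (l p : ℕ) (q : Fin l → I) (ν : Fin p → I)
      (e : (Σ j : Fin l, Fin (Λ.dim (q j))) ⊕ (Fin p × Fin 2) ≃ κ) (α : κ → 𝒜),
      (∀ j, Λ.star (q j) ≠ q j) ∧ (∀ σ, ∑ j, (Λ.dim (q j) : ℂ) * wt (q j) σ = 0) ∧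
      F = fun w => (∏ j, (Matrix.of fun a b : Fin (Λ.dim (q j)) =>
          co (α (e (Sum.inl ⟨j, a⟩))) ⟨q j, b⟩ (w (e (Sum.inl ⟨j, a⟩)))).det) *
        ∏ s, ∑ x : Fin (Λ.dim (ν s)), ε ⟨ν s, x⟩ *
          (co (α (e (Sum.inr (s, 0)))) ⟨ν s, x⟩ (w (e (Sum.inr (s, 0)))) *
            co (α (e (Sum.inr (s, 1)))) (dual ⟨ν s, x⟩) (w (e (Sum.inr (s, 1)))))}

end Pool.Agent.Q60.D3
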