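import Mathlib
import Pool.Agent.Q60.D3.Stm2

/-!
# Project D3: statements of the lemma jobs, third part
-/

namespace Pool.Agent.Q60.D3

open Matrix Pool.Agent.H204R3.CM Pool.Agent.H204R3.SP Pool.Agent.W437.HC Pool.Agent.W437.HD
  Pool.Agent.W437.HP Pool.Agent.W437.HR

/-- JOB DARB. A symplectic space has a symplectic basis numbered so that the dual basis is the basis
in the reverse order. -/
def S_darb : Prop :=
  ∀ (N : Type) [AddCommGroup N] [Module ℂ N] [FiniteDimensional ℂ N] (w : N →ₗ[ℂ] N →ₗ[ℂ] ℂ),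
    (∀ x, w x x = 0) → (∀ x, (∀ y, w x y = 0) → x = 0) →
    ∃ (m : ℕ) (e : Module.Basis (Fin (2 * m)) ℂ N), ∀ x y,
      w (e x) (e y) = if y = Fin.rev x then (if (x : ℕ) < m then 1 else -1) else 0

/-- JOB SPS. The operators in the symplectic Lie algebra are combinations of the operators `EE`. -/
def S_sps : Prop :=
  ∀ (N : Type) [AddCommGroup N] [Module ℂ N] [FiniteDimensional ℂ N] (w : N →ₗ[ℂ] N →ₗ[ℂ] ℂ),
    (∀ x, w x x = 0) → (∀ x, (∀ y, w x y = 0) → x = 0) →
    ∀ A : Module.End ℂ N, IsSp w A → A ∈ Submodule.span ℂ {C | ∃ x y, C = EE w x y}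

/-- JOB CLOSE (last step of the project). If all Hodge classes on the products of principally
polarized simple abelian varieties of dimension at most three, those of CM type being elliptic
curves, are generated, then this holds for all abelian varieties isogenous to a product of simple
abelian varieties of dimension at most three such that those of CM type are elliptic curves. -/
def S_close : Prop :=
  (∀ (ι : Type) [Fintype ι] [DecidableEq ι] (g : ι → ℕ)
    (Z : ∀ i, Matrix (Fin (g i)) (Fin (g i)) ℂ), (∀ i, (Z i)ᵀ = Z i) → (∀ i, (imM (Z i)).PosDef) →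
    (∀ i, IsSimpleAV (Z i)) → (∀ i, g i ≤ 3) → (∀ i, Comm (Z i) → g i ≤ 1) →
    ∀ (Y : AV) (a : Y.H ≃ₗ[ℚ] (Fin (NB g) ⊕ Fin (NB g) → ℚ)) (c : Y.T ≃ₗ[ℂ] (Fin (NB g) → ℂ)),
    (∀ w, c (Y.per w) = perOne (bigD ℂ Z) (a w)) →
    ∀ (κ : Type) [Fintype κ] (f : Y.H [⋀^κ]→ₗ[ℚ] ℚ), IsHodge Y.per f → Gen Y κ f) →
  ∀ (ι : Type) [Finite ι] (X : AV) (A : ι → AV), IsIsogenousToProd X A → (∀ i, IsSimple (A i)) →
    (∀ i, Module.finrank ℂ (A i).T ≤ 3) → (∀ i, IsCM (A i) → Module.finrank ℂ (A i).T ≤ 1) →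
    ∀ (κ : Type) [Finite κ] (f : X.H [⋀^κ]→ₗ[ℚ] ℚ), IsHodge X.per f → Gen X κ f

end Pool.Agent.Q60.D3
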