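import Mathlib
import Pool.Agent.Q60.D3.Stm2
import Pool.Agent.Q60.D3.HomZ

/-!
# The action of the Lie algebra on the two eigenspaces of an imaginary quadratic endomorphism
-/

set_option linter.unusedSectionVars false
set_option linter.unusedVariables false

namespace Pool.Agent.Q60.D3

open Matrix Pool.Agent.H204R3.CM Pool.Agent.H204R3.SP Pool.Agent.W437.HC Pool.Agent.W437.HD
  Pool.Agent.W437.HP Pool.Agent.W437.HR Pool.Agent.W437.HQ

variable {g : ℕ} {Z : Matrix (Fin g) (Fin g) ℂ}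

/-- The bilinear form. -/
noncomputable def om (x y : Fin g ⊕ Fin g → ℂ) : ℂ := x ⬝ᵥ (Om g ℂ *ᵥ y)

theorem om_add_left (x x' y : Fin g ⊕ Fin g → ℂ) : om (x + x') y = om x y + om x' y := by
  unfold om
  rw [add_dotProduct]

theorem om_add_right (x y y' : Fin g ⊕ Fin g → ℂ) : om x (y + y') = om x y + om x y' := by
  unfold om
  rw [mulVec_add, dotProduct_add]

theorem om_smul_left (c : ℂ) (x y : Fin g ⊕ Fin g → ℂ) : om (c • x) y = c * om x y := by
  unfold om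
  rw [smul_dotProduct, smul_eq_mul]

theorem om_smul_right (c : ℂ) (x y : Fin g ⊕ Fin g → ℂ) : om x (c • y) = c * om x y := by
  unfold om
  rw [mulVec_smul, dotProduct_smul, smul_eq_mul]

theorem om_neg_left (x y : Fin g ⊕ Fin g → ℂ) : om (-x) y = -om x y := by
  unfold om
  rw [neg_dotProduct]

theorem om_neg_right (x y : Fin g ⊕ Fin g → ℂ) : om x (-y) = -om x y := by
  unfold om
  rw [mulVec_neg, dotProduct_neg]

theorem om_sum_left {T : Type*} (s : Finset T) (x : T → Fin g ⊕ Fin g → ℂ) (y) :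
    om (∑ t ∈ s, x t) y = ∑ t ∈ s, om (x t) y := by
  unfold om
  rw [sum_dotProduct]

theorem om_sum_right {T : Type*} (s : Finset T) (x) (y : T → Fin g ⊕ Fin g → ℂ) :
    om x (∑ t ∈ s, y t) = ∑ t ∈ s, om x (y t) := by
  unfold om
  rw [mulVec_sum, dotProduct_sum]

theorem om_swap (x y : Fin g ⊕ Fin g → ℂ) : om x y = -om y x := by
  unfold om
  rw [dotProduct_mulVec, dotProduct_comm, ← mulVec_transpose, Om_transpose, neg_mulVec,
    dotProduct_neg]

/-- The adjoint. -/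
theorem om_sp {X : Matrix (Fin g ⊕ Fin g) (Fin g ⊕ Fin g) ℂ} (h : Xᵀ * Om g ℂ + Om g ℂ * X = 0)
    (x y : Fin g ⊕ Fin g → ℂ) : om (X *ᵥ x) y = -om x (X *ᵥ y) := by
  have h1 : Om g ℂ * X = -(Xᵀ * Om g ℂ) := eq_neg_of_add_eq_zero_right h
  unfold om
  rw [mulVec_mulVec, h1, neg_mulVec, dotProduct_neg, neg_neg, ← mulVec_mulVec, dotProduct_mulVec x,
    vecMul_transpose]

theorem sp_map {X : Matrix (Fin g ⊕ Fin g) (Fin g ⊕ Fin g) ℂ} (h : Xᵀ * Om g ℂ + Om g ℂ * X = 0)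
    (σ : ℂ ≃+* ℂ) : (X.map σ)ᵀ * Om g ℂ + Om g ℂ * X.map σ = 0 := by
  have h1 := congrArg (fun A => A.map σ) h
  have h2 : (Om g ℂ).map σ = Om g ℂ := Om_aut (σ : ℂ →+* ℂ)
  have h3 : ∀ A B : Matrix (Fin g ⊕ Fin g) (Fin g ⊕ Fin g) ℂ, (A + B).map σ = A.map σ + B.map σ := by
    intro A B
    ext i j
    simp
  simp only [h3, Matrix.map_mul, h2] at h1
  rw [← transpose_map, h1]
  ext i j
  simp

namespace KZ

variable (K : KZ Z)

include K

theorem mu_ne : K.μ ≠ 0 := by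
  intro h
  have h1 := K.hμ
  rw [h, mul_zero] at h1
  have h2 : (K.d : ℂ) = 0 := by
    rw [← neg_eq_zero, ← h1]
  have h3 : K.d = 0 := by exact_mod_cast h2
  exact K.hd.ne_zero h3

theorem skewC : (cK ℂ K.φ)ᵀ * Om g ℂ + Om g ℂ * cK ℂ K.φ = 0 := by
  have h1 := congrArg (cK ℂ) K.skew
  have h2 : ∀ A : Matrix (Fin g ⊕ Fin g) (Fin g ⊕ Fin g) ℚ, cK ℂ (-A) = -cK ℂ A := by
    intro A
    ext i j
    simp [cK]
  have h3 : cK ℂ (Om g ℚ) = Om g ℂ := Om_map ℂ
  rw [h2, cK_mul, cK_mul, h3, cK_transpose] at h1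
  rw [h1, neg_add_cancel]

/-- Eigenvectors for the same eigenvalue are orthogonal. -/
theorem iso {x y : Fin g ⊕ Fin g → ℂ} {c : ℂ} (hc : c ≠ 0) (hx : cK ℂ K.φ *ᵥ x = c • x)
    (hy : cK ℂ K.φ *ᵥ y = c • y) : om x y = 0 := by
  have h1 := om_sp K.skewC x y
  rw [hx, hy, om_smul_left, om_smul_right] at h1
  have h2 : (2 * c) * om x y = 0 := by linear_combination h1
  exact (mul_eq_zero.1 h2).resolve_left (mul_ne_zero two_ne_zero hc)

theorem uu (k l : Fin g) : om (K.u k) (K.u l) = 0 := K.iso K.mu_ne (K.hu k) (K.hu l)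

theorem vv (k l : Fin g) : om (K.v k) (K.v l) = 0 :=
  K.iso (neg_ne_zero.2 K.mu_ne) (K.hv k) (K.hv l)

theorem uv (k l : Fin g) : om (K.u k) (K.v l) = if k = l then 1 else 0 := K.dual k l

theorem vu (k l : Fin g) : om (K.v k) (K.u l) = -if l = k then 1 else 0 := by
  rw [om_swap, K.uv]

/-- The resolution of the identity. -/
theorem resolve (y : Fin g ⊕ Fin g → ℂ) :
    y = ∑ k, om y (K.v k) • K.u k + ∑ k, om (K.u k) y • K.v k := by
  let W : Matrix (Fin g ⊕ Fin g) (Fin g ⊕ Fin g) ℂ :=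
    Matrix.of fun i s => Sum.elim (fun k => K.u k i) (fun k => K.v k i) s
  let W' : Matrix (Fin g ⊕ Fin g) (Fin g ⊕ Fin g) ℂ :=
    Matrix.of fun s i => Sum.elim (fun k => om (Pi.single i 1) (K.v k))
      (fun k => om (K.u k) (Pi.single i 1)) s
  have key1 : ∀ (x : Fin g ⊕ Fin g → ℂ) k, (W' *ᵥ x) (Sum.inl k) = om x (K.v k) := by
    intro x k
    have h1 : x = ∑ i, x i • (Pi.single i 1 : Fin g ⊕ Fin g → ℂ) := by
      funext j
      rw [Finset.sum_apply, Finset.sum_eq_single j]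
      · simp
      · intro b _ hb
        rw [Pi.smul_apply, Pi.single_eq_of_ne (Ne.symm hb), smul_zero]
      · intro h
        exact absurd (Finset.mem_univ _) h
    conv_rhs => rw [h1]
    rw [om_sum_left]
    change ∑ i, W' (Sum.inl k) i * x i = _
    refine Finset.sum_congr rfl fun i _ => ?_
    rw [om_smul_left, mul_comm]
    rfl
  have key2 : ∀ (x : Fin g ⊕ Fin g → ℂ) k, (W' *ᵥ x) (Sum.inr k) = om (K.u k) x := by
    intro x k
    have h1 : x = ∑ i, x i • (Pi.single i 1 : Fin g ⊕ Fin g → ℂ) := by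
      funext j
      rw [Finset.sum_apply, Finset.sum_eq_single j]
      · simp
      · intro b _ hb
        rw [Pi.smul_apply, Pi.single_eq_of_ne (Ne.symm hb), smul_zero]
      · intro h
        exact absurd (Finset.mem_univ _) h
    conv_rhs => rw [h1]
    rw [om_sum_right]
    change ∑ i, W' (Sum.inr k) i * x i = _
    refine Finset.sum_congr rfl fun i _ => ?_
    rw [om_smul_right, mul_comm]
    rfl
  have hWW : W' * W = 1 := by
    ext s t
    have e1 : (W' * W) s t = (W' *ᵥ (fun i => W i t)) s := rfl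
    rw [e1]
    have e2 : (fun i => W i t) = Sum.elim (fun k => K.u k) (fun k => K.v k) t := by
      rcases t with t | t <;> rfl
    rw [e2, Matrix.one_apply]
    rcases s with s | s <;> rcases t with t | t
    · rw [key1, Sum.elim_inl, K.uv]
      by_cases h : t = s
      · rw [if_pos h, if_pos (by rw [h])]
      · rw [if_neg h, if_neg]
        intro h'
        exact h (Sum.inl_injective h').symm
    · rw [key1, Sum.elim_inr, K.vv, if_neg (by simp)]
    · rw [key2, Sum.elim_inl, K.uu, if_neg (by simp)]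
    · rw [key2, Sum.elim_inr, K.uv]
      by_cases h : s = t
      · rw [if_pos h, if_pos (by rw [h])]
      · rw [if_neg h, if_neg]
        intro h'
        exact h (Sum.inr_injective h')
  have hWW' : W * W' = 1 := mul_eq_one_comm.1 hWW
  have h1 : y = W *ᵥ (W' *ᵥ y) := by rw [mulVec_mulVec, hWW', one_mulVec]
  conv_lhs => rw [h1]
  funext i
  rw [Pi.add_apply, Finset.sum_apply, Finset.sum_apply]
  change ∑ s, W i s * (W' *ᵥ y) s = _
  rw [Fintype.sum_sum_type]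
  congr 1
  · refine Finset.sum_congr rfl fun k _ => ?_
    rw [key1, Pi.smul_apply, smul_eq_mul, mul_comm]
    rfl
  · refine Finset.sum_congr rfl fun k _ => ?_
    rw [key2, Pi.smul_apply, smul_eq_mul, mul_comm]
    rfl

/-- The matrix of an operator on the first eigenspace. -/
noncomputable def T : Matrix (Fin g ⊕ Fin g) (Fin g ⊕ Fin g) ℂ →ₗ[ℂ] Matrix (Fin g) (Fin g) ℂ where
  toFun X := Matrix.of fun l j => om (X *ᵥ K.u j) (K.v l)
  map_add' X Y := by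
    ext l j
    simp only [Matrix.of_apply, Matrix.add_apply, add_mulVec, om_add_left]
  map_smul' c X := by
    ext l j
    simp only [Matrix.of_apply, Matrix.smul_apply, smul_mulVec, om_smul_left, smul_eq_mul,
      RingHom.id_apply]

theorem T_apply (X : Matrix (Fin g ⊕ Fin g) (Fin g ⊕ Fin g) ℂ) (l j : Fin g) :
    K.T X l j = om (X *ᵥ K.u j) (K.v l) := rfl

theorem comm_phi (hZ : Zᵀ = Z) {X : Matrix (Fin g ⊕ Fin g) (Fin g ⊕ Fin g) ℂ}
    (hX : X ∈ lieM (DZ Z) ℂ) : cK ℂ K.φ * X = X * cK ℂ K.φ :=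
  comm_lie hZ (ψ := K.φ) K.com hX

theorem act_u (hZ : Zᵀ = Z) {X : Matrix (Fin g ⊕ Fin g) (Fin g ⊕ Fin g) ℂ}
    (hX : X ∈ lieM (DZ Z) ℂ) (j : Fin g) : X *ᵥ K.u j = ∑ l, K.T X l j • K.u l := by
  have h1 : cK ℂ K.φ *ᵥ (X *ᵥ K.u j) = K.μ • (X *ᵥ K.u j) := by
    rw [mulVec_mulVec, K.comm_phi hZ hX, ← mulVec_mulVec, K.hu, mulVec_smul]
  have h2 : ∀ k, om (K.u k) (X *ᵥ K.u j) = 0 := fun k => K.iso K.mu_ne (K.hu k) h1
  rw [K.resolve (X *ᵥ K.u j)]
  simp only [h2, zero_smul, Finset.sum_const_zero, add_zero]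
  rfl

theorem act_v (hZ : Zᵀ = Z) {X : Matrix (Fin g ⊕ Fin g) (Fin g ⊕ Fin g) ℂ}
    (hX : X ∈ lieM (DZ Z) ℂ) (j : Fin g) : X *ᵥ K.v j = -∑ l, K.T X j l • K.v l := by
  have h1 : cK ℂ K.φ *ᵥ (X *ᵥ K.v j) = (-K.μ) • (X *ᵥ K.v j) := by
    rw [mulVec_mulVec, K.comm_phi hZ hX, ← mulVec_mulVec, K.hv, mulVec_smul]
  have h2 : ∀ k, om (X *ᵥ K.v j) (K.v k) = 0 :=
    fun k => K.iso (neg_ne_zero.2 K.mu_ne) h1 (K.hv k)
  rw [K.resolve (X *ᵥ K.v j)]
  simp only [h2, zero_smul, Finset.sum_const_zero, zero_add]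
  rw [← Finset.sum_neg_distrib]
  refine Finset.sum_congr rfl fun l _ => ?_
  rw [T_apply, om_sp (sp_C hZ X hX), neg_smul, neg_neg]

theorem T_br (hZ : Zᵀ = Z) {X Y : Matrix (Fin g ⊕ Fin g) (Fin g ⊕ Fin g) ℂ}
    (hX : X ∈ lieM (DZ Z) ℂ) (hY : Y ∈ lieM (DZ Z) ℂ) :
    K.T (X * Y - Y * X) = K.T X * K.T Y - K.T Y * K.T X := by
  have key : ∀ {X Y : Matrix (Fin g ⊕ Fin g) (Fin g ⊕ Fin g) ℂ}, X ∈ lieM (DZ Z) ℂ →
      Y ∈ lieM (DZ Z) ℂ → K.T (X * Y) = K.T X * K.T Y := by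
    intro X Y hX hY
    ext l j
    rw [T_apply, ← mulVec_mulVec, K.act_u hZ hY, mulVec_sum, om_sum_left, Matrix.mul_apply]
    refine Finset.sum_congr rfl fun k _ => ?_
    rw [mulVec_smul, om_smul_left, T_apply _ X, mul_comm]
  rw [map_sub, key hX hY, key hY hX]

theorem T_D (l j : Fin g) : K.T (DZ Z) l j =
    if j = l then (if (j : ℕ) = 2 then -1 else 1) else 0 := by
  rw [T_apply, K.hDu, om_smul_left, K.uv]
  by_cases h : j = l
  · rw [if_pos h, if_pos h, mul_one]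
  · rw [if_neg h, if_neg h, mul_zero]

/-- The functional `x ↦ om x (v l)` on the image. -/
theorem om_v_act (hZ : Zᵀ = Z) {X : Matrix (Fin g ⊕ Fin g) (Fin g ⊕ Fin g) ℂ}
    (hX : X ∈ lieM (DZ Z) ℂ) (y : Fin g ⊕ Fin g → ℂ) (l : Fin g) :
    om (X *ᵥ y) (K.v l) = ∑ j, K.T X l j * om y (K.v j) := by
  rw [om_sp (sp_C hZ X hX), K.act_v hZ hX, om_neg_right, neg_neg, om_sum_right]
  exact Finset.sum_congr rfl fun j _ => om_smul_right _ _ _

theorem om_u_act (hZ : Zᵀ = Z) {X : Matrix (Fin g ⊕ Fin g) (Fin g ⊕ Fin g) ℂ}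
    (hX : X ∈ lieM (DZ Z) ℂ) (y : Fin g ⊕ Fin g → ℂ) (l : Fin g) :
    om (K.u l) (X *ᵥ y) = -∑ j, K.T X j l * om (K.u j) y := by
  have h1 := om_sp (sp_C hZ X hX) (K.u l) y
  rw [eq_neg_iff_add_eq_zero, add_comm, ← eq_neg_iff_add_eq_zero] at h1
  rw [h1, K.act_u hZ hX, om_sum_left]
  congr 1
  exact Finset.sum_congr rfl fun j _ => om_smul_left _ _ _

end KZ

end Pool.Agent.Q60.D3
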