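import Mathlib
import Pool.Agent.Q60.D3.KZf

/-!
# The two eigenspaces of an imaginary quadratic endomorphism, with signs
-/

set_option linter.unusedSectionVars false
set_option linter.unusedVariables false

namespace Pool.Agent.Q60.D3

open Matrix Pool.Agent.H204R3.CM Pool.Agent.H204R3.SP Pool.Agent.W437.HC Pool.Agent.W437.HD
  Pool.Agent.W437.HP Pool.Agent.W437.HR Pool.Agent.W437.HQ

variable {g : ℕ} {Z : Matrix (Fin g) (Fin g) ℂ}

namespace KZ

variable (K : KZ Z)

/-- The basis of the eigenspace of `μ` (for `true`) and of `-μ` (for `false`, reversed). -/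
noncomputable def zb (β : Bool) (c : Fin g) : Fin g ⊕ Fin g → ℂ :=
  match β with
  | true => K.u c
  | false => K.v (Fin.rev c)

/-- The coordinates. -/
noncomputable def zc (β : Bool) (c : Fin g) : (Fin g ⊕ Fin g → ℂ) →ₗ[ℂ] ℂ :=
  match β with
  | true =>
    { toFun := fun y => om y (K.v c)
      map_add' := fun x y => om_add_left _ _ _
      map_smul' := fun a y => om_smul_left _ _ _ }
  | false =>
    { toFun := fun y => om (K.u (Fin.rev c)) y
      map_add' := fun x y => om_add_right _ _ _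
      map_smul' := fun a y => om_smul_right _ _ _ }

/-- The matrices of the Lie algebra. -/
noncomputable def Ts (β : Bool) :
    Matrix (Fin g ⊕ Fin g) (Fin g ⊕ Fin g) ℂ →ₗ[ℂ] Matrix (Fin g) (Fin g) ℂ :=
  match β with
  | true => K.T
  | false =>
    { toFun := fun X => Matrix.of fun c e => -(K.T X (Fin.rev e) (Fin.rev c))
      map_add' := fun X Y => by
        ext c e
        simp only [map_add, Matrix.of_apply, Matrix.add_apply]
        ring
      map_smul' := fun a X => by
        ext c e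
        simp only [map_smul, Matrix.of_apply, Matrix.smul_apply, smul_eq_mul, RingHom.id_apply]
        ring }

theorem zb_true (c : Fin g) : K.zb true c = K.u c := rfl
theorem zb_false (c : Fin g) : K.zb false c = K.v (Fin.rev c) := rfl
theorem zc_true (c : Fin g) (y) : K.zc true c y = om y (K.v c) := rfl
theorem zc_false (c : Fin g) (y) : K.zc false c y = om (K.u (Fin.rev c)) y := rfl
theorem Ts_true (X) : K.Ts true X = K.T X := rfl
theorem Ts_false (X) (c e : Fin g) : K.Ts false X c e = -(K.T X (Fin.rev e) (Fin.rev c)) := rfl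

theorem Ts_not (β : Bool) (X) (c e : Fin g) :
    K.Ts (!β) X c e = -(K.Ts β X (Fin.rev e) (Fin.rev c)) := by
  cases β
  · rw [Bool.not_false, Ts_true, Ts_false, Fin.rev_rev, Fin.rev_rev, neg_neg]
  · rw [Bool.not_true, Ts_false, Ts_true]

theorem sum_rev {M : Type*} [AddCommMonoid M] (f : Fin g → M) : ∑ c, f (Fin.rev c) = ∑ c, f c :=
  Equiv.sum_comp Fin.revPerm f

theorem zb_act (hZ : Zᵀ = Z) {X : Matrix (Fin g ⊕ Fin g) (Fin g ⊕ Fin g) ℂ}
    (hX : X ∈ lieM (DZ Z) ℂ) (β : Bool) (c : Fin g) :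
    X *ᵥ K.zb β c = ∑ e, K.Ts β X e c • K.zb β e := by
  cases β
  · rw [zb_false, K.act_v hZ hX, ← sum_rev, ← Finset.sum_neg_distrib]
    refine Finset.sum_congr rfl fun e _ => ?_
    rw [Ts_false, zb_false, neg_smul]
  · rw [zb_true, K.act_u hZ hX]
    rfl

theorem zc_act (hZ : Zᵀ = Z) {X : Matrix (Fin g ⊕ Fin g) (Fin g ⊕ Fin g) ℂ}
    (hX : X ∈ lieM (DZ Z) ℂ) (β : Bool) (c : Fin g) (y : Fin g ⊕ Fin g → ℂ) :
    K.zc β c (X *ᵥ y) = ∑ e, K.Ts β X c e * K.zc β e y := by
  cases β
  · rw [zc_false, K.om_u_act hZ hX, ← sum_rev, ← Finset.sum_neg_distrib]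
    refine Finset.sum_congr rfl fun e _ => ?_
    rw [Ts_false, zc_false, neg_mul]
  · rw [zc_true, K.om_v_act hZ hX]
    rfl

theorem zc_zb (β β' : Bool) (c e : Fin g) :
    K.zc β c (K.zb β' e) = if β = β' ∧ c = e then 1 else 0 := by
  cases β <;> cases β'
  · rw [zc_false, zb_false, K.uv]
    simp
  · rw [zc_false, zb_true, K.uu]
    simp
  · rw [zc_true, zb_false, K.vv]
    simp
  · rw [zc_true, zb_true, K.uv]
    simp [eq_comm]

theorem resolve_z (y : Fin g ⊕ Fin g → ℂ) :
    y = ∑ β : Bool, ∑ c, K.zc β c y • K.zb β c := by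
  rw [Fintype.sum_bool]
  conv_lhs => rw [K.resolve y]
  congr 1
  rw [← sum_rev]
  rfl

/-- The eigenvalue of the endomorphism. -/
noncomputable def mus (β : Bool) : ℂ :=
  match β with
  | true => K.μ
  | false => -K.μ

/-- The sign. -/
def sg (β : Bool) : ℤ :=
  match β with
  | true => 1
  | false => -1

theorem mus_sq (β : Bool) : K.mus β * K.mus β = -(K.d : ℂ) := by
  cases β
  · change -K.μ * -K.μ = _
    rw [neg_mul_neg, K.hμ]
  · exact K.hμ

theorem zc_phi (β : Bool) (c : Fin g) (y : Fin g ⊕ Fin g → ℂ) :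
    K.zc β c (cK ℂ K.φ *ᵥ y) = K.mus β * K.zc β c y := by
  have h1 : ∀ x z : Fin g ⊕ Fin g → ℂ, om (cK ℂ K.φ *ᵥ x) z = -om x (cK ℂ K.φ *ᵥ z) :=
    om_sp K.skewC
  cases β
  · rw [zc_false, zc_false]
    have h2 := h1 (K.u (Fin.rev c)) y
    rw [K.hu, om_smul_left] at h2
    change _ = -K.μ * _
    linear_combination h2
  · rw [zc_true, zc_true, h1, K.hv, om_smul_right]
    change _ = K.μ * _
    ring

theorem zc_D (hZ : Zᵀ = Z) (β : Bool) (c : Fin g) (y : Fin g ⊕ Fin g → ℂ) :
    K.zc β c (DZ Z *ᵥ y) = (sg β : ℂ) * ((if ((match β with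
      | true => c
      | false => Fin.rev c : Fin g) : ℕ) = 2 then (-1 : ℂ) else 1) * K.zc β c y) := by
  cases β
  · rw [K.zc_act hZ (D_mem _), Finset.sum_eq_single c]
    · rw [Ts_false, K.T_D, if_pos rfl]
      change _ = ((-1 : ℤ) : ℂ) * _
      push_cast
      ring
    · intro e _ he
      rw [Ts_false, K.T_D, if_neg, neg_zero, zero_mul]
      intro h
      exact he (Fin.rev_injective h).symm
    · intro h
      exact absurd (Finset.mem_univ _) h
  · rw [K.zc_act hZ (D_mem _), Finset.sum_eq_single c]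
    · rw [Ts_true, K.T_D, if_pos rfl]
      change _ = ((1 : ℤ) : ℂ) * _
      push_cast
      ring
    · intro e _ he
      rw [Ts_true, K.T_D, if_neg he, zero_mul]
    · intro h
      exact absurd (Finset.mem_univ _) h

end KZ

/-- JOB KON. The determinant forms of a threefold or of an elliptic curve. -/
def S_kon : Prop :=
  ∀ (g : ℕ) (Z : Matrix (Fin g) (Fin g) ℂ) (hZ : Zᵀ = Z) (hpos : (imM Z).PosDef) (K : KZ Z)
    (β : Bool), ∃ L : KOn (ofZ Z hZ hpos) g, L.d = K.d ∧ L.μ = K.mus β ∧ L.s = KZ.sg β ∧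
      ∀ x : Fin g → Fin g ⊕ Fin g → ℚ, L.δ x =
        (Matrix.of fun a b : Fin g => K.zc β b fun i => ((x a i : ℚ) : ℂ)).det

end Pool.Agent.Q60.D3
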