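import Mathlib
import Pool.Agent.Q60.D3.Stm2

/-!
# Riemann normal form: each abelian variety is isogenous to a principally polarized one
-/

set_option linter.unusedSectionVars false
set_option linter.unusedVariables false

namespace Pool.Agent.Q60.D3.NF

open Matrix Module Pool.Agent.H204R3.CM Pool.Agent.H204R3.SP Pool.Agent.W437.HC
  Pool.Agent.W437.HD Pool.Agent.Q60.D3

/-- Symplectic bases. -/
theorem darbQ {k : Type} [Field k] [CharZero k] (V : Type) [AddCommGroup V] [Module k V]
    [FiniteDimensional k V] (ω : V →ₗ[k] V →ₗ[k] k) (halt : ∀ v, ω v v = 0)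
    (hnd : ∀ u, (∀ v, ω v u = 0) → u = 0) :
    ∃ (g : ℕ) (e : Basis (Fin g ⊕ Fin g) k V),
      (∀ i j, ω (e (Sum.inl i)) (e (Sum.inl j)) = 0) ∧
      (∀ i j, ω (e (Sum.inr i)) (e (Sum.inr j)) = 0) ∧
      ∀ i j, ω (e (Sum.inl i)) (e (Sum.inr j)) = if i = j then -1 else 0 := by
  classical
  obtain ⟨R, _, _, e, inv, jj, hinv, hne, hjj, hj1, hω⟩ :=
    exists_darboux (finrank k V) V ω halt hnd le_rfl
  have hpm : (1 : k) ≠ -1 := by
    intro h
    have h2 : (2 : k) = 0 := by linear_combination h
    exact two_ne_zero h2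
  let P := {x : R // jj x = 1}
  let φ : Fin (Fintype.card P) ≃ P := (Fintype.equivFin P).symm
  let F : Fin (Fintype.card P) ⊕ Fin (Fintype.card P) → R :=
    Sum.elim (fun i => inv (φ i).1) (fun i => (φ i).1)
  have hx : ∀ i, jj (φ i).1 = 1 := fun i => (φ i).2
  have hxi : ∀ i, jj (inv (φ i).1) = -1 := fun i => by rw [hjj, hx]
  have hF : Function.Bijective F := by
    constructor
    · rintro (i | i) (j | j) h
      · have h1 : inv (φ i).1 = inv (φ j).1 := h
        have h2 : (φ i).1 = (φ j).1 := by rw [← hinv (φ i).1, h1, hinv]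
        rw [φ.injective (Subtype.ext h2)]
      · exfalso
        have h1 : inv (φ i).1 = (φ j).1 := h
        have h2 := hxi i
        rw [h1, hx] at h2
        exact hpm h2
      · exfalso
        have h1 : (φ i).1 = inv (φ j).1 := h
        have h2 := hxi j
        rw [← h1, hx] at h2
        exact hpm h2
      · have h1 : (φ i).1 = (φ j).1 := h
        rw [φ.injective (Subtype.ext h1)]
    · intro x
      rcases hj1 x with h | h
      · refine ⟨Sum.inr (φ.symm ⟨x, h⟩), ?_⟩
        change (φ (φ.symm ⟨x, h⟩)).1 = x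
        rw [Equiv.apply_symm_apply]
      · have h1 : jj (inv x) = 1 := by rw [hjj, h, neg_neg]
        refine ⟨Sum.inl (φ.symm ⟨inv x, h1⟩), ?_⟩
        change inv (φ (φ.symm ⟨inv x, h1⟩)).1 = x
        rw [Equiv.apply_symm_apply]
        exact hinv x
  have he : ∀ s, (e.reindex (Equiv.ofBijective F hF).symm) s = e (F s) := by
    intro s
    rw [Basis.reindex_apply]
    rfl
  refine ⟨Fintype.card P, e.reindex (Equiv.ofBijective F hF).symm, fun i j => ?_, fun i j => ?_,
    fun i j => ?_⟩
  · rw [he, he, hω]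
    unfold JJ
    rw [if_neg]
    intro h
    change inv (φ j).1 = inv (inv (φ i).1) at h
    rw [hinv] at h
    have h2 := hxi j
    rw [h, hx] at h2
    exact hpm h2
  · rw [he, he, hω]
    unfold JJ
    rw [if_neg]
    intro h
    change (φ j).1 = inv (φ i).1 at h
    have h2 := hxi i
    rw [← h, hx] at h2
    exact hpm h2
  · rw [he, he, hω]
    unfold JJ
    change (if (φ j).1 = inv (inv (φ i).1) then jj (inv (φ i).1) else 0) = _
    rw [hinv, hxi]
    by_cases h : i = j
    · rw [if_pos h, if_pos (by rw [h])]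
    · rw [if_neg h, if_neg]
      intro h'
      exact h (φ.injective (Subtype.ext h')).symm

section

variable (A : AV)

theorem per_smul (a : ℚ) (w : A.H) : A.per (a • w) = (a : ℂ) • A.per w := by
  have h := map_ratCast_smul A.per ℚ ℂ a w
  rwa [Rat.cast_id] at h

theorem per_sum {R : Type} [Fintype R] (b : Basis R ℚ A.H) (w : A.H) :
    A.per w = ∑ s, ((b.equivFun w s : ℚ) : ℂ) • A.per (b s) := by
  conv_lhs => rw [← b.sum_equivFun w]
  rw [map_sum]
  exact Finset.sum_congr rfl fun s _ => per_smul A _ _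

/-- The images of a rational basis are independent over the real numbers. -/
theorem li {R : Type} [Fintype R] (b : Basis R ℚ A.H) :
    LinearIndependent ℝ fun s => A.per (b s) := by
  have h1 : Fintype.card R = finrank ℝ A.T := by
    rw [finrank_real_of_complex, ← A.dim, finrank_eq_card_basis b]
  refine linearIndependent_of_top_le_span_of_card_eq_finrank ?_ h1
  rw [← A.span, Submodule.span_le]
  rintro _ ⟨w, rfl⟩
  rw [per_sum A b w]
  refine Submodule.sum_mem _ fun s _ => ?_
  have h2 : ((b.equivFun w s : ℚ) : ℂ) • A.per (b s) =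
      ((b.equivFun w s : ℚ) : ℝ) • A.per (b s) := by
    rw [← Complex.coe_smul]
    congr 1
  rw [h2]
  exact Submodule.smul_mem _ _ (Submodule.subset_span ⟨s, rfl⟩)

theorem per_inj (v : A.H) (h : A.per v = 0) : v = 0 := by
  have b := finBasis ℚ A.H
  have h1 := li A b
  rw [Fintype.linearIndependent_iff] at h1
  have h2 := h1 (fun s => ((b.equivFun v s : ℚ) : ℝ)) ?_
  · have h3 : b.equivFun v = 0 := by
      funext s
      have := h2 s
      exact_mod_cast this
    exact (LinearEquiv.map_eq_zero_iff _).1 h3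
  · rw [← h, per_sum A b v]
    refine Finset.sum_congr rfl fun s _ => ?_
    rw [← Complex.coe_smul]
    congr 1

end

/-- Riemann normal form. -/
theorem nf : S_nf := by
  classical
  intro A
  obtain ⟨E, hE1, hE2, hE3, hE4⟩ := A.pol
  have ladd : ∀ u u' w, E (u + u') w = E u w + E u' w := fun u u' w => (hE1 w).map_add u u'
  have lsmul : ∀ (c : ℂ) u w, E (c • u) w = c * E u w := fun c u w => (hE1 w).map_smul c u
  have radd : ∀ w u u', E w (u + u') = E w u + E w u' := fun w u u' => by
    rw [hE2 (u + u') w, ladd, map_add, ← hE2 u w, ← hE2 u' w]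
  have rsmul : ∀ (c : ℂ) w u, E w (c • u) = starRingEnd ℂ c * E w u := fun c w u => by
    rw [hE2 (c • u) w, lsmul, map_mul, ← hE2 u w]
  have lzero : ∀ w, E 0 w = 0 := fun w => (hE1 w).map_zero
  have rzero : ∀ w, E w 0 = 0 := fun w => by rw [hE2 0 w, lzero, map_zero]
  have lsum : ∀ {R : Type} (s : Finset R) (f : R → A.T) (w : A.T),
      E (∑ i ∈ s, f i) w = ∑ i ∈ s, E (f i) w := by
    intro R s f w
    induction s using Finset.induction_on with
    | empty => rw [Finset.sum_empty, Finset.sum_empty, lzero]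
    | insert a s ha ih => rw [Finset.sum_insert ha, Finset.sum_insert ha, ladd, ih]
  have rsum : ∀ {R : Type} (s : Finset R) (f : R → A.T) (w : A.T),
      E w (∑ i ∈ s, f i) = ∑ i ∈ s, E w (f i) := by
    intro R s f w
    induction s using Finset.induction_on with
    | empty => rw [Finset.sum_empty, Finset.sum_empty, rzero]
    | insert a s ha ih => rw [Finset.sum_insert ha, Finset.sum_insert ha, radd, ih]
  have him : ∀ u, (E u u).im = 0 := fun u => by
    have h := congrArg Complex.im (hE2 u u)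
    rw [Complex.conj_im] at h
    linarith
  choose q hq using hE4
  let B : A.H →ₗ[ℚ] A.H →ₗ[ℚ] ℚ := LinearMap.mk₂ ℚ q
    (fun v v' w => by
      have h : ((q (v + v') w : ℚ) : ℝ) = ((q v w + q v' w : ℚ) : ℝ) := by
        rw [← hq, map_add, ladd, Complex.add_im, hq, hq]
        push_cast
        rfl
      exact_mod_cast h)
    (fun a v w => by
      have h : ((q (a • v) w : ℚ) : ℝ) = ((a • q v w : ℚ) : ℝ) := by
        rw [← hq, per_smul, lsmul, Complex.mul_im, hq]
        simp
      exact_mod_cast h)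
    (fun v w w' => by
      have h : ((q v (w + w') : ℚ) : ℝ) = ((q v w + q v w' : ℚ) : ℝ) := by
        rw [← hq, map_add, radd, Complex.add_im, hq, hq]
        push_cast
        rfl
      exact_mod_cast h)
    (fun a v w => by
      have h : ((q v (a • w) : ℚ) : ℝ) = ((a • q v w : ℚ) : ℝ) := by
        rw [← hq, per_smul, rsmul, Complex.mul_im, hq]
        simp
      exact_mod_cast h)
  have hB : ∀ v w, B v w = q v w := fun v w => rfl
  have halt : ∀ v, B v v = 0 := fun v => by
    have h : ((q v v : ℚ) : ℝ) = ((0 : ℚ) : ℝ) := by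
      rw [← hq, him]
      simp
    rw [hB]
    exact_mod_cast h
  have hnd : ∀ u, (∀ v, B v u = 0) → u = 0 := by
    intro u hu
    refine per_inj A u ?_
    by_contra hne
    have h1 : ∀ t : A.T, (E t (A.per u)).im = 0 := by
      intro t
      have ht : t ∈ Submodule.span ℝ (Set.range A.per) := by
        rw [A.span]
        trivial
      induction ht using Submodule.span_induction with
      | mem t ht =>
        obtain ⟨v, rfl⟩ := ht
        rw [hq, ← hB, hu]
        simp
      | zero => rw [lzero, Complex.zero_im]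
      | add x y _ _ hx hy => rw [ladd, Complex.add_im, hx, hy, add_zero]
      | smul c x _ hx =>
        rw [← Complex.coe_smul, lsmul, Complex.mul_im, hx, Complex.ofReal_im]
        ring
    have h2 := h1 (Complex.I • A.per u)
    rw [lsmul, Complex.I_mul_im] at h2
    have h3 := hE3 _ hne
    linarith
  obtain ⟨g, e, haa, hbb, hab⟩ := darbQ A.H B halt hnd
  have hg : finrank ℂ A.T = g := by
    have h1 := finrank_eq_card_basis e
    rw [A.dim, Fintype.card_sum, Fintype.card_fin] at h1
    omega
  have hli := li A e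
  -- the Hermitian form on the first half of the basis
  obtain ⟨a, ha⟩ : ∃ a : Fin g → A.T, a = fun i => A.per (e (Sum.inl i)) := ⟨_, rfl⟩
  obtain ⟨b, hb⟩ : ∃ b : Fin g → A.T, b = fun i => A.per (e (Sum.inr i)) := ⟨_, rfl⟩
  have haE : ∀ i j, (E (a i) (a j)).im = 0 := fun i j => by
    rw [ha, hq, ← hB, haa]
    simp
  have hbE : ∀ i j, (E (b i) (b j)).im = 0 := fun i j => by
    rw [hb, hq, ← hB, hbb]
    simp
  have hbaE : ∀ i j, (E (b j) (a i)).im = if i = j then 1 else 0 := fun i j => by
    rw [hb, ha, hq, ← hB, alt_anti halt, hab]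
    by_cases h : i = j
    · rw [if_pos h, if_pos h]
      simp
    · rw [if_neg h, if_neg h]
      simp
  have hali : ∀ x : Fin g → ℝ, ∑ i, ((x i : ℝ) : ℂ) • a i = 0 → x = 0 := by
    intro x hx
    rw [Fintype.linearIndependent_iff] at hli
    have h2 := hli (Sum.elim x 0) ?_
    · funext i
      exact h2 (Sum.inl i)
    · rw [Fintype.sum_sum_type]
      simp only [Sum.elim_inl, Sum.elim_inr, Pi.zero_apply, zero_smul, Finset.sum_const_zero,
        add_zero]
      rw [← hx, ha]
      exact Finset.sum_congr rfl fun i _ => (Complex.coe_smul _ _).symm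
  obtain ⟨hr, hhr⟩ : ∃ hr : Matrix (Fin g) (Fin g) ℝ, hr = Matrix.of fun i j => (E (a i) (a j)).re :=
    ⟨_, rfl⟩
  have hrE : ∀ i j, E (a i) (a j) = ((hr i j : ℝ) : ℂ) := fun i j => by
    rw [hhr]
    apply Complex.ext
    · rw [Complex.ofReal_re]
      rfl
    · rw [Complex.ofReal_im, haE]
  have hrs : hrᵀ = hr := by
    ext i j
    rw [Matrix.transpose_apply]
    have h := hrE j i
    rw [hE2 (a i) (a j), hrE i j, Complex.conj_ofReal] at h
    exact_mod_cast h.symm
  have hrpos : hr.PosDef := by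
    refine Matrix.PosDef.of_dotProduct_mulVec_pos ?_ ?_
    · rw [Matrix.IsHermitian, Matrix.conjTranspose_eq_transpose_of_trivial, hrs]
    · intro x hx
      have h1 : ∑ i, ((x i : ℝ) : ℂ) • a i ≠ 0 := fun h => hx (hali x h)
      have h2 := hE3 _ h1
      have h3 : E (∑ i, ((x i : ℝ) : ℂ) • a i) (∑ i, ((x i : ℝ) : ℂ) • a i) =
          ((star x ⬝ᵥ hr *ᵥ x : ℝ) : ℂ) := by
        rw [lsum]
        simp only [dotProduct, mulVec, star_trivial]
        rw [Complex.ofReal_sum]
        refine Finset.sum_congr rfl fun i _ => ?_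
        rw [lsmul, rsum, Complex.ofReal_mul, Complex.ofReal_sum]
        congr 1
        refine Finset.sum_congr rfl fun j _ => ?_
        rw [rsmul, hrE, Complex.conj_ofReal, Complex.ofReal_mul, mul_comm]
      rw [h3, Complex.ofReal_re] at h2
      exact h2
  have hrdet : IsUnit hr.det := hrpos.isUnit.map Matrix.detMonoidHom
  have hreal : ∀ x : Fin g → ℝ, (∀ j, ∑ i, x i * hr i j = 0) → x = 0 := by
    intro x hx
    have h1 : x ᵥ* hr = 0 := by
      funext j
      exact hx j
    have h2 : (x ᵥ* hr) ᵥ* hr⁻¹ = 0 := by rw [h1, Matrix.zero_vecMul]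
    rwa [Matrix.vecMul_vecMul, Matrix.mul_nonsing_inv _ hrdet, Matrix.vecMul_one] at h2
  have hCli : LinearIndependent ℂ a := by
    rw [Fintype.linearIndependent_iff]
    intro c hc
    have h1 : ∀ j, ∑ i, c i * ((hr i j : ℝ) : ℂ) = 0 := by
      intro j
      have h2 : E (∑ i, c i • a i) (a j) = 0 := by rw [hc, lzero]
      rw [lsum] at h2
      rw [← h2]
      exact Finset.sum_congr rfl fun i _ => by rw [lsmul, hrE]
    have h2 : (fun i => (c i).re) = 0 := by
      refine hreal _ fun j => ?_
      have h3 := congrArg Complex.re (h1 j)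
      rw [Complex.re_sum, Complex.zero_re] at h3
      rw [← h3]
      exact Finset.sum_congr rfl fun i _ => (Complex.re_mul_ofReal _ _).symm
    have h3 : (fun i => (c i).im) = 0 := by
      refine hreal _ fun j => ?_
      have h3 := congrArg Complex.im (h1 j)
      rw [Complex.im_sum, Complex.zero_im] at h3
      rw [← h3]
      exact Finset.sum_congr rfl fun i _ => (Complex.im_mul_ofReal _ _).symm
    intro i
    exact Complex.ext (congrFun h2 i) (congrFun h3 i)
  let β : Basis (Fin g) ℂ A.T := basisOfLinearIndependentOfCardEqFinrank' a hCli (by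
    rw [Fintype.card_fin, hg])
  have hβ : ∀ i, β i = a i := fun i => by
    simp only [β, coe_basisOfLinearIndependentOfCardEqFinrank']
  obtain ⟨Z, hZ⟩ : ∃ Z : Matrix (Fin g) (Fin g) ℂ, Z = Matrix.of fun i j => β.equivFun (b j) i :=
    ⟨_, rfl⟩
  have hbZ : ∀ j, b j = ∑ k, Z k j • a k := by
    intro j
    conv_lhs => rw [← β.sum_equivFun (b j)]
    refine Finset.sum_congr rfl fun k _ => ?_
    rw [hβ, hZ]
    rfl
  obtain ⟨X, hX⟩ : ∃ X : Matrix (Fin g) (Fin g) ℝ, X = Z.map Complex.re := ⟨_, rfl⟩
  obtain ⟨Y, hY⟩ : ∃ Y : Matrix (Fin g) (Fin g) ℝ, Y = imM Z := ⟨_, rfl⟩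
  have hXE : ∀ i j, X i j = (Z i j).re := fun i j => by
    rw [hX]
    rfl
  have hYE : ∀ i j, Y i j = (Z i j).im := fun i j => by
    rw [hY]
    rfl
  have hYh : Yᵀ * hr = 1 := by
    ext j i
    rw [Matrix.mul_apply, Matrix.one_apply]
    have h1 := hbaE i j
    rw [hbZ, lsum, Complex.im_sum] at h1
    have h2 : ∀ k, (E (Z k j • a k) (a i)).im = Yᵀ j k * hr k i := fun k => by
      rw [lsmul, hrE, Complex.im_mul_ofReal, Matrix.transpose_apply, hYE]
    rw [Finset.sum_congr rfl fun k _ => (h2 k).symm, h1]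
    by_cases h : i = j
    · rw [if_pos h, if_pos h.symm]
    · rw [if_neg h, if_neg fun h' => h h'.symm]
  have hYt : Yᵀ = hr⁻¹ := by
    rw [Matrix.inv_eq_left_inv hYh]
  have hYs : Yᵀ = Y := by
    have h1 : Y = (hr⁻¹)ᵀ := by rw [← hYt, Matrix.transpose_transpose]
    rw [Matrix.transpose_nonsing_inv, hrs] at h1
    rw [hYt, ← h1]
  have hYpos : Y.PosDef := by
    rw [← hYs, hYt]
    exact hrpos.inv
  have hhY : hr * Y = 1 := by
    rw [hYs] at hYh
    exact mul_eq_one_comm.1 hYh
  have hXs : Xᵀ = X := by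
    have h1 : Yᵀ * hr * X - Xᵀ * (hr * Y) = 0 := by
      ext j l
      have h2 : (E (b j) (b l)).im = (Yᵀ * hr * X) j l - (Xᵀ * (hr * Y)) j l := by
        have e1 : (Yᵀ * hr * X) j l = ∑ k, ∑ m, Y k j * hr k m * X m l := by
          simp only [Matrix.mul_apply, Matrix.transpose_apply, Finset.sum_mul]
          exact Finset.sum_comm
        have e2 : (Xᵀ * (hr * Y)) j l = ∑ k, ∑ m, X k j * (hr k m * Y m l) := by
          simp only [Matrix.mul_apply, Matrix.transpose_apply, Finset.mul_sum]
        have e3 : E (b j) (b l) =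
            ∑ k, ∑ m, Z k j * (starRingEnd ℂ (Z m l) * ((hr k m : ℝ) : ℂ)) := by
          rw [hbZ j, hbZ l, lsum]
          refine Finset.sum_congr rfl fun k _ => ?_
          rw [lsmul, rsum, Finset.mul_sum]
          refine Finset.sum_congr rfl fun m _ => ?_
          rw [rsmul, hrE]
        rw [e1, e2, e3, Complex.im_sum, ← Finset.sum_sub_distrib]
        refine Finset.sum_congr rfl fun k _ => ?_
        rw [Complex.im_sum, ← Finset.sum_sub_distrib]
        refine Finset.sum_congr rfl fun m _ => ?_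
        rw [Complex.mul_im, Complex.re_mul_ofReal, Complex.im_mul_ofReal, Complex.conj_re,
          Complex.conj_im, hXE, hXE, hYE, hYE]
        ring
      rw [Matrix.zero_apply, Matrix.sub_apply, ← h2, hbE]
    rw [hYh, hhY, Matrix.one_mul, Matrix.mul_one, sub_eq_zero] at h1
    exact h1.symm
  have hZs : Zᵀ = Z := by
    ext i j
    rw [Matrix.transpose_apply]
    apply Complex.ext
    · rw [← hXE, ← hXE, ← Matrix.transpose_apply X, hXs]
    · rw [← hYE, ← hYE, ← Matrix.transpose_apply Y, hYs]
  refine ⟨g, Z, e.equivFun, β.equivFun, hZs, hY ▸ hYpos, fun w => ?_⟩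
  rw [per_sum A e w, map_sum]
  funext i
  rw [Finset.sum_apply, Fintype.sum_sum_type]
  change _ = ((e.equivFun w (Sum.inl i) : ℚ) : ℂ) +
    ∑ k, Z i k * ((e.equivFun w (Sum.inr k) : ℚ) : ℂ)
  congr 1
  · rw [Finset.sum_eq_single i]
    · rw [map_smul, Pi.smul_apply, smul_eq_mul]
      have h1 : A.per (e (Sum.inl i)) = β i := by rw [hβ, ha]
      rw [h1, β.equivFun_self, if_pos rfl, mul_one]
    · intro k _ hk
      rw [map_smul, Pi.smul_apply, smul_eq_mul]
      have h1 : A.per (e (Sum.inl k)) = β k := by rw [hβ, ha]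
      rw [h1, β.equivFun_self, if_neg hk, mul_zero]
    · intro h
      exact absurd (Finset.mem_univ _) h
  · refine Finset.sum_congr rfl fun k _ => ?_
    rw [map_smul, Pi.smul_apply, smul_eq_mul, hZ, mul_comm]
    have h1 : A.per (e (Sum.inr k)) = b k := by rw [hb]
    rw [h1]
    rfl

end Pool.Agent.Q60.D3.NF
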