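import Mathlib
import Pool.Agent.Q60.D3.Stm3

/-!
# Elements of the Lie algebra which act on one class of pieces only
-/

set_option linter.unusedSectionVars false
set_option linter.unusedVariables false

namespace Pool.Agent.Q60.D3

open Matrix Module Pool.Agent.H204R3.CM Pool.Agent.H204R3.SP Pool.Agent.W437.HC
  Pool.Agent.W437.HD Pool.Agent.W437.HP Pool.Agent.W437.HR

/-- The traceless part. -/
noncomputable def tln {n : ℕ} (A : Matrix (Fin n) (Fin n) ℂ) : Matrix (Fin n) (Fin n) ℂ :=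
  A - (A.trace / n) • 1

theorem tln_trace {n : ℕ} (hn : n = 1 ∨ n = 3) (A : Matrix (Fin n) (Fin n) ℂ) :
    (tln A).trace = 0 := by
  unfold tln
  rw [trace_sub, trace_smul, trace_one, Fintype.card_fin, smul_eq_mul, div_mul_cancel₀, sub_self]
  rcases hn with h | h <;> · rw [h]; norm_num

/-- Change of the type of a matrix. -/
def rc {n n' : ℕ} (h : n = 3) (h' : n' = 3) (A : Matrix (Fin n) (Fin n') ℂ) :
    Matrix (Fin 3) (Fin 3) ℂ := A.submatrix (Fin.cast h.symm) (Fin.cast h'.symm)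

/-- Change of the type of a matrix. -/
def ru {n n' : ℕ} (h : n = 3) (h' : n' = 3) (A : Matrix (Fin 3) (Fin 3) ℂ) :
    Matrix (Fin n) (Fin n') ℂ := A.submatrix (Fin.cast h) (Fin.cast h')

theorem rc_ru {n n' : ℕ} (h : n = 3) (h' : n' = 3) (A : Matrix (Fin 3) (Fin 3) ℂ) :
    rc h h' (ru h h' A) = A := by
  subst h h'
  rfl

theorem rc_inj {n n' : ℕ} (h : n = 3) (h' : n' = 3) {A B : Matrix (Fin n) (Fin n') ℂ}
    (hAB : rc h h' A = rc h h' B) : A = B := by
  subst h h'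
  exact hAB

theorem rc_mul {n n' n'' : ℕ} (h : n = 3) (h' : n' = 3) (h'' : n'' = 3)
    (A : Matrix (Fin n) (Fin n') ℂ) (B : Matrix (Fin n') (Fin n'') ℂ) :
    rc h h'' (A * B) = rc h h' A * rc h' h'' B := by
  subst h h' h''
  rfl

theorem rc_one {n : ℕ} (h : n = 3) : rc h h 1 = 1 := by
  subst h
  rfl

theorem rc_zero {n n' : ℕ} (h : n = 3) (h' : n' = 3) : rc h h' 0 = 0 := by
  subst h h'
  rfl

theorem rc_trace {n : ℕ} (h : n = 3) (A : Matrix (Fin n) (Fin n) ℂ) :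
    (rc h h A).trace = A.trace := by
  subst h
  rfl

theorem rc_add {n n' : ℕ} (h : n = 3) (h' : n' = 3) (A B : Matrix (Fin n) (Fin n') ℂ) :
    rc h h' (A + B) = rc h h' A + rc h h' B := by
  subst h h'
  rfl

theorem rc_sub {n n' : ℕ} (h : n = 3) (h' : n' = 3) (A B : Matrix (Fin n) (Fin n') ℂ) :
    rc h h' (A - B) = rc h h' A - rc h h' B := by
  subst h h'
  rfl

theorem rc_smul {n n' : ℕ} (h : n = 3) (h' : n' = 3) (c : ℂ) (A : Matrix (Fin n) (Fin n') ℂ) :
    rc h h' (c • A) = c • rc h h' A := by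
  subst h h'
  rfl

theorem rc_tln {n : ℕ} (h : n = 3) (A : Matrix (Fin n) (Fin n) ℂ) :
    tl (rc h h A) = rc h h (tln A) := by
  subst h
  unfold tl tln
  rw [rc_sub, rc_smul, rc_one, rc_trace]
  norm_num

theorem rc_single {n : ℕ} (h : n = 3) (i j : Fin 3) :
    rc h h (Matrix.single (Fin.cast h.symm i) (Fin.cast h.symm j) 1) = Matrix.single i j 1 := by
  subst h
  rfl

theorem zero_of_one {n : ℕ} (h : n = 1) {A : Matrix (Fin n) (Fin n) ℂ} (hA : A.trace = 0) :
    A = 0 := by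
  subst h
  ext i j
  have h1 : A.trace = A 0 0 := by
    simp [Matrix.trace]
  rw [h1] at hA
  rw [Subsingleton.elim i 0, Subsingleton.elim j 0, hA]
  rfl

/-- Involutions of trace `1` or `-1` whose traceless parts are conjugate are conjugate. -/
theorem rigid {P Q τ τ' : Matrix (Fin 3) (Fin 3) ℂ} (hP : P * P = 1) (hQ : Q * Q = 1)
    (h1 : τ * τ' = 1) (h2 : τ' * τ = 1) (ha : P.trace = 1 ∨ P.trace = -1)
    (hb : Q.trace = 1 ∨ Q.trace = -1) (h : tl P * τ = τ * tl Q) : P * τ = τ * Q := by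
  obtain ⟨c, hc⟩ : ∃ c, c = (P.trace - Q.trace) / 3 := ⟨_, rfl⟩
  have e1 : P * τ = τ * Q + c • τ := by
    unfold tl at h
    rw [Matrix.sub_mul, Matrix.mul_sub, smul_mul_assoc, mul_smul_comm, Matrix.one_mul,
      Matrix.mul_one, sub_eq_iff_eq_add] at h
    rw [h, hc]
    have : (P.trace - Q.trace) / 3 = P.trace / 3 - Q.trace / 3 := by ring
    rw [this, sub_smul]
    abel
  by_cases hc0 : c = 0
  · rw [e1, hc0, zero_smul, add_zero]
  exfalso
  have e2 : (2 : ℂ) • Q + c • 1 = 0 := by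
    have e3 : P * (P * τ) = τ := by rw [← Matrix.mul_assoc, hP, Matrix.one_mul]
    have e4 : P * (P * τ) = τ + (2 * c) • (τ * Q) + (c * c) • τ := by
      rw [e1, Matrix.mul_add, ← Matrix.mul_assoc, e1, mul_smul_comm, e1, Matrix.add_mul,
        Matrix.mul_assoc, hQ, Matrix.mul_one, smul_mul_assoc, smul_add, smul_smul, two_mul,
        add_smul]
      abel
    rw [e3] at e4
    have e5 : (2 * c) • (τ * Q) + (c * c) • τ = 0 := by
      have : τ + ((2 * c) • (τ * Q) + (c * c) • τ) = τ + 0 := by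
        rw [← add_assoc, ← e4, add_zero]
      exact add_left_cancel this
    have e6 := congrArg (fun A => τ' * A) e5
    simp only [Matrix.mul_add, mul_smul_comm, Matrix.mul_zero] at e6
    rw [← Matrix.mul_assoc, h2, Matrix.one_mul] at e6
    have e7 : c • ((2 : ℂ) • Q + c • (1 : Matrix (Fin 3) (Fin 3) ℂ)) = 0 := by
      rw [smul_add, smul_smul, smul_smul, mul_comm c 2]
      exact e6
    exact (smul_eq_zero.1 e7).resolve_left hc0
  have e3 : 2 * Q.trace + c * 3 = 0 := by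
    have := congrArg Matrix.trace e2
    rw [trace_add, trace_smul, trace_smul, trace_one, Fintype.card_fin, trace_zero] at this
    simpa using this
  have e4 : Q = (-(c / 2)) • (1 : Matrix (Fin 3) (Fin 3) ℂ) := by
    have : (2 : ℂ) • Q = (2 : ℂ) • ((-(c / 2)) • (1 : Matrix (Fin 3) (Fin 3) ℂ)) := by
      rw [smul_smul]
      have : (2 : ℂ) * -(c / 2) = -c := by ring
      rw [this, neg_smul]
      exact eq_neg_of_add_eq_zero_left e2
    exact smul_right_injective _ (two_ne_zero (α := ℂ)) this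
  have e5 : (c / 2) * (c / 2) = 1 := by
    have := congrFun (congrFun hQ 0) 0
    rw [e4, smul_mul_assoc, mul_smul_comm, Matrix.one_mul, smul_smul, Matrix.smul_apply,
      Matrix.one_apply_eq, smul_eq_mul, mul_one] at this
    linear_combination this
  rcases ha with ha | ha <;> rcases hb with hb | hb <;> rw [ha, hb] at hc
  · exact hc0 (by rw [hc]; norm_num)
  · rw [hc] at e5
    norm_num at e5
  · rw [hc] at e5
    norm_num at e5
  · exact hc0 (by rw [hc]; norm_num)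

section rel

variable {M : Type} [AddCommGroup M] [Module ℂ M] {𝒦 : Type} {n : 𝒦 → ℕ}
  (T : ∀ k, M →ₗ[ℂ] Matrix (Fin (n k)) (Fin (n k)) ℂ) (C : Set M)

/-- Isomorphism of two pieces, exact on the set `C` and up to scalars otherwise. -/
def RelM (k q : 𝒦) (τ : Matrix (Fin (n k)) (Fin (n q)) ℂ) (τ' : Matrix (Fin (n q)) (Fin (n k)) ℂ) :
    Prop :=
  τ * τ' = 1 ∧ τ' * τ = 1 ∧ (∀ X, tln (T k X) * τ = τ * tln (T q X)) ∧
    ∀ X ∈ C, T k X * τ = τ * T q X

/-- Isomorphic pieces. -/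
def Rel (k q : 𝒦) : Prop := ∃ τ τ', RelM T C k q τ τ'

variable {T C}

theorem RelM.symm {k q : 𝒦} {τ : Matrix (Fin (n k)) (Fin (n q)) ℂ}
    {τ' : Matrix (Fin (n q)) (Fin (n k)) ℂ} (h : RelM T C k q τ τ') : RelM T C q k τ' τ := by
  obtain ⟨h1, h2, h3, h4⟩ := h
  have key : ∀ (A : Matrix (Fin (n k)) (Fin (n k)) ℂ) (A' : Matrix (Fin (n q)) (Fin (n q)) ℂ),
      A * τ = τ * A' → A' * τ' = τ' * A := by
    intro A A' h
    calc A' * τ' = (τ' * τ) * A' * τ' := by rw [h2, Matrix.one_mul]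
      _ = τ' * (τ * A') * τ' := by rw [Matrix.mul_assoc τ' τ A']
      _ = τ' * (A * τ) * τ' := by rw [h]
      _ = τ' * A * (τ * τ') := by simp only [Matrix.mul_assoc]
      _ = τ' * A := by rw [h1, Matrix.mul_one]
  exact ⟨h2, h1, fun X => key _ _ (h3 X), fun X hX => key _ _ (h4 X hX)⟩

theorem RelM.conj {k q : 𝒦} {τ : Matrix (Fin (n k)) (Fin (n q)) ℂ}
    {τ' : Matrix (Fin (n q)) (Fin (n k)) ℂ} (h : RelM T C k q τ τ')
    {A : Matrix (Fin (n k)) (Fin (n k)) ℂ} {A' : Matrix (Fin (n q)) (Fin (n q)) ℂ}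
    (hA : τ' * A = A' * τ') : A = τ * A' * τ' := by
  rw [Matrix.mul_assoc, ← hA, ← Matrix.mul_assoc, h.1, Matrix.one_mul]

theorem RelM.trace {k q : 𝒦} {τ : Matrix (Fin (n k)) (Fin (n q)) ℂ}
    {τ' : Matrix (Fin (n q)) (Fin (n k)) ℂ} (h : RelM T C k q τ τ') : n k = n q := by
  have h1 := congrArg Matrix.trace h.1
  have h2 := congrArg Matrix.trace h.2.1
  rw [trace_mul_comm, h2, trace_one, trace_one, Fintype.card_fin, Fintype.card_fin] at h1
  exact_mod_cast h1.symm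

theorem RelM.traceC {k q : 𝒦} {τ : Matrix (Fin (n k)) (Fin (n q)) ℂ}
    {τ' : Matrix (Fin (n q)) (Fin (n k)) ℂ} (h : RelM T C k q τ τ') {X : M} (hX : X ∈ C) :
    (T k X).trace = (T q X).trace := by
  have h1 : T k X = τ * T q X * τ' := by
    rw [← h.2.2.2 X hX, Matrix.mul_assoc, h.1, Matrix.mul_one]
  rw [h1, trace_mul_comm, ← Matrix.mul_assoc, h.2.1, Matrix.one_mul]

theorem Rel.refl (k : 𝒦) : Rel T C k k :=
  ⟨1, 1, Matrix.one_mul _, Matrix.one_mul _, fun X => by rw [Matrix.mul_one, Matrix.one_mul],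
    fun X _ => by rw [Matrix.mul_one, Matrix.one_mul]⟩

theorem Rel.symm {k q : 𝒦} (h : Rel T C k q) : Rel T C q k := by
  obtain ⟨τ, τ', h⟩ := h
  exact ⟨τ', τ, h.symm⟩

theorem Rel.trans {k q r : 𝒦} (h : Rel T C k q) (h' : Rel T C q r) : Rel T C k r := by
  obtain ⟨τ, τ', h1, h2, h3, h4⟩ := h
  obtain ⟨θ, θ', k1, k2, k3, k4⟩ := h'
  have key : ∀ (A : Matrix (Fin (n k)) (Fin (n k)) ℂ) (A' : Matrix (Fin (n q)) (Fin (n q)) ℂ)
      (A'' : Matrix (Fin (n r)) (Fin (n r)) ℂ), A * τ = τ * A' → A' * θ = θ * A'' →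
      A * (τ * θ) = τ * θ * A'' := by
    intro A A' A'' e1 e2
    rw [← Matrix.mul_assoc, e1, Matrix.mul_assoc, e2, Matrix.mul_assoc]
  refine ⟨τ * θ, θ' * τ', ?_, ?_, fun X => key _ _ _ (h3 X) (k3 X),
    fun X hX => key _ _ _ (h4 X hX) (k4 X hX)⟩
  · rw [Matrix.mul_assoc, ← Matrix.mul_assoc θ, k1, Matrix.one_mul, h1]
  · rw [Matrix.mul_assoc, ← Matrix.mul_assoc τ', h2, Matrix.one_mul, k2]

/-- The classes. -/
def rset (T : ∀ k, M →ₗ[ℂ] Matrix (Fin (n k)) (Fin (n k)) ℂ) (C : Set M) : Setoid 𝒦 :=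
  ⟨Rel T C, ⟨Rel.refl, Rel.symm, Rel.trans⟩⟩

end rel

/-- Representatives of the classes. -/
theorem exists_rep {α : Type} (R : Setoid α) :
    ∃ r : α → α, (∀ a, R.r (r a) a) ∧ ∀ a b, R.r a b → r a = r b := by
  refine ⟨fun a => (Quotient.mk R a).out, fun a => ?_, fun a b h => ?_⟩
  · exact @Quotient.exact _ R _ _ (Quotient.out_eq _)
  · have : Quotient.mk R a = Quotient.mk R b := Quotient.sound h
    simp only [this]

section lift

variable {M : Type} [AddCommGroup M] [Module ℂ M] {br : M → M → M} {𝒮 𝒦 : Type} [Finite 𝒮]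
  [Finite 𝒦] {N : 𝒮 → Type} [∀ a, AddCommGroup (N a)] [∀ a, Module ℂ (N a)]
  [∀ a, FiniteDimensional ℂ (N a)] [∀ a, Nontrivial (N a)] (s : Sys M br N) {n : 𝒦 → ℕ}
  (T : ∀ k, M →ₗ[ℂ] Matrix (Fin (n k)) (Fin (n k)) ℂ) (C : Set M)

/-- The conclusion. -/
def Lifts : Prop :=
  (∀ a x y, ∃ X, s.ρ a X = EE (s.w a) x y ∧ (∀ b, ¬ Lnk s a b → s.ρ b X = 0) ∧
      (∀ b (f : N a ≃ₗ[ℂ] N b), (∀ X u, f (s.ρ a X u) = s.ρ b X (f u)) →
        (∀ x y, s.w b (f x) (f y) = s.w a x y) → s.ρ b X = EE (s.w b) (f x) (f y)) ∧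
      ∀ k, T k X = 0) ∧
  ∀ k, ∀ A : Matrix (Fin (n k)) (Fin (n k)) ℂ, A.trace = 0 → ∃ X,
      (∀ k' τ τ', RelM T C k' k τ τ' → T k' X = τ * A * τ') ∧
      (∀ k', ¬ Rel T C k' k → T k' X = 0) ∧ ∀ a, s.ρ a X = 0

/-- The lifts. -/
theorem lifts (hgrs : S_grs) (hn : ∀ k, n k = 1 ∨ n k = 3)
    (Tbr : ∀ k X Y, T k (br X Y) = T k X * T k Y - T k Y * T k X)
    (Tfull : ∀ k, ∀ i j, i ≠ j → ∃ X, T k X = Matrix.single i j 1)
    (hC1 : ∀ X ∈ C, ∀ k, T k X * T k X = 1)
    (hC2 : ∀ X ∈ C, ∀ k, (T k X).trace = 1 ∨ (T k X).trace = -1) (δ : M)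
    (hδT : ∀ k l j, T k δ l j = if j = l then (if (j : ℕ) = 2 then -1 else 1) else 0)
    (hδρ : ∀ a, s.ρ a δ * s.ρ a δ = 1) : Lifts s T C := by
  let S : Sys3 M br {k // n k = 3} 𝒦 N :=
    { s := s
      T := fun k =>
        { toFun := fun X => rc k.2 k.2 (T k.1 X)
          map_add' := fun X Y => by rw [map_add, rc_add]
          map_smul' := fun c X => by rw [map_smul, rc_smul, RingHom.id_apply] }
      Tbr := fun k X Y => by
        change rc k.2 k.2 (T k.1 (br X Y)) = rc k.2 k.2 (T k.1 X) * rc k.2 k.2 (T k.1 Y) -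
          rc k.2 k.2 (T k.1 Y) * rc k.2 k.2 (T k.1 X)
        rw [Tbr, rc_sub, rc_mul k.2 k.2 k.2, rc_mul k.2 k.2 k.2]
      Tfull := fun k i j hij => by
        obtain ⟨X, hX⟩ := Tfull k.1 (Fin.cast k.2.symm i) (Fin.cast k.2.symm j)
          (fun h => hij (Fin.cast_injective _ h))
        refine ⟨X, ?_⟩
        change rc k.2 k.2 (T k.1 X) = _
        rw [hX, rc_single]
      χ := fun k =>
        { toFun := fun X => (T k X).trace
          map_add' := fun X Y => by rw [map_add, trace_add]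
          map_smul' := fun c X => by rw [map_smul, trace_smul, RingHom.id_apply] }
      χbr := fun k X Y => by
        change (T k (br X Y)).trace = 0
        rw [Tbr, trace_sub, trace_mul_comm, sub_self]
      δ := δ
      δT := fun k => by
        change rc k.2 k.2 (T k.1 δ) = dg
        ext i j
        change T k.1 δ (Fin.cast k.2.symm i) (Fin.cast k.2.symm j) = _
        rw [hδT]
        unfold dg
        rw [Matrix.diagonal_apply]
        fin_cases i <;> fin_cases j <;> simp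
      δρ := hδρ }
  have hST : ∀ (k : {k // n k = 3}) X, S.T k X = rc k.2 k.2 (T k.1 X) := fun _ _ => rfl
  have hSχ : ∀ k X, S.χ k X = (T k X).trace := fun _ _ => rfl
  obtain ⟨g1, g2⟩ := hgrs M br 𝒮 {k // n k = 3} 𝒦 N S
  have hzero : ∀ X, (∀ k, S.T k X = 0) → (∀ k, S.χ k X = 0) → ∀ k, T k X = 0 := by
    intro X h1 h2 k
    rcases hn k with h | h
    · exact zero_of_one h (by rw [← hSχ, h2])
    · exact rc_inj h h ((h1 ⟨k, h⟩).trans (rc_zero h h).symm)
  refine ⟨fun a x y => ?_, fun k A hA => ?_⟩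
  · obtain ⟨X, h1, h2, h3, h4, h5⟩ := g1 a x y
    exact ⟨X, h1, h2, h3, hzero X h4 h5⟩
  · rcases hn k with hk | hk
    · refine ⟨0, fun k' τ τ' _ => ?_, fun k' _ => map_zero _, fun a => map_zero _⟩
      rw [zero_of_one hk hA, Matrix.mul_zero, Matrix.zero_mul, map_zero]
    · obtain ⟨X, h1, h2, h3, h4⟩ := g2 ⟨k, hk⟩ (rc hk hk A) (by rw [rc_trace, hA])
      refine ⟨X, fun k' τ τ' hr => ?_, fun k' hr => ?_, h3⟩
      · rcases hn k' with h' | h'
        · rw [zero_of_one h' (A := T k' X) (by rw [← hSχ, h4]),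
            zero_of_one h' (A := τ * A * τ') ?_]
          rw [trace_mul_comm, ← Matrix.mul_assoc, hr.2.1, Matrix.one_mul, hA]
        · have h5 := h1 ⟨k', h'⟩ (rc hk h' τ') ?_ ?_
          · rw [hST] at h5
            apply hr.conj
            apply rc_inj hk h'
            rw [rc_mul hk h' h', rc_mul hk hk h']
            exact h5
          · rw [← Matrix.isUnit_iff_isUnit_det]
            refine ⟨⟨rc hk h' τ', rc h' hk τ, ?_, ?_⟩, rfl⟩
            · rw [← rc_mul, hr.2.1, rc_one]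
            · rw [← rc_mul, hr.1, rc_one]
          · intro Y
            rw [hST, hST, rc_tln, rc_tln, ← rc_mul, ← rc_mul, hr.symm.2.2.1]
      · rcases hn k' with h' | h'
        · exact zero_of_one h' (by rw [← hSχ, h4])
        · refine rc_inj h' h' ((h2 ⟨k', h'⟩ fun hl => hr ?_).trans (rc_zero h' h').symm)
          obtain ⟨τ, hu, hτ⟩ := hl
          obtain ⟨τ', e1, e2⟩ : ∃ τ', τ * τ' = 1 ∧ τ' * τ = 1 :=
            ⟨τ⁻¹, mul_nonsing_inv _ hu, nonsing_inv_mul _ hu⟩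
          apply Rel.symm
          refine ⟨ru hk h' τ, ru h' hk τ', ?_, ?_, fun Y => ?_, fun Y hY => ?_⟩
          · apply rc_inj hk hk
            rw [rc_mul hk h' hk, rc_ru, rc_ru, e1, rc_one]
          · apply rc_inj h' h'
            rw [rc_mul h' hk h', rc_ru, rc_ru, e2, rc_one]
          · apply rc_inj hk h'
            rw [rc_mul hk hk h', rc_mul hk h' h', rc_ru, ← rc_tln, ← rc_tln]
            exact hτ Y
          · apply rc_inj hk h'
            rw [rc_mul hk hk h', rc_mul hk h' h', rc_ru]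
            refine rigid ?_ ?_ e1 e2 ?_ ?_ (hτ Y)
            · rw [← rc_mul, hC1 Y hY, rc_one]
            · rw [← rc_mul, hC1 Y hY, rc_one]
            · rw [rc_trace]
              exact hC2 Y hY k
            · rw [rc_trace]
              exact hC2 Y hY k'

end lift

end Pool.Agent.Q60.D3
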