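import Mathlib
import Pool.Agent.Q60.D3.Lift

/-!
# Elements of the Lie algebra which act by scalars
-/

set_option linter.unusedSectionVars false
set_option linter.unusedVariables false

namespace Pool.Agent.Q60.D3

open Matrix Module Pool.Agent.H204R3.CM Pool.Agent.H204R3.SP Pool.Agent.W437.HC
  Pool.Agent.W437.HD Pool.Agent.W437.HP Pool.Agent.W437.HR

section lift

variable {M : Type} [AddCommGroup M] [Module ℂ M] {br : M → M → M} {𝒮 𝒦 : Type} [Finite 𝒮]
  [Finite 𝒦] {N : 𝒮 → Type} [∀ a, AddCommGroup (N a)] [∀ a, Module ℂ (N a)]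
  [∀ a, FiniteDimensional ℂ (N a)] [∀ a, Nontrivial (N a)] (s : Sys M br N) {n : 𝒦 → ℕ}
  (T : ∀ k, M →ₗ[ℂ] Matrix (Fin (n k)) (Fin (n k)) ℂ) (C : Set M)

/-- Lifts of the operators on a symplectic piece. -/
theorem lift_sp (h : Lifts s T C) (hsps : S_sps) (a : 𝒮) (X0 : M) :
    ∃ X, (∀ b, Lnk s a b → s.ρ b X = s.ρ b X0) ∧ (∀ b, ¬ Lnk s a b → s.ρ b X = 0) ∧
      ∀ k, T k X = 0 := by
  have h1 : ∀ A ∈ Submodule.span ℂ {A | ∃ x y, A = EE (s.w a) x y}, ∃ X,
      (∀ b, ¬ Lnk s a b → s.ρ b X = 0) ∧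
      (∀ b (f : N a ≃ₗ[ℂ] N b), (∀ X u, f (s.ρ a X u) = s.ρ b X (f u)) →
        (∀ x y, s.w b (f x) (f y) = s.w a x y) → ∀ u, s.ρ b X (f u) = f (A u)) ∧
      ∀ k, T k X = 0 := by
    intro A hA
    induction hA using Submodule.span_induction with
    | mem A hA =>
      obtain ⟨x, y, rfl⟩ := hA
      obtain ⟨X, _, h2, h3, h4⟩ := h.1 a x y
      refine ⟨X, h2, fun b f hf1 hf2 u => ?_, h4⟩
      rw [h3 b f hf1 hf2, EE_apply, EE_apply, map_add, map_smul, map_smul, hf2, hf2]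
    | zero =>
      exact ⟨0, fun b _ => map_zero _, fun b f _ _ u => by
        rw [map_zero, LinearMap.zero_apply, LinearMap.zero_apply, map_zero], fun k => map_zero _⟩
    | add A A' _ _ hA hA' =>
      obtain ⟨X, h2, h3, h4⟩ := hA
      obtain ⟨X', h2', h3', h4'⟩ := hA'
      refine ⟨X + X', fun b hb => ?_, fun b f hf1 hf2 u => ?_, fun k => ?_⟩
      · rw [map_add, h2 b hb, h2' b hb, add_zero]
      · rw [map_add, LinearMap.add_apply, LinearMap.add_apply, map_add, h3 b f hf1 hf2,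
          h3' b f hf1 hf2]
      · rw [map_add, h4, h4', add_zero]
    | smul c A _ hA =>
      obtain ⟨X, h2, h3, h4⟩ := hA
      refine ⟨c • X, fun b hb => ?_, fun b f hf1 hf2 u => ?_, fun k => ?_⟩
      · rw [map_smul, h2 b hb, smul_zero]
      · rw [map_smul, LinearMap.smul_apply, LinearMap.smul_apply, map_smul, h3 b f hf1 hf2]
      · rw [map_smul, h4, smul_zero]
  obtain ⟨X, h2, h3, h4⟩ := h1 _ (hsps (N a) (s.w a) (s.alt a) (s.nd a) (s.ρ a X0) (s.sp a X0))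
  refine ⟨X, ?_, h2, h4⟩
  rintro b ⟨f, hf1, hf2⟩
  refine LinearMap.ext fun u => ?_
  obtain ⟨u, rfl⟩ := f.surjective u
  rw [h3 b f hf1 hf2, hf1]

/-- Lifts of the traceless parts. -/
theorem lift_tl (h : Lifts s T C) (hn : ∀ k, n k = 1 ∨ n k = 3) (k : 𝒦) (X0 : M) :
    ∃ X, (∀ k', Rel T C k' k → T k' X = tln (T k' X0)) ∧ (∀ k', ¬ Rel T C k' k → T k' X = 0) ∧
      ∀ a, s.ρ a X = 0 := by
  obtain ⟨X, h1, h2, h3⟩ := h.2 k (tln (T k X0)) (tln_trace (hn k) _)
  refine ⟨X, ?_, h2, h3⟩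
  rintro k' ⟨τ, τ', hr⟩
  rw [h1 k' τ τ' hr]
  exact (hr.conj (hr.symm.2.2.1 X0).symm).symm

/-- Elements which act by scalars. -/
theorem lift_scal (h : Lifts s T C) (hsps : S_sps) (hn : ∀ k, n k = 1 ∨ n k = 3) (X0 : M) :
    ∃ X, (∀ a, s.ρ a X = 0) ∧ ∀ k, T k X = ((T k X0).trace / n k) • 1 := by
  classical
  have := Fintype.ofFinite 𝒮
  have := Fintype.ofFinite 𝒦
  obtain ⟨r, hr1, hr2⟩ := exists_rep (lset s)
  obtain ⟨t, ht1, ht2⟩ := exists_rep (rset T C)
  choose Y hY1 hY2 hY3 using fun a => lift_sp s T C h hsps a X0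
  choose W hW1 hW2 hW3 using fun k => lift_tl s T C h hn k X0
  refine ⟨X0 - ∑ a ∈ Finset.univ.filter (fun a => r a = a), Y a -
    ∑ k ∈ Finset.univ.filter (fun k => t k = k), W k, fun b => ?_, fun k => ?_⟩
  · rw [map_sub, map_sub, map_sum, map_sum, Finset.sum_eq_single (r b)]
    · rw [hY1 _ b (hr1 b), sub_self, Finset.sum_eq_zero fun k _ => hW3 k b, sub_zero]
    · intro a ha hab
      apply hY2
      intro hl
      apply hab
      rw [← (Finset.mem_filter.1 ha).2]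
      exact hr2 a b hl
    · intro hb
      have h5 : r (r b) = r b := hr2 _ _ (hr1 b)
      rw [Finset.mem_filter] at hb
      exact absurd ⟨Finset.mem_univ _, h5⟩ hb
  · rw [map_sub, map_sub, map_sum, map_sum, Finset.sum_eq_zero fun a _ => hY3 a k, sub_zero,
      Finset.sum_eq_single (t k)]
    · rw [hW1 _ k (Rel.symm (ht1 k))]
      unfold tln
      rw [sub_sub_cancel]
    · intro q hq hqk
      apply hW2
      intro hl
      apply hqk
      rw [← (Finset.mem_filter.1 hq).2]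
      exact ht2 q k (Rel.symm hl)
    · intro hb
      have h5 : t (t k) = t k := ht2 _ _ (ht1 k)
      rw [Finset.mem_filter] at hb
      exact absurd ⟨Finset.mem_univ _, h5⟩ hb

end lift

end Pool.Agent.Q60.D3
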