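import Mathlib
import Pool.Agent.Q60.D3.Lift2

/-!
# The labels, the bases and the coordinates
-/

set_option linter.unusedSectionVars false
set_option linter.unusedVariables false

namespace Pool.Agent.Q60.D3

open Matrix Module Pool.Agent.H204R3.CM Pool.Agent.H204R3.SP Pool.Agent.W437.HC
  Pool.Agent.W437.HD Pool.Agent.W437.HP Pool.Agent.W437.HR Pool.Agent.Q59.GC

/-- The transposed matrix in the reverse order. -/
def rt {m n : ℕ} (A : Matrix (Fin m) (Fin n) ℂ) : Matrix (Fin n) (Fin m) ℂ :=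
  Matrix.of fun c e => A (Fin.rev e) (Fin.rev c)

theorem rt_apply {m n : ℕ} (A : Matrix (Fin m) (Fin n) ℂ) (c : Fin n) (e : Fin m) :
    rt A c e = A (Fin.rev e) (Fin.rev c) := rfl

theorem sum_revF {n : ℕ} {M : Type*} [AddCommMonoid M] (f : Fin n → M) :
    ∑ c, f (Fin.rev c) = ∑ c, f c :=
  Equiv.sum_comp Fin.revPerm f

theorem rt_mul {m n l : ℕ} (A : Matrix (Fin m) (Fin n) ℂ) (B : Matrix (Fin n) (Fin l) ℂ) :
    rt (A * B) = rt B * rt A := by
  ext c e
  rw [rt_apply, Matrix.mul_apply, Matrix.mul_apply, ← sum_revF]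
  refine Finset.sum_congr rfl fun j _ => ?_
  rw [rt_apply, rt_apply, mul_comm]

theorem rt_one {n : ℕ} : rt (1 : Matrix (Fin n) (Fin n) ℂ) = 1 := by
  ext c e
  rw [rt_apply, Matrix.one_apply, Matrix.one_apply]
  by_cases h : c = e
  · rw [if_pos h, if_pos (by rw [h])]
  · rw [if_neg h, if_neg fun h' => h (Fin.rev_injective h').symm]

theorem rt_rt {m n : ℕ} (A : Matrix (Fin m) (Fin n) ℂ) : rt (rt A) = A := by
  ext c e
  rw [rt_apply, rt_apply, Fin.rev_rev, Fin.rev_rev]

theorem rt_zero {m n : ℕ} : rt (0 : Matrix (Fin m) (Fin n) ℂ) = 0 := rfl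

theorem rt_smul {m n : ℕ} (c : ℂ) (A : Matrix (Fin m) (Fin n) ℂ) : rt (c • A) = c • rt A := rfl

theorem rt_add {m n : ℕ} (A B : Matrix (Fin m) (Fin n) ℂ) : rt (A + B) = rt A + rt B := rfl

theorem rt_single {n : ℕ} (x y : Fin n) (c : ℂ) :
    rt (Matrix.single x y c) = Matrix.single (Fin.rev y) (Fin.rev x) c := by
  ext i j
  rw [rt_apply, Matrix.single_apply, Matrix.single_apply]
  have : (x = Fin.rev j ∧ y = Fin.rev i) ↔ (Fin.rev y = i ∧ Fin.rev x = j) := by
    constructor
    · rintro ⟨h1, h2⟩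
      rw [h1, h2, Fin.rev_rev, Fin.rev_rev]
      exact ⟨rfl, rfl⟩
    · rintro ⟨h1, h2⟩
      rw [← h1, ← h2, Fin.rev_rev, Fin.rev_rev]
      exact ⟨rfl, rfl⟩
  simp only [this]

theorem rt_trace {n : ℕ} (A : Matrix (Fin n) (Fin n) ℂ) : (rt A).trace = A.trace := by
  unfold Matrix.trace
  exact sum_revF fun c => A.diag c

/-- The action on the two parts of a piece. -/
def sA (β : Bool) {n : ℕ} (A : Matrix (Fin n) (Fin n) ℂ) : Matrix (Fin n) (Fin n) ℂ :=
  match β with
  | true => A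
  | false => -rt A

/-- The sign. -/
def sgn (β : Bool) : ℂ :=
  match β with
  | true => 1
  | false => -1

theorem sA_true {n : ℕ} (A : Matrix (Fin n) (Fin n) ℂ) : sA true A = A := rfl
theorem sA_false {n : ℕ} (A : Matrix (Fin n) (Fin n) ℂ) : sA false A = -rt A := rfl

theorem sA_zero (β : Bool) {n : ℕ} : sA β (0 : Matrix (Fin n) (Fin n) ℂ) = 0 := by
  cases β
  · rw [sA_false, rt_zero, neg_zero]
  · rfl

theorem sA_not (β : Bool) {n : ℕ} (A : Matrix (Fin n) (Fin n) ℂ) (c e : Fin n) :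
    sA (!β) A c e = -(sA β A (Fin.rev e) (Fin.rev c)) := by
  cases β
  · rw [Bool.not_false, sA_true, sA_false, Matrix.neg_apply, rt_apply, Fin.rev_rev, Fin.rev_rev,
      neg_neg]
  · rw [Bool.not_true, sA_false, sA_true, Matrix.neg_apply, rt_apply]

theorem sA_smul_one (β : Bool) {n : ℕ} (c : ℂ) :
    sA β (c • (1 : Matrix (Fin n) (Fin n) ℂ)) = (sgn β * c) • 1 := by
  cases β
  · rw [sA_false, rt_smul, rt_one]
    change _ = (-1 * c) • _
    rw [neg_one_mul, neg_smul]
  · rw [sA_true]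
    change _ = (1 * c) • _
    rw [one_mul]

section

variable {𝒮 𝒦 : Type} (m : 𝒮 → ℕ) (n : 𝒦 → ℕ) (hn : ∀ k, n k = 1 ∨ n k = 3)

/-- The labels: one for each symplectic piece and two for each piece of the other type. -/
def lab : Labels 3 (𝒮 ⊕ 𝒦 × Bool) where
  star := fun i => match i with
    | Sum.inl a => Sum.inl a
    | Sum.inr (k, β) => Sum.inr (k, !β)
  star_star := by
    rintro (a | ⟨k, β⟩)
    · rfl
    · simp
  orth := fun _ => false
  orth_star := fun i h => absurd h (by simp)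
  dim := fun i => match i with
    | Sum.inl a => 2 * m a
    | Sum.inr (k, _) => n k
  dim_star := by
    rintro (a | ⟨k, β⟩)
    · rfl
    · rfl
  ex := fun i => match i with
    | Sum.inl _ => 0
    | Sum.inr (_, true) => {1, 1, 1}
    | Sum.inr (_, false) => {-1, -1, -1}
  half := fun i => match i with
    | Sum.inl a => m a
    | Sum.inr (k, _) => if n k = 3 then 0 else -1
  dim_eq := by
    rintro (a | ⟨k, β⟩)
    · simp
    · have h1 : (n k : ℤ) = 3 + 2 * (if n k = 3 then 0 else -1) := by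
        rcases hn k with h | h
        · rw [h]
          norm_num
        · rw [h]
          norm_num
      cases β
      · simpa using h1
      · simpa using h1
  ex_ne := by
    rintro (a | ⟨k, β⟩)
    · simp
    · cases β
      · change (0 : ZMod 3) ∉ ({-1, -1, -1} : Multiset (ZMod 3))
        decide
      · change (0 : ZMod 3) ∉ ({1, 1, 1} : Multiset (ZMod 3))
        decide
  ex_sum := by
    rintro (a | ⟨k, β⟩)
    · simp
    · cases β
      · change ({-1, -1, -1} : Multiset (ZMod 3)).sum = 0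
        decide
      · change ({1, 1, 1} : Multiset (ZMod 3)).sum = 0
        decide
  ex_star := by
    rintro (a | ⟨k, β⟩)
    · rfl
    · cases β
      · change ({1, 1, 1} : Multiset (ZMod 3)) =
          Multiset.map (fun a => -a) ({-1, -1, -1} : Multiset (ZMod 3))
        decide
      · rfl

theorem lab_dim_inl (a : 𝒮) : (lab m n hn).dim (Sum.inl a) = 2 * m a := rfl
theorem lab_dim_inr (k : 𝒦) (β : Bool) : (lab m n hn).dim (Sum.inr (k, β)) = n k := rfl
theorem lab_star_inl (a : 𝒮) : (lab m n hn).star (Sum.inl a) = Sum.inl a := rfl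
theorem lab_star_inr (k : 𝒦) (β : Bool) : (lab m n hn).star (Sum.inr (k, β)) = Sum.inr (k, !β) := rfl

/-- A letter of a symplectic piece. -/
def lS (a : 𝒮) (x : Fin (2 * m a)) : Letter (lab m n hn) := ⟨Sum.inl a, x⟩

/-- A letter of a piece of the other type. -/
def lK (k : 𝒦) (β : Bool) (x : Fin (n k)) : Letter (lab m n hn) := ⟨Sum.inr (k, β), x⟩

theorem dual_lS (a : 𝒮) (x : Fin (2 * m a)) :
    dual (lS m n hn a x) = lS m n hn a (Fin.rev x) := by
  rw [dual_of_not (by exact Bool.false_ne_true)]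
  rfl

theorem dual_lK (k : 𝒦) (β : Bool) (x : Fin (n k)) :
    dual (lK m n hn k β x) = lK m n hn k (!β) (Fin.rev x) := by
  rw [dual_of_not (by exact Bool.false_ne_true)]
  rfl

/-- The signs of the letters. -/
noncomputable def lep (x : Letter (lab m n hn)) : ℂ :=
  match x with
  | ⟨Sum.inl a, x⟩ => if (x : ℕ) < m a then 1 else -1
  | ⟨Sum.inr (_, β), _⟩ => sgn β

theorem lep_lS (a : 𝒮) (x : Fin (2 * m a)) :
    lep m n hn (lS m n hn a x) = if (x : ℕ) < m a then 1 else -1 := rfl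

theorem lep_lK (k : 𝒦) (β : Bool) (x : Fin (n k)) : lep m n hn (lK m n hn k β x) = sgn β := rfl

theorem sgn_not (β : Bool) : sgn (!β) = -sgn β := by
  cases β
  · change (1 : ℂ) = - -1
    rw [neg_neg]
  · rfl

theorem sgn_ne (β : Bool) : sgn β ≠ 0 := by
  cases β
  · exact neg_ne_zero.2 one_ne_zero
  · exact one_ne_zero

/-- Each letter is of one of the two forms. -/
theorem letter_cases (x : Letter (lab m n hn)) :
    (∃ a x', x = lS m n hn a x') ∨ ∃ k β x', x = lK m n hn k β x' := by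
  obtain ⟨a | ⟨k, β⟩, x⟩ := x
  · exact Or.inl ⟨a, x, rfl⟩
  · exact Or.inr ⟨k, β, x, rfl⟩

theorem lep_dual (x : Letter (lab m n hn)) : lep m n hn (dual x) = -lep m n hn x := by
  rcases letter_cases m n hn x with ⟨a, y, rfl⟩ | ⟨k, β, y, rfl⟩
  · rw [dual_lS, lep_lS, lep_lS, Fin.val_rev]
    have := y.2
    by_cases h : (y : ℕ) < m a
    · rw [if_pos h, if_neg (by omega)]
    · rw [if_neg h, if_pos (by omega), neg_neg]
  · rw [dual_lK, lep_lK, lep_lK, sgn_not]

theorem lep_ne (x : Letter (lab m n hn)) : lep m n hn x ≠ 0 := by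
  rcases letter_cases m n hn x with ⟨a, y, rfl⟩ | ⟨k, β, y, rfl⟩
  · rw [lep_lS]
    split_ifs
    · exact one_ne_zero
    · exact neg_ne_zero.2 one_ne_zero
  · rw [lep_lK]
    exact sgn_ne β

/-- A sum over the letters. -/
theorem sum_letter [Fintype 𝒮] [Fintype 𝒦] {V : Type*} [AddCommMonoid V]
    (f : Letter (lab m n hn) → V) :
    ∑ x, f x = ∑ a, ∑ x, f (lS m n hn a x) + ∑ k, ∑ β : Bool, ∑ x, f (lK m n hn k β x) := by
  rw [Fintype.sum_sigma, Fintype.sum_sum_type, Fintype.sum_prod_type]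
  rfl

end

end Pool.Agent.Q60.D3
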