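import Mathlib
import Pool.Agent.Q60.D3.Lab

/-!
# Frames: bases and coordinates adapted to the classes of the pieces
-/

set_option linter.unusedSectionVars false
set_option linter.unusedVariables false

namespace Pool.Agent.Q60.D3

open Matrix Module Pool.Agent.H204R3.CM Pool.Agent.H204R3.SP Pool.Agent.W437.HC
  Pool.Agent.W437.HD Pool.Agent.W437.HP Pool.Agent.W437.HR Pool.Agent.Q59.GC

/-- The conjugates of the operator. -/
noncomputable def sD {B : Type} [Fintype B] [DecidableEq B] (D : Matrix B B ℂ) (σ : ℂ ≃+* ℂ) :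
    lieM D ℂ := ⟨D.map σ, map_mem_aut (D_mem D) (σ : ℂ →+* ℂ)⟩

/-- The set of the conjugates of the operator. -/
def CC {B : Type} [Fintype B] [DecidableEq B] (D : Matrix B B ℂ) : Set (lieM D ℂ) :=
  {X | ∃ σ, X = sD D σ}

/-- The pieces, with bases and coordinates adapted to the classes. -/
structure Frm {B : Type} [Fintype B] [DecidableEq B] (D : Matrix B B ℂ) {𝒮 𝒦 : Type} [Fintype 𝒮]
    [Fintype 𝒦] (N : 𝒮 → Type) [∀ a, AddCommGroup (N a)] [∀ a, Module ℂ (N a)]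
    (br : lieM D ℂ → lieM D ℂ → lieM D ℂ) (n : 𝒦 → ℕ) where
  s : Sys (lieM D ℂ) br N
  T : ∀ k, lieM D ℂ →ₗ[ℂ] Matrix (Fin (n k)) (Fin (n k)) ℂ
  hn : ∀ k, n k = 1 ∨ n k = 3
  inc : ∀ a, N a →ₗ[ℂ] (B → ℂ)
  prj : ∀ a, (B → ℂ) →ₗ[ℂ] N a
  hinc : ∀ a (X : lieM D ℂ) u, X.1 *ᵥ inc a u = inc a (s.ρ a X u)
  hprj : ∀ a (X : lieM D ℂ) y, prj a (X.1 *ᵥ y) = s.ρ a X (prj a y)
  zb : ∀ k, Bool → Fin (n k) → B → ℂ
  zc : ∀ k, Bool → Fin (n k) → ((B → ℂ) →ₗ[ℂ] ℂ)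
  hzb : ∀ k β c (X : lieM D ℂ), X.1 *ᵥ zb k β c = ∑ e, sA β (T k X) e c • zb k β e
  hzc : ∀ k β c (X : lieM D ℂ) y, zc k β c (X.1 *ᵥ y) = ∑ e, sA β (T k X) c e * zc k β e y
  hres : ∀ y, y = ∑ a, inc a (prj a y) + ∑ k, ∑ β : Bool, ∑ c, zc k β c y • zb k β c
  m : 𝒮 → ℕ
  e : ∀ q, Basis (Fin (2 * m q)) ℂ (N q)
  he : ∀ q x y, s.w q (e q x) (e q y) = if y = Fin.rev x then (if (x : ℕ) < m q then 1 else -1) else 0
  r : 𝒮 → 𝒮
  hr : ∀ a, r (r a) = r a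
  hrl : ∀ q a, r a ≠ q → r q = q → ¬ Lnk s q a
  Φ : ∀ q a, N q →ₗ[ℂ] N a
  Ψ : ∀ q a, N a →ₗ[ℂ] N q
  hΦ : ∀ q a X u, Φ q a (s.ρ q X u) = s.ρ a X (Φ q a u)
  hΨ : ∀ q a X u, Ψ q a (s.ρ a X u) = s.ρ q X (Ψ q a u)
  hΦw : ∀ q a, r a = q → ∀ x y, s.w a (Φ q a x) (Φ q a y) = s.w q x y
  hΦΨ : ∀ q a, r a = q → ∀ u, Φ q a (Ψ q a u) = u
  hΨΦ : ∀ q a, r a = q → ∀ u, Ψ q a (Φ q a u) = u
  hΦ0 : ∀ q a, r a ≠ q → Φ q a = 0
  hΨ0 : ∀ q a, r a ≠ q → Ψ q a = 0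
  t : 𝒦 → 𝒦
  ht : ∀ k, t (t k) = t k
  htl : ∀ q k, t k ≠ q → t q = q → ¬ Rel T (CC D) k q
  τ : ∀ q k, Matrix (Fin (n k)) (Fin (n q)) ℂ
  τ' : ∀ q k, Matrix (Fin (n q)) (Fin (n k)) ℂ
  hτ : ∀ q k, t k = q → RelM T (CC D) k q (τ q k) (τ' q k)
  hτ0 : ∀ q k, t k ≠ q → τ q k = 0
  hτ0' : ∀ q k, t k ≠ q → τ' q k = 0

section exist

variable {B : Type} [Fintype B] [DecidableEq B] {D : Matrix B B ℂ} {𝒮 𝒦 : Type} [Fintype 𝒮]
    [Fintype 𝒦] {N : 𝒮 → Type} [∀ a, AddCommGroup (N a)] [∀ a, Module ℂ (N a)]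
    [∀ a, FiniteDimensional ℂ (N a)] [∀ a, Nontrivial (N a)]
    {br : lieM D ℂ → lieM D ℂ → lieM D ℂ} {n : 𝒦 → ℕ}

/-- Existence of frames. -/
theorem exists_frm (hdarb : S_darb) (s : Sys (lieM D ℂ) br N)
    (T : ∀ k, lieM D ℂ →ₗ[ℂ] Matrix (Fin (n k)) (Fin (n k)) ℂ) (hn : ∀ k, n k = 1 ∨ n k = 3)
    (inc : ∀ a, N a →ₗ[ℂ] (B → ℂ)) (prj : ∀ a, (B → ℂ) →ₗ[ℂ] N a)
    (hinc : ∀ a (X : lieM D ℂ) u, X.1 *ᵥ inc a u = inc a (s.ρ a X u))
    (hprj : ∀ a (X : lieM D ℂ) y, prj a (X.1 *ᵥ y) = s.ρ a X (prj a y))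
    (zb : ∀ k, Bool → Fin (n k) → B → ℂ) (zc : ∀ k, Bool → Fin (n k) → ((B → ℂ) →ₗ[ℂ] ℂ))
    (hzb : ∀ k β c (X : lieM D ℂ), X.1 *ᵥ zb k β c = ∑ e, sA β (T k X) e c • zb k β e)
    (hzc : ∀ k β c (X : lieM D ℂ) y, zc k β c (X.1 *ᵥ y) = ∑ e, sA β (T k X) c e * zc k β e y)
    (hres : ∀ y, y = ∑ a, inc a (prj a y) + ∑ k, ∑ β : Bool, ∑ c, zc k β c y • zb k β c) :
    ∃ F : Frm D N br n, F.s = s ∧ F.T = T ∧ F.zb = zb ∧ F.zc = zc := by
  classical
  obtain ⟨r, hr1, hr2⟩ := exists_rep (lset s)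
  obtain ⟨t, ht1, ht2⟩ := exists_rep (rset T (CC D))
  choose m e he using fun q => hdarb (N q) (s.w q) (s.alt q) (s.nd q)
  have hF : ∀ (q : 𝒮) (a : 𝒮), ∃ (f : N q →ₗ[ℂ] N a) (f' : N a →ₗ[ℂ] N q),
      (∀ X u, f (s.ρ q X u) = s.ρ a X (f u)) ∧ (∀ X u, f' (s.ρ a X u) = s.ρ q X (f' u)) ∧
      (r a = q → (∀ x y, s.w a (f x) (f y) = s.w q x y) ∧
        (∀ u, f (f' u) = u) ∧ (∀ u, f' (f u) = u)) ∧
      (r a ≠ q → f = 0 ∧ f' = 0) := by
    intro q a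
    by_cases hq : r a = q
    · subst hq
      obtain ⟨f, h1, h2⟩ := hr1 a
      refine ⟨f, f.symm, h1, fun X u => ?_, fun _ => ⟨h2, fun u => f.apply_symm_apply u,
        fun u => f.symm_apply_apply u⟩, fun h => absurd rfl h⟩
      change f.symm _ = s.ρ (r a) X (f.symm u)
      rw [LinearEquiv.symm_apply_eq, h1, LinearEquiv.apply_symm_apply]
    · refine ⟨0, 0, fun X u => ?_, fun X u => ?_, fun h => absurd h hq, fun _ => ⟨rfl, rfl⟩⟩
      · simp
      · simp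
  choose Φ Ψ hΦ hΨ hΦΨ hΦ0 using hF
  have hG : ∀ (q k : 𝒦), ∃ (τ : Matrix (Fin (n k)) (Fin (n q)) ℂ)
      (τ' : Matrix (Fin (n q)) (Fin (n k)) ℂ),
      (t k = q → RelM T (CC D) k q τ τ') ∧ (t k ≠ q → τ = 0 ∧ τ' = 0) := by
    intro q k
    by_cases hq : t k = q
    · subst hq
      obtain ⟨τ, τ', h⟩ := (Rel.symm (ht1 k) : Rel T (CC D) k (t k))
      exact ⟨τ, τ', fun _ => h, fun h => absurd rfl h⟩
    · exact ⟨0, 0, fun h => absurd h hq, fun _ => ⟨rfl, rfl⟩⟩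
  choose τ τ' hτ hτ0 using hG
  let F : Frm D N br n :=
    { s := s
      T := T
      hn := hn
      inc := inc
      prj := prj
      hinc := hinc
      hprj := hprj
      zb := zb
      zc := zc
      hzb := hzb
      hzc := hzc
      hres := hres
      m := m
      e := e
      he := he
      r := r
      hr := fun a => hr2 _ _ (hr1 a)
      hrl := fun q a h1 h2 h3 => h1 (by rw [← h2]; exact (hr2 _ _ h3).symm)
      Φ := Φ
      Ψ := Ψ
      hΦ := hΦ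
      hΨ := hΨ
      hΦw := fun q a h => (hΦΨ q a h).1
      hΦΨ := fun q a h => (hΦΨ q a h).2.1
      hΨΦ := fun q a h => (hΦΨ q a h).2.2
      hΦ0 := fun q a h => (hΦ0 q a h).1
      hΨ0 := fun q a h => (hΦ0 q a h).2
      t := t
      ht := fun k => ht2 _ _ (ht1 k)
      htl := fun q k h1 h2 h3 => h1 (by rw [← h2]; exact ht2 _ _ h3)
      τ := τ
      τ' := τ'
      hτ := hτ
      hτ0 := fun q k h => (hτ0 q k h).1
      hτ0' := fun q k h => (hτ0 q k h).2 }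
  exact ⟨F, rfl, rfl, rfl, rfl⟩

end exist

namespace Frm

variable {B : Type} [Fintype B] [DecidableEq B] {D : Matrix B B ℂ} {𝒮 𝒦 : Type} [Fintype 𝒮]
    [Fintype 𝒦] {N : 𝒮 → Type} [∀ a, AddCommGroup (N a)] [∀ a, Module ℂ (N a)]
    {br : lieM D ℂ → lieM D ℂ → lieM D ℂ} {n : 𝒦 → ℕ} (F : Frm D N br n)

/-- The labels. -/
abbrev Lb : Labels 3 (𝒮 ⊕ 𝒦 × Bool) := lab F.m n F.hn

/-- The matrices for both signs. -/
noncomputable def th (β : Bool) (q k : 𝒦) : Matrix (Fin (n k)) (Fin (n q)) ℂ :=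
  match β with
  | true => F.τ q k
  | false => rt (F.τ' q k)

/-- The matrices for both signs. -/
noncomputable def th' (β : Bool) (q k : 𝒦) : Matrix (Fin (n q)) (Fin (n k)) ℂ :=
  match β with
  | true => F.τ' q k
  | false => rt (F.τ q k)

theorem th_true (q k : 𝒦) : F.th true q k = F.τ q k := rfl
theorem th_false (q k : 𝒦) : F.th false q k = rt (F.τ' q k) := rfl
theorem th'_true (q k : 𝒦) : F.th' true q k = F.τ' q k := rfl
theorem th'_false (q k : 𝒦) : F.th' false q k = rt (F.τ q k) := rfl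

theorem th_th' (β : Bool) (q k : 𝒦) (h : F.t k = q) : F.th β q k * F.th' β q k = 1 := by
  cases β
  · rw [th_false, th'_false, ← rt_mul, (F.hτ q k h).1, rt_one]
  · rw [th_true, th'_true, (F.hτ q k h).1]

theorem th'_th (β : Bool) (q k : 𝒦) (h : F.t k = q) : F.th' β q k * F.th β q k = 1 := by
  cases β
  · rw [th_false, th'_false, ← rt_mul, (F.hτ q k h).2.1, rt_one]
  · rw [th_true, th'_true, (F.hτ q k h).2.1]

theorem th_zero (β : Bool) (q k : 𝒦) (h : F.t k ≠ q) : F.th β q k = 0 := by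
  cases β
  · rw [th_false, F.hτ0' q k h, rt_zero]
  · rw [th_true, F.hτ0 q k h]

theorem th'_zero (β : Bool) (q k : 𝒦) (h : F.t k ≠ q) : F.th' β q k = 0 := by
  cases β
  · rw [th'_false, F.hτ0 q k h, rt_zero]
  · rw [th'_true, F.hτ0' q k h]

theorem th'_not (β : Bool) (q k : 𝒦) (x : Fin (n q)) (c : Fin (n k)) :
    F.th' (!β) q k x c = F.th β q k (Fin.rev c) (Fin.rev x) := by
  cases β
  · rw [Bool.not_false, th'_true, th_false, rt_apply, Fin.rev_rev, Fin.rev_rev]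
  · rw [Bool.not_true, th'_false, th_true, rt_apply]

/-- The intertwining property. -/
theorem th'_C (β : Bool) (q k : 𝒦) {X : lieM D ℂ} (hX : X ∈ CC D) :
    F.th' β q k * sA β (F.T k X) = sA β (F.T q X) * F.th' β q k := by
  by_cases h : F.t k = q
  · have h1 := (F.hτ q k h).2.2.2 X hX
    have h2 := (F.hτ q k h).symm.2.2.2 X hX
    cases β
    · rw [th'_false, sA_false, sA_false, Matrix.mul_neg, Matrix.neg_mul, ← rt_mul, h1, rt_mul]
    · rw [th'_true, sA_true, sA_true, h2]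
  · rw [F.th'_zero β q k h, Matrix.zero_mul, Matrix.mul_zero]

/-- Transport of an operator. -/
theorem th_of (β : Bool) (q k : 𝒦) (h : F.t k = q) {A : Matrix (Fin (n k)) (Fin (n k)) ℂ}
    {A' : Matrix (Fin (n q)) (Fin (n q)) ℂ} (hA : A = F.τ q k * A' * F.τ' q k) :
    sA β A * F.th β q k = F.th β q k * sA β A' := by
  cases β
  · rw [th_false, sA_false, sA_false, Matrix.mul_neg, Matrix.neg_mul, ← rt_mul, ← rt_mul, hA]
    congr 2
    rw [← Matrix.mul_assoc, ← Matrix.mul_assoc, (F.hτ q k h).2.1, Matrix.one_mul]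
  · rw [th_true, sA_true, sA_true, hA, Matrix.mul_assoc, (F.hτ q k h).2.1, Matrix.mul_one]

/-- The coordinates. -/
noncomputable def cof (a : 𝒮 ⊕ 𝒦 × Bool) (r : Letter F.Lb) : (B → ℂ) →ₗ[ℂ] ℂ :=
  match a, r with
  | Sum.inl a, ⟨Sum.inl q, x⟩ => (F.e q).coord x ∘ₗ F.Ψ q a ∘ₗ F.prj a
  | Sum.inl _, ⟨Sum.inr _, _⟩ => 0
  | Sum.inr _, ⟨Sum.inl _, _⟩ => 0
  | Sum.inr (k, β), ⟨Sum.inr (q, β'), x⟩ =>
    if β' = β then ∑ c, F.th' β q k x c • F.zc k β c else 0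

/-- The bases. -/
noncomputable def evf (a : 𝒮 ⊕ 𝒦 × Bool) (r : Letter F.Lb) : B → ℂ :=
  match a, r with
  | Sum.inl a, ⟨Sum.inl q, x⟩ => F.inc a (F.Φ q a (F.e q x))
  | Sum.inl _, ⟨Sum.inr _, _⟩ => 0
  | Sum.inr _, ⟨Sum.inl _, _⟩ => 0
  | Sum.inr (k, β), ⟨Sum.inr (q, β'), x⟩ =>
    if β' = β then ∑ c, F.th β q k c x • F.zb k β c else 0

/-- The letters. -/
abbrev LS (q : 𝒮) (x : Fin (2 * F.m q)) : Letter F.Lb := lS F.m n F.hn q x

/-- The letters. -/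
abbrev LK (q : 𝒦) (β : Bool) (x : Fin (n q)) : Letter F.Lb := lK F.m n F.hn q β x

theorem cof_SS (a q : 𝒮) (x) (y) : F.cof (Sum.inl a) (F.LS q x) y =
    (F.e q).repr (F.Ψ q a (F.prj a y)) x := rfl
theorem cof_SK (a : 𝒮) (q β x) : F.cof (Sum.inl a) (F.LK q β x) = 0 := rfl
theorem cof_KS (k β) (q : 𝒮) (x) : F.cof (Sum.inr (k, β)) (F.LS q x) = 0 := rfl
theorem cof_KK (k q : 𝒦) (β β') (x) : F.cof (Sum.inr (k, β)) (F.LK q β' x) =
    if β' = β then ∑ c, F.th' β q k x c • F.zc k β c else 0 := rfl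
theorem evf_SS (a q : 𝒮) (x) : F.evf (Sum.inl a) (F.LS q x) =
    F.inc a (F.Φ q a (F.e q x)) := rfl
theorem evf_SK (a : 𝒮) (q β x) : F.evf (Sum.inl a) (F.LK q β x) = 0 := rfl
theorem evf_KS (k β) (q : 𝒮) (x) : F.evf (Sum.inr (k, β)) (F.LS q x) = 0 := rfl
theorem evf_KK (k q : 𝒦) (β β') (x) : F.evf (Sum.inr (k, β)) (F.LK q β' x) =
    if β' = β then ∑ c, F.th β q k c x • F.zb k β c else 0 := rfl

theorem cof_KK' (k q : 𝒦) (β) (x) (y) : F.cof (Sum.inr (k, β)) (F.LK q β x) y =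
    ∑ c, F.th' β q k x c * F.zc k β c y := by
  rw [cof_KK, if_pos rfl, LinearMap.sum_apply]
  rfl

theorem cof_KK0 (k q : 𝒦) {β β'} (h : β' ≠ β) (x) : F.cof (Sum.inr (k, β)) (F.LK q β' x) = 0 := by
  rw [cof_KK, if_neg h]

theorem evf_KK' (k q : 𝒦) (β) (x) : F.evf (Sum.inr (k, β)) (F.LK q β x) =
    ∑ c, F.th β q k c x • F.zb k β c := by
  rw [evf_KK, if_pos rfl]

theorem evf_KK0 (k q : 𝒦) {β β'} (h : β' ≠ β) (x) : F.evf (Sum.inr (k, β)) (F.LK q β' x) = 0 := by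
  rw [evf_KK, if_neg h]

/-- The class of a piece. -/
def cls (a : 𝒮 ⊕ 𝒦 × Bool) : 𝒮 ⊕ 𝒦 × Bool :=
  match a with
  | Sum.inl a => Sum.inl (F.r a)
  | Sum.inr (k, β) => Sum.inr (F.t k, β)

theorem cof_cls (a : 𝒮 ⊕ 𝒦 × Bool) (r : Letter F.Lb) (h : r.1 ≠ F.cls a) : F.cof a r = 0 := by
  rcases letter_cases _ _ _ r with ⟨q, x, rfl⟩ | ⟨q, β', x, rfl⟩ <;> rcases a with a | ⟨k, β⟩
  · have h1 : F.r a ≠ q := fun h' => h (congrArg Sum.inl h'.symm)
    refine LinearMap.ext fun y => ?_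
    rw [cof_SS, F.hΨ0 q a h1, LinearMap.zero_apply, map_zero]
    rfl
  · rfl
  · rfl
  · by_cases hβ : β' = β
    · subst hβ
      have h1 : F.t k ≠ q := fun h' => h (congrArg (fun z => Sum.inr (z, β')) h'.symm)
      refine LinearMap.ext fun y => ?_
      rw [cof_KK', F.th'_zero _ _ _ h1]
      simp
    · exact F.cof_KK0 k q hβ x

theorem evf_cls (a : 𝒮 ⊕ 𝒦 × Bool) (r : Letter F.Lb) (h : r.1 ≠ F.cls a) : F.evf a r = 0 := by
  rcases letter_cases _ _ _ r with ⟨q, x, rfl⟩ | ⟨q, β', x, rfl⟩ <;> rcases a with a | ⟨k, β⟩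
  · have h1 : F.r a ≠ q := fun h' => h (congrArg Sum.inl h'.symm)
    rw [evf_SS, F.hΦ0 q a h1, LinearMap.zero_apply, map_zero]
  · rfl
  · rfl
  · by_cases hβ : β' = β
    · subst hβ
      have h1 : F.t k ≠ q := fun h' => h (congrArg (fun z => Sum.inr (z, β')) h'.symm)
      rw [evf_KK', F.th_zero _ _ _ h1]
      simp
    · exact F.evf_KK0 k q hβ x

/-- The expansion of a vector. -/
theorem expand (y : B → ℂ) : y = ∑ a, ∑ r, F.cof a r y • F.evf a r := by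
  classical
  conv_lhs => rw [F.hres y]
  rw [Fintype.sum_sum_type, Fintype.sum_prod_type]
  congr 1
  · refine Finset.sum_congr rfl fun a _ => ?_
    rw [sum_letter]
    have h1 : ∑ k, ∑ β : Bool, ∑ x, F.cof (Sum.inl a) (lK F.m n F.hn k β x) y •
        F.evf (Sum.inl a) (lK F.m n F.hn k β x) = 0 := by
      refine Finset.sum_eq_zero fun k _ => Finset.sum_eq_zero fun β _ =>
        Finset.sum_eq_zero fun x _ => ?_
      rw [F.evf_SK, smul_zero]
    rw [h1, add_zero, Finset.sum_eq_single (F.r a)]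
    · have h2 : ∀ x, F.cof (Sum.inl a) (lS F.m n F.hn (F.r a) x) y •
          F.evf (Sum.inl a) (lS F.m n F.hn (F.r a) x) =
          F.inc a (F.Φ (F.r a) a (((F.e (F.r a)).repr (F.Ψ (F.r a) a (F.prj a y)) x) •
            F.e (F.r a) x)) := by
        intro x
        rw [F.cof_SS, F.evf_SS, map_smul, map_smul]
      rw [Finset.sum_congr rfl fun x _ => h2 x, ← map_sum, ← map_sum, (F.e (F.r a)).sum_repr,
        F.hΦΨ _ a rfl]
    · intro q _ hq
      refine Finset.sum_eq_zero fun x _ => ?_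
      rw [F.evf_SS, F.hΦ0 q a (Ne.symm hq), LinearMap.zero_apply, map_zero, smul_zero]
    · intro h
      exact absurd (Finset.mem_univ _) h
  · refine Finset.sum_congr rfl fun k _ => Finset.sum_congr rfl fun β _ => ?_
    rw [sum_letter]
    have h1 : ∑ q, ∑ x, F.cof (Sum.inr (k, β)) (lS F.m n F.hn q x) y •
        F.evf (Sum.inr (k, β)) (lS F.m n F.hn q x) = 0 := by
      refine Finset.sum_eq_zero fun q _ => Finset.sum_eq_zero fun x _ => ?_
      rw [F.evf_KS, smul_zero]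
    rw [h1, zero_add, Finset.sum_eq_single (F.t k)]
    · rw [Finset.sum_eq_single β]
      · have h2 : ∀ x, F.cof (Sum.inr (k, β)) (lK F.m n F.hn (F.t k) β x) y •
            F.evf (Sum.inr (k, β)) (lK F.m n F.hn (F.t k) β x) =
            ∑ c, ∑ c', (F.th β (F.t k) k c' x * F.th' β (F.t k) k x c) •
              (F.zc k β c y • F.zb k β c') := by
          intro x
          rw [F.cof_KK', F.evf_KK', Finset.sum_smul]
          refine Finset.sum_congr rfl fun c _ => ?_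
          rw [Finset.smul_sum]
          refine Finset.sum_congr rfl fun c' _ => ?_
          rw [smul_smul, smul_smul]
          congr 1
          ring
        rw [Finset.sum_congr rfl fun x _ => h2 x, Finset.sum_comm]
        refine Finset.sum_congr rfl fun c _ => ?_
        rw [Finset.sum_comm]
        have h3 : ∀ c', ∑ x, (F.th β (F.t k) k c' x * F.th' β (F.t k) k x c) •
            (F.zc k β c y • F.zb k β c') =
            ((1 : Matrix (Fin (n k)) (Fin (n k)) ℂ) c' c) • (F.zc k β c y • F.zb k β c') := by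
          intro c'
          rw [← Finset.sum_smul, ← F.th_th' β (F.t k) k rfl, Matrix.mul_apply]
        rw [Finset.sum_congr rfl fun c' _ => h3 c', Finset.sum_eq_single c]
        · rw [Matrix.one_apply_eq, one_smul]
        · intro c' _ hc
          rw [Matrix.one_apply_ne hc, zero_smul]
        · intro h
          exact absurd (Finset.mem_univ _) h
      · intro β' _ hβ
        refine Finset.sum_eq_zero fun x _ => ?_
        rw [F.evf_KK0 k _ hβ, smul_zero]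
      · intro h
        exact absurd (Finset.mem_univ _) h
    · intro q _ hq
      refine Finset.sum_eq_zero fun β' _ => Finset.sum_eq_zero fun x _ => ?_
      rw [F.evf_cls (Sum.inr (k, β)) (lK F.m n F.hn q β' x), smul_zero]
      intro h'
      apply hq
      have h'' : (Sum.inr (q, β') : 𝒮 ⊕ 𝒦 × Bool) = Sum.inr (F.t k, β) := h'
      exact congrArg Prod.fst (Sum.inr_injective h'')
    · intro h
      exact absurd (Finset.mem_univ _) h

/-- The action of the Lie algebra on the bases. -/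
theorem act_evf_S (X : lieM D ℂ) (a q : 𝒮) (x) : X.1 *ᵥ F.evf (Sum.inl a) (F.LS q x) =
    F.inc a (F.s.ρ a X (F.Φ q a (F.e q x))) := by
  rw [evf_SS, F.hinc]

theorem act_evf_K (X : lieM D ℂ) (k q : 𝒦) (β) (x) :
    X.1 *ᵥ F.evf (Sum.inr (k, β)) (F.LK q β x) =
    ∑ c, (sA β (F.T k X) * F.th β q k) c x • F.zb k β c := by
  rw [evf_KK', mulVec_sum]
  have h1 : ∀ c, X.1 *ᵥ (F.th β q k c x • F.zb k β c) =
      ∑ e, (sA β (F.T k X) e c * F.th β q k c x) • F.zb k β e := by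
    intro c
    rw [mulVec_smul, F.hzb, Finset.smul_sum]
    refine Finset.sum_congr rfl fun e _ => ?_
    rw [smul_smul, mul_comm]
  rw [Finset.sum_congr rfl fun c _ => h1 c, Finset.sum_comm]
  refine Finset.sum_congr rfl fun e _ => ?_
  rw [← Finset.sum_smul, Matrix.mul_apply]

end Frm

end Pool.Agent.Q60.D3
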