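import Mathlib
import Pool.Agent.Q60.D3.Frm

/-!
# The expansion of a Hodge tensor
-/

set_option linter.unusedSectionVars false
set_option linter.unusedVariables false

namespace Pool.Agent.Q60.D3

open Matrix Module Pool.Agent.H204R3.CM Pool.Agent.H204R3.SP Pool.Agent.W437.HC
  Pool.Agent.W437.HD Pool.Agent.W437.HP Pool.Agent.W437.HR Pool.Agent.Q59.GC

namespace Frm

variable {B : Type} [Fintype B] [DecidableEq B] {D : Matrix B B ℂ} {𝒮 𝒦 : Type} [Fintype 𝒮]
    [Fintype 𝒦] [DecidableEq 𝒮] [DecidableEq 𝒦] {N : 𝒮 → Type} [∀ a, AddCommGroup (N a)] [∀ a, Module ℂ (N a)]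
    [∀ a, FiniteDimensional ℂ (N a)] [∀ a, Nontrivial (N a)]
    {br : lieM D ℂ → lieM D ℂ → lieM D ℂ} {n : 𝒦 → ℕ} (F : Frm D N br n)

/-- The signs. -/
noncomputable abbrev ep (x : Letter F.Lb) : ℂ := lep F.m n F.hn x

theorem JJ_eq (x y : Letter F.Lb) (h : y = dual x) : JJ dual F.ep x y = F.ep x := by
  unfold JJ
  rw [if_pos h]

theorem JJ_ne (x y : Letter F.Lb) (h : y ≠ dual x) : JJ dual F.ep x y = 0 := by
  unfold JJ
  rw [if_neg h]

theorem LS_inj {q : 𝒮} {x y : Fin (2 * F.m q)} (h : F.LS q x = F.LS q y) : x = y :=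
  eq_of_heq (Sigma.mk.inj_iff.mp h).2

theorem LK_inj {q : 𝒦} {β : Bool} {x y : Fin (n q)} (h : F.LK q β x = F.LK q β y) : x = y :=
  eq_of_heq (Sigma.mk.inj_iff.mp h).2

theorem ne_SK {q : 𝒮} {x} {k : 𝒦} {β} {y} : F.LS q x ≠ F.LK k β y := by
  intro h
  have h1 := congrArg Sigma.fst h
  exact absurd h1 (by exact Sum.inl_ne_inr)

theorem ne_KS {q : 𝒮} {x} {k : 𝒦} {β} {y} : F.LK k β y ≠ F.LS q x := fun h => F.ne_SK h.symm

theorem ne_S {q p : 𝒮} {x y} (h : q ≠ p) : F.LS q x ≠ F.LS p y := by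
  intro h1
  exact h (Sum.inl_injective (congrArg Sigma.fst h1))

theorem ne_K {q p : 𝒦} {β β'} {x y} (h : q ≠ p) : F.LK q β x ≠ F.LK p β' y := by
  intro h1
  exact h (congrArg Prod.fst (Sum.inr_injective (congrArg Sigma.fst h1)))

theorem ne_B {q p : 𝒦} {β β'} {x y} (h : β ≠ β') : F.LK q β x ≠ F.LK p β' y := by
  intro h1
  exact h (congrArg Prod.snd (Sum.inr_injective (congrArg Sigma.fst h1)))

theorem JJ_S (q : 𝒮) (x y : Fin (2 * F.m q)) :
    JJ dual F.ep (F.LS q x) (F.LS q y) = F.s.w q (F.e q x) (F.e q y) := by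
  rw [F.he]
  by_cases h : y = Fin.rev x
  · rw [if_pos h, F.JJ_eq _ _ (by rw [h, dual_lS])]
    rfl
  · rw [if_neg h, F.JJ_ne]
    intro h1
    rw [dual_lS] at h1
    exact h (F.LS_inj h1)

/-- The lifts of the symplectic operators. -/
theorem lift_S (hL : Lifts F.s F.T (CC D)) (q : 𝒮) (x y : Fin (2 * F.m q)) :
    ∃ X ∈ lieM D ℂ, ∀ a r, X *ᵥ F.evf a r = JJ dual F.ep (F.LS q y) r • F.evf a (F.LS q x) +
      JJ dual F.ep (F.LS q x) r • F.evf a (F.LS q y) := by
  by_cases hq : F.r q = q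
  swap
  · refine ⟨0, Submodule.zero_mem _, fun a r => ?_⟩
    have h1 : ∀ z, F.evf a (F.LS q z) = 0 := by
      intro z
      rcases a with a | ⟨k, β⟩
      · rw [evf_SS, F.hΦ0 q a fun h => hq (by rw [← h, F.hr]), LinearMap.zero_apply, map_zero]
      · rfl
    rw [zero_mulVec, h1, h1, smul_zero, smul_zero, add_zero]
  obtain ⟨X, hX1, hX2, hX3, hX4⟩ := hL.1 q (F.e q x) (F.e q y)
  refine ⟨X.1, X.2, fun a r => ?_⟩
  rcases letter_cases _ _ _ r with ⟨p, z, rfl⟩ | ⟨p, β', z, rfl⟩ <;> rcases a with a | ⟨k, β⟩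
  · rw [F.act_evf_S]
    by_cases ha : F.r a = q
    · by_cases hp : p = q
      · subst hp
        rw [F.JJ_S, F.JJ_S]
        let f : N p ≃ₗ[ℂ] N a := LinearEquiv.ofLinearMap (F.Φ p a) (F.Ψ p a)
          (LinearMap.ext fun u => F.hΦΨ p a ha u) (LinearMap.ext fun u => F.hΨΦ p a ha u)
        have h8 := hX3 a f (F.hΦ p a) (F.hΦw p a ha)
        have hf : ∀ u, f u = F.Φ p a u := fun u => rfl
        rw [hf, hf] at h8
        rw [h8, EE_apply, F.hΦw p a ha, F.hΦw p a ha, map_add, map_smul, map_smul]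
        rfl
      · have h1 : ∀ z', JJ dual F.ep (F.LS q z') (lS F.m n F.hn p z) = 0 := by
          intro z'
          rw [F.JJ_ne]
          rw [dual_lS]
          exact F.ne_S hp
        rw [h1, h1, F.hΦ0 p a fun h => hp (h.symm.trans ha), LinearMap.zero_apply, map_zero,
          map_zero, zero_smul, zero_smul, add_zero]
    · rw [hX2 a (F.hrl q a ha hq), evf_SS, evf_SS, F.hΦ0 q a ha]
      simp
  · rw [F.evf_KS, F.evf_KS, F.evf_KS, mulVec_zero, smul_zero, smul_zero, add_zero]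
  · have h1 : ∀ z', JJ dual F.ep (F.LS q z') (lK F.m n F.hn p β' z) = 0 := by
      intro z'
      rw [F.JJ_ne]
      rw [dual_lS]
      exact F.ne_KS
    rw [F.evf_SK, h1, h1, mulVec_zero, zero_smul, zero_smul, add_zero]
  · by_cases hβ : β' = β
    · subst hβ
      rw [F.act_evf_K, hX4 k, sA_zero, Matrix.zero_mul, F.evf_KS, F.evf_KS, smul_zero, smul_zero,
        add_zero]
      simp
    · rw [F.evf_KK0 k p hβ, F.evf_KS, F.evf_KS, mulVec_zero, smul_zero, smul_zero, add_zero]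

/-- The lifts of the elementary matrices. -/
theorem lift_K (hL : Lifts F.s F.T (CC D)) (q : 𝒦) (x y : Fin (n q)) (hxy : y ≠ Fin.rev x) :
    ∃ X ∈ lieM D ℂ, ∀ a r, X *ᵥ F.evf a r =
      JJ dual F.ep (F.LK q false y) r • F.evf a (F.LK q true x) +
      JJ dual F.ep (F.LK q true x) r • F.evf a (F.LK q false y) := by
  by_cases hq : F.t q = q
  swap
  · refine ⟨0, Submodule.zero_mem _, fun a r => ?_⟩
    have h1 : ∀ β' z, F.evf a (F.LK q β' z) = 0 := by
      intro β' z
      rcases a with a | ⟨k, β⟩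
      · rfl
      · by_cases hβ : β' = β
        · subst hβ
          rw [evf_KK', F.th_zero _ q k fun h => hq (by rw [← h, F.ht])]
          simp
        · exact F.evf_KK0 k q hβ z
    rw [zero_mulVec, h1, h1, smul_zero, smul_zero, add_zero]
  obtain ⟨X, hX1, hX2, hX3⟩ := hL.2 q (-Matrix.single x (Fin.rev y) 1) (by
    rw [trace_neg, Matrix.trace_single_eq_of_ne, neg_zero]
    intro h
    exact hxy (by rw [h, Fin.rev_rev]))
  refine ⟨X.1, X.2, fun a r => ?_⟩
  have hJ1 : ∀ (p : 𝒦) (β' : Bool) (z : Fin (n p)), (p ≠ q ∨ β' = false) →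
      JJ dual F.ep (F.LK q false y) (lK F.m n F.hn p β' z) = 0 := by
    intro p β' z h
    rw [F.JJ_ne]
    rw [dual_lK]
    rcases h with h | h
    · exact F.ne_K h
    · rw [h]
      exact F.ne_B Bool.false_ne_true
  have hJ2 : ∀ (p : 𝒦) (β' : Bool) (z : Fin (n p)), (p ≠ q ∨ β' = true) →
      JJ dual F.ep (F.LK q true x) (lK F.m n F.hn p β' z) = 0 := by
    intro p β' z h
    rw [F.JJ_ne]
    rw [dual_lK]
    rcases h with h | h
    · exact F.ne_K h
    · rw [h]
      exact F.ne_B fun h => Bool.false_ne_true h.symm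
  rcases letter_cases _ _ _ r with ⟨p, z, rfl⟩ | ⟨p, β', z, rfl⟩ <;> rcases a with a | ⟨k, β⟩
  · rw [F.act_evf_S, hX3, F.evf_SK, F.evf_SK, LinearMap.zero_apply, map_zero, smul_zero, smul_zero,
      add_zero]
  · have h1 : JJ dual F.ep (F.LK q false y) (lS F.m n F.hn p z) = 0 := by
      rw [F.JJ_ne]
      rw [dual_lK]
      exact F.ne_SK
    have h2 : JJ dual F.ep (F.LK q true x) (lS F.m n F.hn p z) = 0 := by
      rw [F.JJ_ne]
      rw [dual_lK]
      exact F.ne_SK
    rw [F.evf_KS, h1, h2, mulVec_zero, zero_smul, zero_smul, add_zero]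
  · rw [F.evf_SK, F.evf_SK, F.evf_SK, mulVec_zero, smul_zero, smul_zero, add_zero]
  · by_cases hβ : β' = β
    swap
    · rw [F.evf_KK0 k p hβ, mulVec_zero]
      cases β'
      · rw [hJ1 p false z (Or.inr rfl), zero_smul, zero_add, F.evf_KK0 k q hβ, smul_zero]
      · rw [hJ2 p true z (Or.inr rfl), zero_smul, add_zero, F.evf_KK0 k q hβ, smul_zero]
    subst hβ
    rw [F.act_evf_K]
    by_cases hk : F.t k = q
    swap
    · have h1 : F.T k X = 0 := hX2 k (F.htl q k hk hq)
      have h2 : ∀ β'' z, F.evf (Sum.inr (k, β')) (F.LK q β'' z) = 0 := by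
        intro β'' z
        by_cases hβ : β'' = β'
        · subst hβ
          rw [evf_KK', F.th_zero _ q k hk]
          simp
        · exact F.evf_KK0 k q hβ z
      rw [h1, sA_zero, Matrix.zero_mul, h2, h2, smul_zero, smul_zero, add_zero]
      simp
    by_cases hp : p = q
    swap
    · have h1 : F.th β' p k = 0 := F.th_zero _ p k fun h => hp (h.symm.trans hk)
      rw [h1, Matrix.mul_zero, hJ1 p β' z (Or.inl hp), hJ2 p β' z (Or.inl hp), zero_smul,
        zero_smul, add_zero]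
      simp
    subst hp
    have h1 := F.th_of β' p k hk (hX1 k _ _ (F.hτ p k hk))
    rw [h1]
    cases β'
    · rw [hJ1 p false z (Or.inr rfl), zero_smul, zero_add, F.evf_KK']
      have h2 : sA false (-Matrix.single x (Fin.rev y) (1 : ℂ)) =
          Matrix.single y (Fin.rev x) 1 := by
        rw [sA_false]
        have : rt (-Matrix.single x (Fin.rev y) (1 : ℂ)) = -rt (Matrix.single x (Fin.rev y) 1) := rfl
        rw [this, neg_neg, rt_single, Fin.rev_rev]
      rw [h2]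
      by_cases hz : z = Fin.rev x
      · subst hz
        rw [F.JJ_eq _ _ (by rw [dual_lK]; rfl)]
        change _ = sgn true • _
        rw [show sgn true = 1 from rfl, one_smul]
        refine Finset.sum_congr rfl fun c _ => ?_
        rw [Matrix.mul_single_apply_same, mul_one]
      · rw [F.JJ_ne, zero_smul]
        · refine Finset.sum_eq_zero fun c _ => ?_
          rw [Matrix.mul_single_apply_of_ne _ _ _ _ _ hz, zero_smul]
        · intro h
          rw [dual_lK] at h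
          exact hz (F.LK_inj h)
    · rw [hJ2 p true z (Or.inr rfl), zero_smul, add_zero, F.evf_KK', sA_true, Matrix.mul_neg]
      by_cases hz : z = Fin.rev y
      · subst hz
        rw [F.JJ_eq _ _ (by rw [dual_lK]; rfl)]
        change _ = sgn false • _
        rw [show sgn false = -1 from rfl, neg_one_smul, ← Finset.sum_neg_distrib]
        refine Finset.sum_congr rfl fun c _ => ?_
        rw [Matrix.neg_apply, Matrix.mul_single_apply_same, mul_one, neg_smul]
      · rw [F.JJ_ne, zero_smul]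
        · refine Finset.sum_eq_zero fun c _ => ?_
          rw [Matrix.neg_apply, Matrix.mul_single_apply_of_ne _ _ _ _ _ hz, neg_zero, zero_smul]
        · intro h
          rw [dual_lK] at h
          exact hz (F.LK_inj h)

/-- The weights of the labels. -/
noncomputable def wt (i : 𝒮 ⊕ 𝒦 × Bool) (σ : ℂ ≃+* ℂ) : ℂ :=
  match i with
  | Sum.inl _ => 0
  | Sum.inr (k, β) => sgn β * ((F.T k (sD D σ)).trace / n k)

theorem wt_inl (a : 𝒮) (σ) : F.wt (Sum.inl a) σ = 0 := rfl
theorem wt_inr (k : 𝒦) (β) (σ) :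
    F.wt (Sum.inr (k, β)) σ = sgn β * ((F.T k (sD D σ)).trace / n k) := rfl

/-- The elements which act by the weights. -/
theorem exists_wt (hL : Lifts F.s F.T (CC D)) (hsps : S_sps) (σ : ℂ ≃+* ℂ) :
    ∃ X ∈ lieM D ℂ, ∀ a (r : Letter F.Lb), X *ᵥ F.evf a r = F.wt r.1 σ • F.evf a r := by
  obtain ⟨X, hX1, hX2⟩ := lift_scal F.s F.T (CC D) hL hsps F.hn (sD D σ)
  refine ⟨X.1, X.2, fun a r => ?_⟩
  rcases letter_cases _ _ _ r with ⟨p, z, rfl⟩ | ⟨p, β', z, rfl⟩ <;> rcases a with a | ⟨k, β⟩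
  · rw [F.act_evf_S, hX1, LinearMap.zero_apply, map_zero]
    change _ = (0 : ℂ) • _
    rw [zero_smul]
  · rw [F.evf_KS, mulVec_zero, smul_zero]
  · rw [F.evf_SK, mulVec_zero, smul_zero]
  · by_cases hβ : β' = β
    swap
    · rw [F.evf_KK0 k p hβ, mulVec_zero, smul_zero]
    subst hβ
    by_cases hk : F.t k = p
    swap
    · have h1 : F.evf (Sum.inr (k, β')) (F.LK p β' z) = 0 := by
        rw [evf_KK', F.th_zero _ p k hk]
        simp
      rw [h1, mulVec_zero, smul_zero]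
    rw [F.act_evf_K, hX2, sA_smul_one, Matrix.smul_mul, Matrix.one_mul, F.evf_KK', Finset.smul_sum]
    refine Finset.sum_congr rfl fun c _ => ?_
    rw [Matrix.smul_apply, smul_eq_mul, ← smul_smul, (F.hτ p k hk).traceC ⟨σ, rfl⟩,
      (F.hτ p k hk).trace]
    rfl

/-- The equivariance of the coordinates. -/
theorem cof_C (a : 𝒮 ⊕ 𝒦 × Bool) (q : 𝒦) (β : Bool) (x : Fin (n q)) {X : lieM D ℂ}
    (hX : X ∈ CC D) (y : B → ℂ) : F.cof a (F.LK q β x) (X.1 *ᵥ y) =
      ∑ z, sA β (F.T q X) x z * F.cof a (F.LK q β z) y := by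
  rcases a with a | ⟨k, β'⟩
  · simp only [F.cof_SK, LinearMap.zero_apply, mul_zero, Finset.sum_const_zero]
  · by_cases hβ : β = β'
    swap
    · simp only [F.cof_KK0 k q hβ, LinearMap.zero_apply, mul_zero, Finset.sum_const_zero]
    subst hβ
    simp only [F.cof_KK', F.hzc, Finset.mul_sum]
    have h1 : ∀ e, ∑ c, F.th' β q k x c * (sA β (F.T k X) c e * F.zc k β e y) =
        ∑ z, sA β (F.T q X) x z * (F.th' β q k z e * F.zc k β e y) := by
      intro e
      have h2 := congrFun (congrFun (F.th'_C β q k hX) x) e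
      rw [Matrix.mul_apply, Matrix.mul_apply] at h2
      simp only [← mul_assoc, ← Finset.sum_mul]
      rw [h2]
    rw [Finset.sum_comm, Finset.sum_congr rfl fun e _ => h1 e, Finset.sum_comm]

/-- The pairings. -/
noncomputable def prG (a a' : 𝒮 ⊕ 𝒦 × Bool) (ν : 𝒮 ⊕ 𝒦 × Bool) (y y' : B → ℂ) : ℂ :=
  ∑ x : Fin (F.Lb.dim ν), F.ep ⟨ν, x⟩ * (F.cof a ⟨ν, x⟩ y * F.cof a' (dual ⟨ν, x⟩) y')

/-- The pairings are invariant. -/
theorem prG_C (a a' ν : 𝒮 ⊕ 𝒦 × Bool) {X : lieM D ℂ} (hX : X ∈ CC D) (y y' : B → ℂ) :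
    F.prG a a' ν (X.1 *ᵥ y) y' + F.prG a a' ν y (X.1 *ᵥ y') = 0 := by
  rcases ν with q | ⟨q, β⟩
  · have hd : ∀ x : Fin (2 * F.m q), dual (⟨Sum.inl q, x⟩ : Letter F.Lb) =
        F.LS q (Fin.rev x) := fun x => dual_lS _ _ _ q x
    rcases a with a | p
    swap
    · have h1 : ∀ y y', F.prG (Sum.inr p) a' (Sum.inl q) y y' = 0 := by
        intro y y'
        refine Finset.sum_eq_zero fun x _ => ?_
        have h2 : F.cof (Sum.inr p) (F.LS q x) = 0 := rfl
        change _ * (F.cof (Sum.inr p) (F.LS q x) y * _) = 0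
        rw [h2, LinearMap.zero_apply, zero_mul, mul_zero]
      rw [h1, h1, add_zero]
    rcases a' with a' | p
    swap
    · have h1 : ∀ y y', F.prG (Sum.inl a) (Sum.inr p) (Sum.inl q) y y' = 0 := by
        intro y y'
        refine Finset.sum_eq_zero fun (x : Fin (2 * F.m q)) _ => ?_
        have h2 : F.cof (Sum.inr p) (F.LS q (Fin.rev x)) = 0 := rfl
        have h3 := hd x
        change _ * (_ * F.cof (Sum.inr p) (dual (⟨Sum.inl q, x⟩ : Letter F.Lb)) _) = 0
        rw [h3, h2, LinearMap.zero_apply, mul_zero, mul_zero]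
      rw [h1, h1, add_zero]
    have h1 : ∀ y y', F.prG (Sum.inl a) (Sum.inl a') (Sum.inl q) y y' =
        F.s.w q (F.Ψ q a (F.prj a y)) (F.Ψ q a' (F.prj a' y')) := by
      intro y y'
      conv_rhs => rw [← (F.e q).sum_repr (F.Ψ q a (F.prj a y)),
        ← (F.e q).sum_repr (F.Ψ q a' (F.prj a' y'))]
      rw [LinearMap.map_sum₂]
      refine Finset.sum_congr rfl fun (x : Fin (2 * F.m q)) _ => ?_
      have h3 := hd x
      change (if (x : ℕ) < F.m q then (1 : ℂ) else -1) * ((F.e q).repr (F.Ψ q a (F.prj a y)) x *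
          F.cof (Sum.inl a') (dual (⟨Sum.inl q, x⟩ : Letter F.Lb)) y') = _
      rw [h3, map_sum, Finset.sum_eq_single (Fin.rev x)]
      · rw [map_smul, map_smul, LinearMap.smul_apply, smul_eq_mul, smul_eq_mul, F.he, if_pos rfl]
        change (if (x : ℕ) < F.m q then (1 : ℂ) else -1) * ((F.e q).repr (F.Ψ q a (F.prj a y)) x *
          (F.e q).repr (F.Ψ q a' (F.prj a' y')) (Fin.rev x)) = _
        ring
      · intro z _ hz
        rw [map_smul, map_smul, LinearMap.smul_apply, F.he, if_neg hz, smul_zero, smul_zero]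
      · intro h
        exact absurd (Finset.mem_univ _) h
    rw [h1, h1, F.hprj, F.hprj, F.hΨ, F.hΨ, F.s.sp, neg_add_cancel]
  · have hd : ∀ x : Fin (n q), dual (⟨Sum.inr (q, β), x⟩ : Letter F.Lb) =
        F.LK q (!β) (Fin.rev x) := fun x => dual_lK _ _ _ q β x
    have h1 : ∀ y y', F.prG a a' (Sum.inr (q, β)) y y' =
        sgn β * ∑ x, F.cof a (F.LK q β x) y * F.cof a' (F.LK q (!β) (Fin.rev x)) y' := by
      intro y y'
      unfold prG
      rw [Finset.mul_sum]
      refine Finset.sum_congr rfl fun (x : Fin (n q)) _ => ?_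
      have h3 := hd x
      change sgn β * (F.cof a (F.LK q β x) y *
        F.cof a' (dual (⟨Sum.inr (q, β), x⟩ : Letter F.Lb)) y') = _
      rw [h3]
    rw [h1, h1, ← mul_add]
    have h2 : ∑ x, F.cof a (F.LK q β x) (X.1 *ᵥ y) * F.cof a' (F.LK q (!β) (Fin.rev x)) y' =
        ∑ x, ∑ z, sA β (F.T q X) x z * (F.cof a (F.LK q β z) y *
          F.cof a' (F.LK q (!β) (Fin.rev x)) y') := by
      refine Finset.sum_congr rfl fun x _ => ?_
      rw [F.cof_C a q β x hX, Finset.sum_mul]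
      exact Finset.sum_congr rfl fun z _ => mul_assoc _ _ _
    have h3 : ∑ x, F.cof a (F.LK q β x) y * F.cof a' (F.LK q (!β) (Fin.rev x)) (X.1 *ᵥ y') =
        ∑ x, ∑ z, -(sA β (F.T q X) z x * (F.cof a (F.LK q β x) y *
          F.cof a' (F.LK q (!β) (Fin.rev z)) y')) := by
      refine Finset.sum_congr rfl fun x _ => ?_
      rw [F.cof_C a' q (!β) _ hX, Finset.mul_sum, ← sum_revF]
      refine Finset.sum_congr rfl fun z _ => ?_
      rw [sA_not, Fin.rev_rev, Fin.rev_rev]
      ring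
    have h4 : ∑ x, F.cof a (F.LK q β x) (X.1 *ᵥ y) * F.cof a' (F.LK q (!β) (Fin.rev x)) y' +
        ∑ x, F.cof a (F.LK q β x) y * F.cof a' (F.LK q (!β) (Fin.rev x)) (X.1 *ᵥ y') = 0 := by
      rw [h2, h3, Finset.sum_comm, ← Finset.sum_add_distrib]
      refine Finset.sum_eq_zero fun x _ => ?_
      rw [← Finset.sum_add_distrib]
      exact Finset.sum_eq_zero fun z _ => add_neg_cancel _
    rw [h4, mul_zero]

end Frm

end Pool.Agent.Q60.D3
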