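import Mathlib
import Pool.Agent.Q60.D3.FrmExp

/-!
# The expansion of a Hodge tensor, second part
-/

set_option linter.unusedSectionVars false
set_option linter.unusedVariables false

namespace Pool.Agent.Q60.D3

open Matrix Module Pool.Agent.H204R3.CM Pool.Agent.H204R3.SP Pool.Agent.W437.HC
  Pool.Agent.W437.HD Pool.Agent.W437.HP Pool.Agent.W437.HR Pool.Agent.Q59.GC

/-- A linear function is determined by its values on the basis. -/
theorem lin_sum {B : Type*} [Fintype B] [DecidableEq B] (f : (B → ℂ) →ₗ[ℂ] ℂ) (y : B → ℂ) :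
    f y = ∑ i, y i * f (Pi.single i 1) := by
  have h1 : y = ∑ i, y i • (Pi.single i 1 : B → ℂ) := by
    funext j
    rw [Finset.sum_apply, Finset.sum_eq_single j]
    · simp
    · intro b _ hb
      rw [Pi.smul_apply, Pi.single_eq_of_ne (Ne.symm hb), smul_zero]
    · intro h
      exact absurd (Finset.mem_univ _) h
  conv_lhs => rw [h1]
  rw [map_sum]
  exact Finset.sum_congr rfl fun i _ => by rw [map_smul, smul_eq_mul]

namespace Frm

variable {B : Type} [Fintype B] [DecidableEq B] {D : Matrix B B ℂ} {𝒮 𝒦 : Type} [Fintype 𝒮]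
    [Fintype 𝒦] [DecidableEq 𝒮] [DecidableEq 𝒦] {N : 𝒮 → Type} [∀ a, AddCommGroup (N a)]
    [∀ a, Module ℂ (N a)] [∀ a, FiniteDimensional ℂ (N a)] [∀ a, Nontrivial (N a)]
    {br : lieM D ℂ → lieM D ℂ → lieM D ℂ} {n : 𝒦 → ℕ} (F : Frm D N br n)

/-- The matrix of a pairing. -/
noncomputable def GG (a a' ν : 𝒮 ⊕ 𝒦 × Bool) : Matrix B B ℂ :=
  Matrix.of fun i j => F.prG a a' ν (Pi.single i 1) (Pi.single j 1)

theorem GG_apply (a a' ν : 𝒮 ⊕ 𝒦 × Bool) (y y' : B → ℂ) :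
    y ⬝ᵥ (F.GG a a' ν *ᵥ y') = F.prG a a' ν y y' := by
  have h1 : y ⬝ᵥ (F.GG a a' ν *ᵥ y') = ∑ i, ∑ j, ∑ x : Fin (F.Lb.dim ν), F.ep ⟨ν, x⟩ *
      ((y i * F.cof a ⟨ν, x⟩ (Pi.single i 1)) *
        (y' j * F.cof a' (dual ⟨ν, x⟩) (Pi.single j 1))) := by
    simp only [dotProduct, mulVec, GG, prG, Matrix.of_apply, Finset.mul_sum, Finset.sum_mul]
    refine Finset.sum_congr rfl fun i _ => Finset.sum_congr rfl fun j _ =>
      Finset.sum_congr rfl fun x _ => ?_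
    ring
  rw [h1]
  unfold prG
  simp only [lin_sum (F.cof a _) y, lin_sum (F.cof a' _) y', Finset.mul_sum, Finset.sum_mul]
  rw [Finset.sum_comm, Finset.sum_congr rfl fun j _ => Finset.sum_comm, Finset.sum_comm]

theorem GG_C (a a' ν : 𝒮 ⊕ 𝒦 × Bool) {X : lieM D ℂ} (hX : X ∈ CC D) :
    (X.1)ᵀ * F.GG a a' ν + F.GG a a' ν * X.1 = 0 := by
  have h10 : ∀ y y' : B → ℂ,
      y ⬝ᵥ (((X.1)ᵀ * F.GG a a' ν + F.GG a a' ν * X.1) *ᵥ y') = 0 := by
    intro y y'
    rw [add_mulVec, dotProduct_add, ← mulVec_mulVec, ← mulVec_mulVec, dotProduct_mulVec y,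
      vecMul_transpose, GG_apply, GG_apply, F.prG_C a a' ν hX]
  ext i j
  have h11 := h10 (Pi.single i 1) (Pi.single j 1)
  rw [mulVec_single_one, single_one_dotProduct] at h11
  exact h11

/-- The set of the products in the expansion of a Hodge tensor. -/
def Prods {B : Type} [Fintype B] [DecidableEq B] (D : Matrix B B ℂ) {𝒦 : Type} {n : 𝒦 → ℕ}
    (T : ∀ k, lieM D ℂ →ₗ[ℂ] Matrix (Fin (n k)) (Fin (n k)) ℂ) (κ : Type) : Set ((κ → B) → ℂ) :=
  {f | ∃ (l p : ℕ) (k : Fin l → 𝒦) (β : Fin l → Bool)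
    (e : (Σ j : Fin l, Fin (n (k j))) ⊕ (Fin p × Fin 2) ≃ κ)
    (φ : ∀ j, Fin (n (k j)) → Fin (n (k j)) → ((B → ℂ) →ₗ[ℂ] ℂ)) (G : Fin p → Matrix B B ℂ),
    (∀ j a b (σ : ℂ ≃+* ℂ) y, φ j a b (D.map σ *ᵥ y) =
      ∑ z, sA (β j) (T (k j) (sD D σ)) b z * φ j a z y) ∧
    (∀ s (σ : ℂ ≃+* ℂ), (D.map σ)ᵀ * G s + G s * D.map σ = 0) ∧
    (∀ σ : ℂ ≃+* ℂ, ∑ j, sgn (β j) * (T (k j) (sD D σ)).trace = 0) ∧
    f = fun w => (∏ j, (Matrix.of fun a b : Fin (n (k j)) =>
        φ j a b (Pi.single (w (e (Sum.inl ⟨j, a⟩))) 1)).det) *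
      ∏ s, G s (w (e (Sum.inr (s, 0)))) (w (e (Sum.inr (s, 1))))}

/-- The expansion of a Hodge tensor. -/
theorem out (hexp : S_exp) (hsps : S_sps) (hL : Lifts F.s F.T (CC D)) {κ : Type} [Fintype κ]
    [DecidableEq κ] (c : (κ → B) → ℚ) (hc : IsH D c) :
    cst ℂ c ∈ Submodule.span ℂ (Prods D F.T κ) := by
  have h := hexp B D 3 (𝒮 ⊕ 𝒦 × Bool) F.Lb (𝒮 ⊕ 𝒦 × Bool) F.cls
    (fun a => Matrix.of fun r i => F.cof a r (Pi.single i 1)) F.evf F.ep F.wt (fun i => rfl)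
    (lep_dual _ _ _) (lep_ne _ _ _) (fun i => F.expand (Pi.single i 1)) F.evf_cls
    (fun a r i h => by
      rw [Matrix.of_apply, F.cof_cls a r h, LinearMap.zero_apply]) ?_
    (F.exists_wt hL hsps) ?_ κ c hc
  · refine Submodule.span_mono ?_ h
    rintro f ⟨l, p, q, ν, e, α, h1, h2, rfl⟩
    have h3 : ∀ j, ∃ (k : 𝒦) (β : Bool), q j = Sum.inr (k, β) := by
      intro j
      rcases hq : q j with a | ⟨k, β⟩
      · exact absurd (by rw [hq]; rfl) (h1 j)
      · exact ⟨k, β, rfl⟩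
    choose k β hkβ using h3
    obtain rfl : q = fun j => Sum.inr (k j, β j) := funext hkβ
    refine ⟨l, p, k, β, e, fun j a b => F.cof (α (e (Sum.inl ⟨j, a⟩))) (F.LK (k j) (β j) b),
      fun s => F.GG (α (e (Sum.inr (s, 0)))) (α (e (Sum.inr (s, 1)))) (ν s), ?_, ?_, ?_, rfl⟩
    · intro j a b σ y
      exact F.cof_C _ _ _ _ ⟨σ, rfl⟩ y
    · intro s σ
      exact F.GG_C _ _ _ (X := sD D σ) ⟨σ, rfl⟩
    · intro σ
      rw [← h2 σ]
      refine Finset.sum_congr rfl fun j _ => ?_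
      change _ = (n (k j) : ℂ) * (sgn (β j) * ((F.T (k j) (sD D σ)).trace / n (k j)))
      have h4 : (n (k j) : ℂ) ≠ 0 := by
        rcases F.hn (k j) with h | h <;> · rw [h]; norm_num
      field_simp
  · intro b c hbc h
    rcases letter_cases _ _ _ b with ⟨q, x, rfl⟩ | ⟨q, β, x, rfl⟩ <;>
      rcases letter_cases _ _ _ c with ⟨p, y, rfl⟩ | ⟨p, β', y, rfl⟩
    · rw [dual_lS] at hbc
      obtain rfl : q = p := Sum.inl_injective hbc
      exact F.lift_S hL q x y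
    · rw [dual_lS] at hbc
      exact absurd hbc Sum.inl_ne_inr
    · rw [dual_lK] at hbc
      exact absurd hbc Sum.inr_ne_inl
    · rw [dual_lK] at hbc
      have h1 : (q, !β) = (p, β') := Sum.inr_injective hbc
      obtain rfl : q = p := congrArg Prod.fst h1
      obtain rfl : (!β) = β' := congrArg Prod.snd h1
      have hxy : y ≠ Fin.rev x := by
        rcases h with h | h
        · intro h2
          apply h
          rw [dual_lK, h2]
        · exfalso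
          have h2 : (Sum.inr (q, !β) : 𝒮 ⊕ 𝒦 × Bool) = Sum.inr (q, β) := h
          have h3 := congrArg Prod.snd (Sum.inr_injective h2)
          cases β
          · exact Bool.false_ne_true h3.symm
          · exact Bool.false_ne_true h3
      cases β
      · obtain ⟨X, hX, hX'⟩ := F.lift_K hL q y x fun h => hxy (by rw [h, Fin.rev_rev])
        refine ⟨X, hX, fun a r => ?_⟩
        rw [add_comm]
        exact hX' a r
      · exact F.lift_K hL q x y hxy
  · rintro (a | ⟨k, β⟩) σ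
    · change (0 : ℂ) = -0
      rw [neg_zero]
    · change sgn (!β) * _ = -(sgn β * _)
      rw [sgn_not, neg_mul]

end Frm

end Pool.Agent.Q60.D3
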