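import Mathlib
import Pool.Agent.Q60.D3.FrmOut
import Pool.Agent.Q60.D3.Sgn
import Pool.Agent.Q144.D3.Chiz

/-!
# The frame of a product of abelian varieties
-/

set_option linter.unusedSectionVars false
set_option linter.unusedVariables false

namespace Pool.Agent.Q60.D3

open Matrix Module Pool.Agent.H204R3.CM Pool.Agent.H204R3.SP Pool.Agent.W437.HC
  Pool.Agent.W437.HD Pool.Agent.W437.HP Pool.Agent.W437.HR Pool.Agent.W437.HQ Pool.Agent.Q59.GC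

variable {ι : Type} [Fintype ι] [DecidableEq ι] {g : ι → ℕ}
  (Z : ∀ i, Matrix (Fin (g i)) (Fin (g i)) ℂ) (hZ : ∀ i, (Z i)ᵀ = Z i)
  (hpos : ∀ i, (imM (Z i)).PosDef)

/-- The matrices on the first eigenspaces. -/
noncomputable def TK {𝒦 : Type} (t : 𝒦 → ι) (K : ∀ k, KZ (Z (t k))) (k : 𝒦) :
    lieM (DZ (bigD ℂ Z)) ℂ →ₗ[ℂ] Matrix (Fin (g (t k))) (Fin (g (t k))) ℂ :=
  (K k).T ∘ₗ (Submodule.subtype _) ∘ₗ ((blocksOf Z hZ hpos).blL (t k))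

theorem TK_apply {𝒦 : Type} (t : 𝒦 → ι) (K : ∀ k, KZ (Z (t k))) (k : 𝒦)
    (X : lieM (DZ (bigD ℂ Z)) ℂ) :
    TK Z hZ hpos t K k X = (K k).T ((blocksOf Z hZ hpos).bl ℂ (t k) X.1) := rfl

/-- The blocks of the conjugates of the operator. -/
theorem bl_sD (i : ι) (σ : ℂ ≃+* ℂ) :
    (blocksOf Z hZ hpos).bl ℂ i (sD (DZ (bigD ℂ Z)) σ).1 = (DZ (Z i)).map σ := by
  have h1 : ((cK ℂ ((blocksOf Z hZ hpos).P i))ᵀ).map σ =
      ((cK ℂ ((blocksOf Z hZ hpos).P i)).map σ)ᵀ := rfl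
  rw [← (blocksOf Z hZ hpos).bl_D i, Blocks.bl_apply, Blocks.bl_apply, Matrix.map_mul,
    Matrix.map_mul, h1, cK_map]
  rfl

theorem TK_sD {𝒦 : Type} (t : 𝒦 → ι) (K : ∀ k, KZ (Z (t k))) (k : 𝒦) (σ : ℂ ≃+* ℂ) :
    TK Z hZ hpos t K k (sD (DZ (bigD ℂ Z)) σ) = (K k).T ((DZ (Z (t k))).map σ) := by
  rw [TK_apply, bl_sD]

/-- The conjugates of the Hodge operator on the first eigenspace. -/
theorem T_map {g : ℕ} {Z : Matrix (Fin g) (Fin g) ℂ} (hc : Pool.Agent.Q144.D3.S_chiz')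
    (hZ : Zᵀ = Z) (hpos : (imM Z).PosDef) (K : KZ Z) (σ : ℂ ≃+* ℂ) :
    K.T ((DZ Z).map σ) * K.T ((DZ Z).map σ) = 1 ∧
      (K.T ((DZ Z).map σ)).trace = (chi K.μ σ : ℂ) := by
  obtain ⟨T, h1, h2, h3, h4⟩ := hc g Z hZ hpos K σ
  have h5 : K.T ((DZ Z).map σ) = T := by
    ext l j
    rw [K.T_apply, h1, om_sum_left, Finset.sum_eq_single l]
    · rw [om_smul_left, K.uv, if_pos rfl, mul_one]
    · intro b _ hb
      rw [om_smul_left, K.uv, if_neg hb, mul_zero]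
    · intro h
      exact absurd (Finset.mem_univ _) h
  rw [h5]
  exact ⟨h3, h4⟩

theorem Ts_sA {g : ℕ} {Z : Matrix (Fin g) (Fin g) ℂ} (K : KZ Z) (β : Bool) (X) :
    K.Ts β X = sA β (K.T X) := by
  cases β
  · rfl
  · rfl

/-- The expansion of the Hodge tensors on a product. -/
theorem hodge_span (hgrs : S_grs) (hsps : S_sps) (hdarb : S_darb) (hexp : S_exp)
    (hc : Pool.Agent.Q144.D3.S_chiz')
    (hdata : ∀ i, HasPcs (DZ (Z i)) ∨ ∃ K : KZ (Z i), KFull K) :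
    ∃ (𝒦 : Type) (t : 𝒦 → ι) (K : ∀ k, KZ (Z (t k))), ∀ (κ : Type) [Fintype κ] [DecidableEq κ]
      (c : (κ → Fin (NB g) ⊕ Fin (NB g)) → ℚ), IsH (DZ (bigD ℂ Z)) c →
      cst ℂ c ∈ Submodule.span ℂ (Frm.Prods (DZ (bigD ℂ Z)) (TK Z hZ hpos t K) κ) := by
  classical
  obtain ⟨b, hb⟩ : ∃ b, b = blocksOf Z hZ hpos := ⟨_, rfl⟩
  have hnd := blocksOf_nondeg Z hZ hpos
  have hD2 : ∀ i, DZ (Z i) * DZ (Z i) = 1 :=
    fun i => DZ_sq ((hpos i).isUnit.map Matrix.detMonoidHom)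
  rw [← hb] at hnd
  let I1 := {i // HasPcs (DZ (Z i))}
  let I2 := {i // ¬ HasPcs (DZ (Z i))}
  have hp : ∀ i : I1, HasPcs (DZ (Z i.1)) := fun i => i.2
  choose A hA1 hA2 N w π hst hsum hnt halt hnon hsp hful hπ using hp
  have hq : ∀ i : I2, ∃ K : KZ (Z i.1), KFull K := fun i => (hdata i.1).resolve_left i.2
  choose K hK using hq
  let s : Sys (lieM (DZ (bigD ℂ Z)) ℂ) (brL (DZ (bigD ℂ Z)))
      (N := fun a : (Σ i, A i) => ↥(N a.1 a.2)) :=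
    { w := fun a => w a.1 a.2
      ρ := fun a => (rsN (N a.1 a.2) (hst a.1 a.2)) ∘ₗ b.blL a.1.1
      alt := fun a x => halt a.1 a.2 x
      nd := fun a x hx => hnon a.1 a.2 x hx
      brk := fun a X Y => by
        rw [LinearMap.comp_apply, b.blL_brL, rsN_brL]
        rfl
      sp := fun a X => hsp a.1 a.2 (b.blL a.1.1 X)
      full := fun a x y => Pool.Agent.W437.HR.Blocks.full b a.1.1 (hnd a.1.1) (hD2 a.1.1)
        (N a.1 a.2) (w a.1 a.2) (hst a.1 a.2) (hnt a.1 a.2) (halt a.1 a.2) (hnon a.1 a.2)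
        (hsp a.1 a.2) (hful a.1 a.2) x y }
  have hntn : ∀ a : (Σ i, A i), Nontrivial ↥(N a.1 a.2) := fun a => hnt a.1 a.2
  have hTb : ∀ (k : I2) (X : lieM (DZ (bigD ℂ Z)) ℂ),
      TK Z hZ hpos (fun k : I2 => k.1) K k X = (K k).T (b.bl ℂ k.1 X.1) := by
    intro k X
    rw [hb]
    rfl
  have hbm : ∀ (i : ι) (X : lieM (DZ (bigD ℂ Z)) ℂ), b.bl ℂ i X.1 ∈ lieM (DZ (Z i)) ℂ :=
    fun i X => b.bl_mem X.2 i
  have hFF := exists_frm (D := DZ (bigD ℂ Z)) (br := brL (DZ (bigD ℂ Z)))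
    (n := fun k : I2 => g k.1) hdarb s (TK Z hZ hpos (fun k : I2 => k.1) K) (fun k => (K k).hg)
    (fun a => (Matrix.mulVecLin (cK ℂ (b.P a.1.1))ᵀ) ∘ₗ (N a.1 a.2).subtype)
    (fun a => (π a.1 a.2) ∘ₗ (Matrix.mulVecLin (cK ℂ (b.P a.1.1)))) ?_ ?_
    (fun k β c => (cK ℂ (b.P k.1))ᵀ *ᵥ (K k).zb β c)
    (fun k β c => (K k).zc β c ∘ₗ Matrix.mulVecLin (cK ℂ (b.P k.1))) ?_ ?_ ?_
  · obtain ⟨F, hF1, hF2, -, -⟩ := hFF
    refine ⟨I2, fun k => k.1, K, fun κ _ _ c hc' => ?_⟩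
    have h1 := F.out hexp hsps ?_ c hc'
    · rw [hF2] at h1
      exact h1
    · rw [hF1, hF2]
      refine lifts s (TK Z hZ hpos (fun k : I2 => k.1) K) (CC (DZ (bigD ℂ Z))) hgrs
        (fun k => (K k).hg) ?_ ?_ ?_ ?_ ⟨DZ (bigD ℂ Z), D_mem _⟩ ?_ ?_
      · intro k X Y
        rw [hTb, hTb, hTb, ← (K k).T_br (hZ k.1) (hbm k.1 X) (hbm k.1 Y)]
        congr 1
        exact b.bl_bracket X.2 Y.2 k.1
      · intro k i j hij
        have h7 := hK k ((lieM (DZ (bigD ℂ Z)) ℂ).map (b.bl ℂ k.1)) ?_ ?_ i j hij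
        · obtain ⟨X, hX, hX'⟩ := h7
          obtain ⟨Y, hY, rfl⟩ := hX
          refine ⟨⟨Y, hY⟩, ?_⟩
          rw [hTb]
          ext l c
          rw [KZ.T_apply, hX', Matrix.single_apply]
          by_cases hc1 : c = j
          · rw [if_pos hc1, KZ.uv]
            by_cases hl : i = l
            · rw [if_pos hl, if_pos ⟨hl, hc1.symm⟩]
            · rw [if_neg hl, if_neg fun h => hl h.1]
          · rw [if_neg hc1, if_neg fun h => hc1 h.2.symm]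
            unfold om
            rw [zero_dotProduct]
        · rintro _ ⟨X, hX, rfl⟩ _ ⟨Y, hY, rfl⟩
          exact ⟨X * Y - Y * X, lieM_bracket _ hX hY, b.bl_bracket hX hY k.1⟩
        · intro σ
          refine ⟨(sD (DZ (bigD ℂ Z)) σ).1, (sD (DZ (bigD ℂ Z)) σ).2, ?_⟩
          rw [hb, bl_sD]
      · rintro _ ⟨σ, rfl⟩ k
        rw [TK_sD]
        exact (T_map hc (hZ k.1) (hpos k.1) (K k) σ).1
      · rintro _ ⟨σ, rfl⟩ k
        rw [TK_sD, (T_map hc (hZ k.1) (hpos k.1) (K k) σ).2]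
        unfold chi
        split_ifs
        · left
          simp
        · right
          simp
      · intro k l j
        rw [hTb]
        change (K k).T (b.bl ℂ k.1 (DZ (bigD ℂ Z))) l j = _
        rw [b.bl_D, KZ.T_D]
      · intro a
        refine LinearMap.ext fun x => Subtype.ext ?_
        change (b.bl ℂ a.1.1 (DZ (bigD ℂ Z))) *ᵥ ((b.bl ℂ a.1.1 (DZ (bigD ℂ Z))) *ᵥ
          (x : Fin (g a.1.1) ⊕ Fin (g a.1.1) → ℂ)) = (x : Fin (g a.1.1) ⊕ Fin (g a.1.1) → ℂ)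
        rw [b.bl_D, mulVec_mulVec, hD2, one_mulVec]
  · intro a X u
    change X.1 *ᵥ ((cK ℂ (b.P a.1.1))ᵀ *ᵥ (u : Fin (g a.1.1) ⊕ Fin (g a.1.1) → ℂ)) =
      (cK ℂ (b.P a.1.1))ᵀ *ᵥ (b.bl ℂ a.1.1 X.1 *ᵥ (u : Fin (g a.1.1) ⊕ Fin (g a.1.1) → ℂ))
    rw [mulVec_mulVec, mulVec_mulVec, b.mul_inc X.2]
  · intro a X y
    apply Subtype.ext
    change (π a.1 a.2 (cK ℂ (b.P a.1.1) *ᵥ (X.1 *ᵥ y)) : Fin (g a.1.1) ⊕ Fin (g a.1.1) → ℂ) =
      b.bl ℂ a.1.1 X.1 *ᵥ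
        (π a.1 a.2 (cK ℂ (b.P a.1.1) *ᵥ y) : Fin (g a.1.1) ⊕ Fin (g a.1.1) → ℂ)
    rw [mulVec_mulVec, b.prj_mul X.2, ← mulVec_mulVec, hπ a.1 a.2 _ (b.bl_mem X.2 a.1.1)]
  · intro k β c X
    rw [mulVec_mulVec, b.mul_inc X.2, ← mulVec_mulVec, (K k).zb_act (hZ k.1) (hbm k.1 X),
      mulVec_sum]
    refine Finset.sum_congr rfl fun e _ => ?_
    rw [mulVec_smul, Ts_sA, hTb]
  · intro k β c X y
    change (K k).zc β c (cK ℂ (b.P k.1) *ᵥ (X.1 *ᵥ y)) = _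
    rw [mulVec_mulVec, b.prj_mul X.2, ← mulVec_mulVec, (K k).zc_act (hZ k.1) (hbm k.1 X)]
    refine Finset.sum_congr rfl fun e _ => ?_
    rw [Ts_sA, hTb]
    rfl
  · intro y
    have h1 : y = ∑ i, (cK ℂ (b.P i))ᵀ *ᵥ (cK ℂ (b.P i) *ᵥ y) := by
      conv_lhs => rw [← one_mulVec y, ← b.totK, sum_mulVec]
      exact Finset.sum_congr rfl fun i _ => (mulVec_mulVec _ _ _).symm
    conv_lhs => rw [h1]
    rw [← Fintype.sum_subtype_add_sum_subtype (fun i => HasPcs (DZ (Z i)))]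
    congr 1
    · rw [Fintype.sum_sigma]
      refine Finset.sum_congr rfl fun i _ => ?_
      conv_lhs => rw [hsum i (cK ℂ (b.P i.1) *ᵥ y)]
      rw [mulVec_sum]
      rfl
    · refine Finset.sum_congr rfl fun k _ => ?_
      conv_lhs => rw [(K k).resolve_z (cK ℂ (b.P k.1) *ᵥ y)]
      rw [mulVec_sum]
      refine Finset.sum_congr rfl fun β _ => ?_
      rw [mulVec_sum]
      refine Finset.sum_congr rfl fun c _ => ?_
      rw [mulVec_smul]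
      rfl

end Pool.Agent.Q60.D3
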