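import Mathlib
import Pool.Agent.Q60.D3.Dat

/-!
# Products of multilinear maps in different variables
-/

set_option linter.unusedSectionVars false
set_option linter.unusedVariables false

namespace Pool.Agent.Q60.D3

open Matrix Module Pool.Agent.H204R3.CM Pool.Agent.H204R3.SP Pool.Agent.W437.HC
  Pool.Agent.W437.HD Pool.Agent.W437.HP Pool.Agent.W437.HR Pool.Agent.W437.HQ Pool.Agent.Q59.GC

/-- The product of multilinear maps in different variables. -/
theorem exists_mm {R : Type*} [CommSemiring R] [Algebra R ℂ] {T : Type*} [DecidableEq T]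
    {E : Type*} [AddCommMonoid E] [Module R E] {J P : Type*} [Fintype J] [Fintype P]
    [DecidableEq J] [DecidableEq P] {κ₁ : J → Type*} {κ₂ : P → Type*} [∀ j, DecidableEq (κ₁ j)]
    [∀ s, DecidableEq (κ₂ s)] (e : (Σ j, κ₁ j) ⊕ (Σ s, κ₂ s) ≃ T)
    (δ : ∀ j, MultilinearMap R (fun _ : κ₁ j => E) ℂ)
    (γ : ∀ s, MultilinearMap R (fun _ : κ₂ s => E) ℂ) :
    ∃ Ψ : MultilinearMap R (fun _ : T => E) ℂ, ∀ v, Ψ v =
      (∏ j, δ j fun a => v (e (Sum.inl ⟨j, a⟩))) * ∏ s, γ s fun c => v (e (Sum.inr ⟨s, c⟩)) := by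
  have k1 : ∀ (v : T → E) (j : J) (a : κ₁ j) (u : E),
      (∏ j', δ j' fun a' => Function.update v (e (Sum.inl ⟨j, a⟩)) u (e (Sum.inl ⟨j', a'⟩))) *
        (∏ s, γ s fun c => Function.update v (e (Sum.inl ⟨j, a⟩)) u (e (Sum.inr ⟨s, c⟩))) =
      δ j (Function.update (fun a' => v (e (Sum.inl ⟨j, a'⟩))) a u) *
        ((∏ j' ∈ Finset.univ.erase j, δ j' fun a' => v (e (Sum.inl ⟨j', a'⟩))) *
          ∏ s, γ s fun c => v (e (Sum.inr ⟨s, c⟩))) := by
    intro v j a u
    have h1 : (fun a' => Function.update v (e (Sum.inl ⟨j, a⟩)) u (e (Sum.inl ⟨j, a'⟩))) =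
        Function.update (fun a' => v (e (Sum.inl ⟨j, a'⟩))) a u := by
      funext a'
      by_cases h : a' = a
      · subst h
        rw [Function.update_self, Function.update_self]
      · rw [Function.update_of_ne h, Function.update_of_ne]
        intro h'
        have h2 := e.injective h'
        have h3 := Sum.inl_injective h2
        exact h (eq_of_heq (Sigma.mk.inj_iff.mp h3).2)
    have h2 : ∀ j' ∈ Finset.univ.erase j,
        (δ j' fun a' => Function.update v (e (Sum.inl ⟨j, a⟩)) u (e (Sum.inl ⟨j', a'⟩))) =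
        δ j' fun a' => v (e (Sum.inl ⟨j', a'⟩)) := by
      intro j' hj
      congr 1
      funext a'
      rw [Function.update_of_ne]
      intro h'
      have h2 := e.injective h'
      have h3 := Sum.inl_injective h2
      exact (Finset.mem_erase.1 hj).1 (congrArg Sigma.fst h3)
    have h3 : ∀ s, (γ s fun c => Function.update v (e (Sum.inl ⟨j, a⟩)) u (e (Sum.inr ⟨s, c⟩))) =
        γ s fun c => v (e (Sum.inr ⟨s, c⟩)) := by
      intro s
      congr 1
      funext c
      rw [Function.update_of_ne]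
      intro h'
      exact absurd (e.injective h') Sum.inr_ne_inl
    rw [← Finset.mul_prod_erase Finset.univ _ (Finset.mem_univ j), h1,
      Finset.prod_congr rfl h2, Finset.prod_congr rfl fun s _ => h3 s, mul_assoc]
  have k2 : ∀ (v : T → E) (s : P) (a : κ₂ s) (u : E),
      (∏ j', δ j' fun a' => Function.update v (e (Sum.inr ⟨s, a⟩)) u (e (Sum.inl ⟨j', a'⟩))) *
        (∏ s', γ s' fun c => Function.update v (e (Sum.inr ⟨s, a⟩)) u (e (Sum.inr ⟨s', c⟩))) =
      γ s (Function.update (fun a' => v (e (Sum.inr ⟨s, a'⟩))) a u) *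
        ((∏ s' ∈ Finset.univ.erase s, γ s' fun a' => v (e (Sum.inr ⟨s', a'⟩))) *
          ∏ j, δ j fun c => v (e (Sum.inl ⟨j, c⟩))) := by
    intro v j a u
    have h1 : (fun a' => Function.update v (e (Sum.inr ⟨j, a⟩)) u (e (Sum.inr ⟨j, a'⟩))) =
        Function.update (fun a' => v (e (Sum.inr ⟨j, a'⟩))) a u := by
      funext a'
      by_cases h : a' = a
      · subst h
        rw [Function.update_self, Function.update_self]
      · rw [Function.update_of_ne h, Function.update_of_ne]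
        intro h'
        have h2 := e.injective h'
        have h3 := Sum.inr_injective h2
        exact h (eq_of_heq (Sigma.mk.inj_iff.mp h3).2)
    have h2 : ∀ j' ∈ Finset.univ.erase j,
        (γ j' fun a' => Function.update v (e (Sum.inr ⟨j, a⟩)) u (e (Sum.inr ⟨j', a'⟩))) =
        γ j' fun a' => v (e (Sum.inr ⟨j', a'⟩)) := by
      intro j' hj
      congr 1
      funext a'
      rw [Function.update_of_ne]
      intro h'
      have h2 := e.injective h'
      have h3 := Sum.inr_injective h2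
      exact (Finset.mem_erase.1 hj).1 (congrArg Sigma.fst h3)
    have h3 : ∀ s, (δ s fun c => Function.update v (e (Sum.inr ⟨j, a⟩)) u (e (Sum.inl ⟨s, c⟩))) =
        δ s fun c => v (e (Sum.inl ⟨s, c⟩)) := by
      intro s
      congr 1
      funext c
      rw [Function.update_of_ne]
      intro h'
      exact absurd (e.injective h') Sum.inl_ne_inr
    rw [mul_comm, ← Finset.mul_prod_erase Finset.univ _ (Finset.mem_univ j), h1,
      Finset.prod_congr rfl h2, Finset.prod_congr rfl fun s _ => h3 s, mul_assoc]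
  refine ⟨MultilinearMap.mk' (fun v => (∏ j, δ j fun a => v (e (Sum.inl ⟨j, a⟩))) *
    ∏ s, γ s fun c => v (e (Sum.inr ⟨s, c⟩))) ?_ ?_, fun v => rfl⟩
  · intro v t x y
    obtain ⟨z, rfl⟩ := e.surjective t
    rcases z with ⟨j, a⟩ | ⟨s, c⟩
    · simp only [k1, MultilinearMap.map_update_add, add_mul]
    · simp only [k2, MultilinearMap.map_update_add, add_mul]
  · intro v t r x
    obtain ⟨z, rfl⟩ := e.surjective t
    rcases z with ⟨j, a⟩ | ⟨s, c⟩
    · simp only [k1, MultilinearMap.map_update_smul, smul_mul_assoc]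
    · simp only [k2, MultilinearMap.map_update_smul, smul_mul_assoc]

/-- The product of multilinear maps in different variables, in the form used below. -/
theorem exists_mm2 {R : Type*} [CommSemiring R] [Algebra R ℂ] {T : Type*} [DecidableEq T]
    {E : Type*} [AddCommMonoid E] [Module R E] {l p : ℕ} {n : Fin l → ℕ}
    (e : (Σ j : Fin l, Fin (n j)) ⊕ (Fin p × Fin 2) ≃ T)
    (δ : ∀ j, MultilinearMap R (fun _ : Fin (n j) => E) ℂ)
    (γ : Fin p → MultilinearMap R (fun _ : Fin 2 => E) ℂ) :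
    ∃ Ψ : MultilinearMap R (fun _ : T => E) ℂ, ∀ v, Ψ v =
      (∏ j, δ j fun a => v (e (Sum.inl ⟨j, a⟩))) * ∏ s, γ s fun c => v (e (Sum.inr (s, c))) := by
  obtain ⟨Ψ, h⟩ := exists_mm (((Equiv.refl (Σ j : Fin l, Fin (n j))).sumCongr
    (Equiv.sigmaEquivProd (Fin p) (Fin 2))).trans e) δ γ
  exact ⟨Ψ, h⟩

/-- The value of a bilinear form. -/
theorem evalF_bilc2 {B : Type*} [Fintype B] [DecidableEq B] {K : Type*} [Field K]
    (β : Matrix B B K) (x : Fin 2 → B → K) :
    evalF (bilc β) x = x 0 ⬝ᵥ (β *ᵥ x 1) := by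
  unfold evalF bilc
  rw [← (finTwoArrowEquiv B).symm.sum_comp, Fintype.sum_prod_type]
  simp only [dotProduct, mulVec, Finset.mul_sum]
  refine Finset.sum_congr rfl fun i _ => Finset.sum_congr rfl fun j _ => ?_
  rw [Fin.prod_univ_two]
  simp only [finTwoArrowEquiv_symm_apply, Matrix.cons_val_zero, Matrix.cons_val_one]
  ring

/-- The value of a product form. -/
theorem evalF_prod {B : Type} [Fintype B] [DecidableEq B] {κ : Type} [Fintype κ] [DecidableEq κ]
    {l p : ℕ} {n : Fin l → ℕ} (e : (Σ j : Fin l, Fin (n j)) ⊕ (Fin p × Fin 2) ≃ κ)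
    (φ : ∀ j, Fin (n j) → Fin (n j) → ((B → ℂ) →ₗ[ℂ] ℂ)) (G : Fin p → Matrix B B ℂ)
    (x : κ → B → ℂ) :
    evalF (fun w : κ → B => (∏ j, (Matrix.of fun a b : Fin (n j) =>
        φ j a b (Pi.single (w (e (Sum.inl ⟨j, a⟩))) 1)).det) *
      ∏ s, G s (w (e (Sum.inr (s, 0)))) (w (e (Sum.inr (s, 1))))) x =
    (∏ j, (Matrix.of fun a b : Fin (n j) => φ j a b (x (e (Sum.inl ⟨j, a⟩)))).det) *
      ∏ s, x (e (Sum.inr (s, 0))) ⬝ᵥ (G s *ᵥ x (e (Sum.inr (s, 1)))) := by
  obtain ⟨Ψ, hΨ⟩ := exists_mm2 (R := ℂ) e (fun j => (Matrix.detRowAlternating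
    (R := ℂ) (n := Fin (n j))).toMultilinearMap.compLinearMap fun a => LinearMap.pi (φ j a))
    (fun s => evalM (bilc (G s)))
  have hΨ' : ∀ x, Ψ x = (∏ j, (Matrix.of fun a b : Fin (n j) =>
      φ j a b (x (e (Sum.inl ⟨j, a⟩)))).det) *
      ∏ s, x (e (Sum.inr (s, 0))) ⬝ᵥ (G s *ᵥ x (e (Sum.inr (s, 1)))) := by
    intro x
    rw [hΨ]
    congr 1
    refine Finset.prod_congr rfl fun s _ => ?_
    rw [evalM_apply, evalF_bilc2]
  rw [← hΨ', ← evalM_apply]
  congr 1
  refine Basis.ext_multilinear (fun _ => Pi.basisFun ℂ B) fun I => ?_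
  simp only [Pi.basisFun_apply]
  rw [evalM_apply, evalF_single, hΨ']
  congr 1
  refine Finset.prod_congr rfl fun s _ => ?_
  rw [mulVec_single_one, single_one_dotProduct]
  rfl

end Pool.Agent.Q60.D3
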