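import Mathlib
import Pool.Agent.Q60.D3.MM

/-!
# The products in the expansion of a Hodge class and the balanced monomials
-/

set_option linter.unusedSectionVars false
set_option linter.unusedVariables false

namespace Pool.Agent.Q60.D3

open Matrix Module Pool.Agent.H204R3.CM Pool.Agent.H204R3.SP Pool.Agent.W437.HC
  Pool.Agent.W437.HD Pool.Agent.W437.HP Pool.Agent.W437.HR Pool.Agent.W437.HQ Pool.Agent.Q59.GC

/-- A rational vector as a complex vector. -/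
noncomputable def cV {B : Type*} (v : B → ℚ) : B → ℂ := fun i => ((v i : ℚ) : ℂ)

theorem cV_mulVec {m n : Type*} [Fintype n] (N : Matrix m n ℚ) (w : n → ℚ) :
    cV (N *ᵥ w) = cK ℂ N *ᵥ cV w := Pool.Agent.Q60.D3.cast_mulVec N w

theorem cV_dot {n : Type*} [Fintype n] (v w : n → ℚ) : ((v ⬝ᵥ w : ℚ) : ℂ) = cV v ⬝ᵥ cV w := by
  simp [dotProduct, cV]

section lin

variable {B : Type} [Fintype B] [DecidableEq B]

/-- Families of functionals numbered by the natural numbers. -/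
noncomputable def eN {n : ℕ} (φ : Fin n → ((B → ℂ) →ₗ[ℂ] ℂ)) : ℕ → ((B → ℂ) →ₗ[ℂ] ℂ) :=
  fun b => if h : b < n then φ ⟨b, h⟩ else 0

theorem eN_apply {n : ℕ} (φ : Fin n → ((B → ℂ) →ₗ[ℂ] ℂ)) (b : Fin n) : eN φ (b : ℕ) = φ b := by
  unfold eN
  rw [dif_pos b.2]

variable {g : ℕ} {Z : Matrix (Fin g) (Fin g) ℂ} {D : Matrix B B ℂ}

/-- The functionals given by a matrix. -/
noncomputable def fL (K : KZ Z) (β : Bool) :
    Matrix (Fin g ⊕ Fin g) B ℂ →ₗ[ℂ] (ℕ → ((B → ℂ) →ₗ[ℂ] ℂ)) where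
  toFun M := eN fun b => K.zc β b ∘ₗ Matrix.mulVecLin M
  map_add' M M' := by
    funext b
    change eN _ b = eN _ b + eN _ b
    unfold eN
    by_cases h : b < g
    · rw [dif_pos h, dif_pos h, dif_pos h]
      refine LinearMap.ext fun y => ?_
      change K.zc β _ ((M + M') *ᵥ y) = K.zc β _ (M *ᵥ y) + K.zc β _ (M' *ᵥ y)
      rw [add_mulVec, map_add]
    · rw [dif_neg h, dif_neg h, dif_neg h, add_zero]
  map_smul' c M := by
    funext b
    change eN _ b = c • eN _ b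
    unfold eN
    by_cases h : b < g
    · rw [dif_pos h, dif_pos h]
      refine LinearMap.ext fun y => ?_
      change K.zc β _ ((c • M) *ᵥ y) = c • K.zc β _ (M *ᵥ y)
      rw [smul_mulVec, map_smul]
    · rw [dif_neg h, dif_neg h, smul_zero]

theorem fL_apply (K : KZ Z) (β : Bool) (M : Matrix (Fin g ⊕ Fin g) B ℂ) (b : Fin g) (y : B → ℂ) :
    fL K β M (b : ℕ) y = K.zc β b (M *ᵥ y) := by
  change eN _ (b : ℕ) y = _
  rw [eN_apply]
  rfl

/-- Equivariant coordinates come from homomorphisms. -/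
theorem span_fun (hZ : Zᵀ = Z) (K : KZ Z) (β : Bool) (φ : Fin g → ((B → ℂ) →ₗ[ℂ] ℂ))
    (h : ∀ (b : Fin g) (σ : ℂ ≃+* ℂ) y, φ b (D.map σ *ᵥ y) =
      ∑ z, sA β (K.T ((DZ Z).map σ)) b z * φ z y) :
    eN φ ∈ Submodule.span ℂ {ψ | ∃ N : Matrix (Fin g ⊕ Fin g) B ℚ,
      cK ℂ N * D = DZ Z * cK ℂ N ∧ ψ = fL K β (cK ℂ N)} := by
  let M : Matrix (Fin g ⊕ Fin g) B ℂ :=
    Matrix.of fun i j => ∑ b, φ b (Pi.single j 1) * K.zb β b i
  have hM : ∀ y : B → ℂ, M *ᵥ y = ∑ b, φ b y • K.zb β b := by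
    intro y
    funext i
    rw [Finset.sum_apply]
    simp only [Pi.smul_apply, smul_eq_mul, mulVec, dotProduct, M, Matrix.of_apply, Finset.sum_mul]
    rw [Finset.sum_comm]
    refine Finset.sum_congr rfl fun b _ => ?_
    rw [lin_sum (φ b) y, Finset.sum_mul]
    exact Finset.sum_congr rfl fun j _ => by ring
  have h1 : ∀ σ : ℂ ≃+* ℂ, M * D.map σ = (DZ Z).map σ * M := by
    intro σ
    have h2 : ∀ y : B → ℂ, (M * D.map σ) *ᵥ y = ((DZ Z).map σ * M) *ᵥ y := by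
      intro y
      rw [← mulVec_mulVec, ← mulVec_mulVec, hM, hM, mulVec_sum]
      have h3 : ∀ z, (DZ Z).map σ *ᵥ (φ z y • K.zb β z) =
          ∑ b, (sA β (K.T ((DZ Z).map σ)) b z * φ z y) • K.zb β b := by
        intro z
        have h5 : (DZ Z).map σ ∈ lieM (DZ Z) ℂ := map_mem_aut (D_mem (DZ Z)) (σ : ℂ →+* ℂ)
        rw [mulVec_smul, K.zb_act hZ h5, Finset.smul_sum]
        refine Finset.sum_congr rfl fun b _ => ?_
        rw [smul_smul, Ts_sA, mul_comm]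
      rw [Finset.sum_congr rfl fun z _ => h3 z, Finset.sum_comm]
      refine Finset.sum_congr rfl fun b _ => ?_
      rw [h, Finset.sum_smul]
    ext i j
    have h4 := congrFun (h2 (Pi.single j 1)) i
    rw [mulVec_single_one, mulVec_single_one] at h4
    exact h4
  have h2 : eN φ = fL K β M := by
    funext b
    by_cases hb : b < g
    · refine LinearMap.ext fun y => ?_
      have e1 := eN_apply φ ⟨b, hb⟩
      have e2 := fL_apply K β M ⟨b, hb⟩ y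
      simp only at e1 e2
      rw [e1, e2, hM, map_sum, Finset.sum_eq_single ⟨b, hb⟩]
      · rw [map_smul, K.zc_zb, if_pos ⟨rfl, rfl⟩, smul_eq_mul, mul_one]
      · intro c _ hc
        rw [map_smul, K.zc_zb, if_neg fun h => hc h.2.symm, smul_zero]
      · intro h
        exact absurd (Finset.mem_univ _) h
    · change eN φ b = eN (fun b => K.zc β b ∘ₗ Matrix.mulVecLin M) b
      unfold eN
      rw [dif_neg hb, dif_neg hb]
  rw [h2]
  have h3 := Submodule.mem_map_of_mem (f := fL (B := B) K β) (span_homs h1)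
  rw [Submodule.map_span] at h3
  refine Submodule.span_mono ?_ h3
  rintro _ ⟨_, ⟨N, hN, rfl⟩, rfl⟩
  exact ⟨N, hN, rfl⟩

end lin

section expd

variable {B : Type} [Fintype B] [DecidableEq B] {κ : Type} [Fintype κ] [DecidableEq κ]
  {l p : ℕ} {n : Fin l → ℕ} (e : (Σ j : Fin l, Fin (n j)) ⊕ (Fin p × Fin 2) ≃ κ)

/-- The product of determinants and bilinear forms. -/
noncomputable def PP (ψ : (Σ j : Fin l, Fin (n j)) → ℕ → ((B → ℂ) →ₗ[ℂ] ℂ))
    (G : Fin p → Matrix B B ℂ) (x : κ → B → ℂ) : ℂ :=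
  (∏ j, (Matrix.of fun a b : Fin (n j) => ψ ⟨j, a⟩ (b : ℕ) (x (e (Sum.inl ⟨j, a⟩)))).det) *
    ∏ s, x (e (Sum.inr (s, 0))) ⬝ᵥ (G s *ᵥ x (e (Sum.inr (s, 1))))

/-- Multilinearity in the functionals. -/
theorem PP_span1 (S : (Σ j : Fin l, Fin (n j)) → Set (ℕ → ((B → ℂ) →ₗ[ℂ] ℂ)))
    (ψ : (Σ j : Fin l, Fin (n j)) → ℕ → ((B → ℂ) →ₗ[ℂ] ℂ)) (G : Fin p → Matrix B B ℂ)
    (h : ∀ t, ψ t ∈ Submodule.span ℂ (S t)) {V : Type}
    (cc : V → κ → B → ℂ) :
    (fun x : V => PP e ψ G (cc x)) ∈ Submodule.span ℂ {y : V → ℂ | ∃ ψ', (∀ t, ψ' t ∈ S t) ∧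
      y = fun x : V => PP e ψ' G (cc x)} := by
  have h1 : ∀ x : V, ∃ Ψ : MultilinearMap ℂ (fun _ : (Σ j : Fin l, Fin (n j)) =>
      ℕ → ((B → ℂ) →ₗ[ℂ] ℂ)) ℂ, ∀ ψ, Ψ ψ = PP e ψ G (cc x) := by
    intro x
    obtain ⟨Ψ, hΨ⟩ := exists_mm (R := ℂ) (T := Σ j : Fin l, Fin (n j))
      (E := ℕ → ((B → ℂ) →ₗ[ℂ] ℂ)) (κ₁ := fun j => Fin (n j)) (P := Fin 0)
      (κ₂ := fun _ => Fin 0)
      (Equiv.sumEmpty (Σ j : Fin l, Fin (n j)) (Σ s : Fin 0, Fin 0))
      (fun j => (Matrix.detRowAlternating (R := ℂ) (n := Fin (n j))).toMultilinearMap.compLinearMap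
        fun a => LinearMap.pi fun b : Fin (n j) =>
          (LinearMap.applyₗ (cc x (e (Sum.inl ⟨j, a⟩)))) ∘ₗ
            (LinearMap.proj (b : ℕ) : (ℕ → ((B → ℂ) →ₗ[ℂ] ℂ)) →ₗ[ℂ] ((B → ℂ) →ₗ[ℂ] ℂ)))
      (fun s => s.elim0)
    refine ⟨(∏ s, cc x (e (Sum.inr (s, 0))) ⬝ᵥ
      (G s *ᵥ cc x (e (Sum.inr (s, 1))))) • Ψ, fun ψ => ?_⟩
    rw [_root_.smul_apply, hΨ, smul_eq_mul, mul_comm]
    unfold PP
    rw [Finset.univ_eq_empty (α := Fin 0), Finset.prod_empty, mul_one]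
    rfl
  choose Ψ hΨ using h1
  have h2 := multi_span (MultilinearMap.pi Ψ) S ψ h
  have h3 : ∀ ψ, MultilinearMap.pi Ψ ψ = fun x : V => PP e ψ G (cc x) := by
    intro ψ
    funext x
    exact hΨ x ψ
  simp only [h3] at h2
  exact h2

/-- Multilinearity in the bilinear forms. -/
theorem PP_span2 (S : Set (Matrix B B ℂ))
    (ψ : (Σ j : Fin l, Fin (n j)) → ℕ → ((B → ℂ) →ₗ[ℂ] ℂ)) (G : Fin p → Matrix B B ℂ)
    (h : ∀ t, G t ∈ Submodule.span ℂ S) {V : Type}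
    (cc : V → κ → B → ℂ) :
    (fun x : V => PP e ψ G (cc x)) ∈ Submodule.span ℂ {y : V → ℂ | ∃ G', (∀ t, G' t ∈ S) ∧
      y = fun x : V => PP e ψ G' (cc x)} := by
  have h1 : ∀ x : V, ∃ Ψ : MultilinearMap ℂ (fun _ : Fin p => Matrix B B ℂ) ℂ,
      ∀ G, Ψ G = PP e ψ G (cc x) := by
    intro x
    let lm : Fin p → (Matrix B B ℂ →ₗ[ℂ] ℂ) := fun s =>
      { toFun := fun M => cc x (e (Sum.inr (s, 0))) ⬝ᵥ
          (M *ᵥ cc x (e (Sum.inr (s, 1))))
        map_add' := fun M M' => by rw [add_mulVec, dotProduct_add]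
        map_smul' := fun c M => by
          rw [smul_mulVec, dotProduct_smul, RingHom.id_apply] }
    refine ⟨(∏ j, (Matrix.of fun a b : Fin (n j) => ψ ⟨j, a⟩ (b : ℕ)
      (cc x (e (Sum.inl ⟨j, a⟩)))).det) •
      ((MultilinearMap.mkPiAlgebra ℂ (Fin p) ℂ).compLinearMap lm), fun G => ?_⟩
    rw [_root_.smul_apply, MultilinearMap.compLinearMap_apply,
      MultilinearMap.mkPiAlgebra_apply, smul_eq_mul]
    rfl
  choose Ψ hΨ using h1
  have h2 := multi_span (MultilinearMap.pi Ψ) (fun _ => S) G h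
  have h3 : ∀ G, MultilinearMap.pi Ψ G = fun x : V => PP e ψ G (cc x) := by
    intro G
    funext x
    exact hΨ x G
  simp only [h3] at h2
  exact h2

end expd

end Pool.Agent.Q60.D3
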