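import Mathlib
import Pool.Agent.Q60.D3.Cnv

/-!
# Hodge classes on products of principally polarized abelian varieties
-/

set_option linter.unusedSectionVars false
set_option linter.unusedVariables false

namespace Pool.Agent.Q60.D3

open Matrix Module Pool.Agent.H204R3.CM Pool.Agent.H204R3.SP Pool.Agent.W437.HC
  Pool.Agent.W437.HD Pool.Agent.W437.HP Pool.Agent.W437.HR Pool.Agent.W437.HQ Pool.Agent.Q59.GC

/-- Rational bilinear forms killed by the Hodge operator have weight zero. -/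
theorem bil_wgt (hwgt : S_wgt) {g : ℕ} {Z : Matrix (Fin g) (Fin g) ℂ} (hpos : (imM Z).PosDef)
    {N : Matrix (Fin g ⊕ Fin g) (Fin g ⊕ Fin g) ℚ}
    (hN : (DZ Z)ᵀ * cK ℂ N + cK ℂ N * DZ Z = 0) :
    HasWeight (perOne Z) (cxM (evalM (bilc N))) 0 := by
  refine hwgt g Z hpos (Fin 2) _ 0 ?_
  have h1 : (fun I : Fin 2 → Fin g ⊕ Fin g => cxM (evalM (bilc N))
      fun k => Pi.single (I k) 1) = cst ℂ (bilc N) := by
    funext I
    change ((evalM (bilc N) (fun k => Pi.single (I k) 1) : ℚ) : ℂ) = _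
    rw [evalM_apply, evalF_single]
    rfl
  have h2 : act (DZ Z) (cst ℂ (bilc N)) = 0 := isH_bilc _ hN
  rw [h1, h2, Int.cast_zero, zero_smul]

/-- The determinants. -/
theorem det_eq {g : ℕ} {Z : Matrix (Fin g) (Fin g) ℂ} (K : KZ Z) (β : Bool) {B : Type} [Fintype B]
    [DecidableEq B] (N : Fin g → Matrix (Fin g ⊕ Fin g) B ℚ) (x : Fin g → B → ℚ) :
    (Matrix.of fun a b : Fin g => fL K β (cK ℂ (N a)) (b : ℕ) (cV (x a))).det =
      (Matrix.of fun a b : Fin g => K.zc β b fun i => (((N a *ᵥ x a) i : ℚ) : ℂ)).det := by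
  congr 1
  ext a b
  rw [Matrix.of_apply, Matrix.of_apply, fL_apply, ← cV_mulVec]
  rfl

/-- The bilinear forms. -/
theorem bil_eq {B : Type} [Fintype B] [DecidableEq B] (N : Matrix B B ℚ) (x : Fin 2 → B → ℚ) :
    cV (x 0) ⬝ᵥ (cK ℂ N *ᵥ cV (x 1)) = ((evalF (bilc N) x : ℚ) : ℂ) := by
  rw [evalF_bilc2, cV_dot, cV_mulVec]

section

variable {ι : Type} [Fintype ι] [DecidableEq ι] {g : ι → ℕ}
  (Z : ∀ i, Matrix (Fin (g i)) (Fin (g i)) ℂ) (hZ : ∀ i, (Z i)ᵀ = Z i)
  (hpos : ∀ i, (imM (Z i)).PosDef) (hZb : (bigD ℂ Z)ᵀ = bigD ℂ Z)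
  (hposb : (imM (bigD ℂ Z)).PosDef)

/-- The products in the expansion are combinations of balanced monomials. -/
theorem prod_mon (hkon : S_kon) (hchi : S_chi) (hwgt : S_wgt)
    (hc : Pool.Agent.Q144.D3.S_chiz') {𝒦 : Type} (t : 𝒦 → ι) (K : ∀ k, KZ (Z (t k)))
    {κ : Type} [Fintype κ] [DecidableEq κ] (f : (κ → Fin (NB g) ⊕ Fin (NB g)) → ℂ)
    (hf : f ∈ Frm.Prods (DZ (bigD ℂ Z)) (TK Z hZ hpos t K) κ) :
    (fun v : κ → (ofZ (bigD ℂ Z) hZb hposb).H => evalF f (fun k => cV (v k))) ∈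
      Submodule.span ℂ {y : (κ → (ofZ (bigD ℂ Z) hZb hposb).H) → ℂ |
        ∃ M : Mon (ofZ (bigD ℂ Z) hZb hposb) κ, M.Balanced ∧ y = M.val} := by
  obtain ⟨l, p, k, β, e, φ, G, h1, h2, h3, rfl⟩ := hf
  have e1 : (fun v : κ → (ofZ (bigD ℂ Z) hZb hposb).H => evalF (fun w =>
      (∏ j, (Matrix.of fun a b : Fin (g (t (k j))) =>
        φ j a b (Pi.single (w (e (Sum.inl ⟨j, a⟩))) 1)).det) *
      ∏ s, G s (w (e (Sum.inr (s, 0)))) (w (e (Sum.inr (s, 1))))) (fun k => cV (v k))) =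
      fun v => PP e (fun ja => eN (φ ja.1 ja.2)) G (fun k => cV (v k)) := by
    funext v
    rw [evalF_prod]
    unfold PP
    simp only [eN_apply]
  rw [e1]
  have s1 := PP_span1 e (fun ja => {ψ | ∃ N : Matrix (Fin (g (t (k ja.1))) ⊕ Fin (g (t (k ja.1))))
      (Fin (NB g) ⊕ Fin (NB g)) ℚ, cK ℂ N * DZ (bigD ℂ Z) = DZ (Z (t (k ja.1))) * cK ℂ N ∧
        ψ = fL (K (k ja.1)) (β ja.1) (cK ℂ N)}) (fun ja => eN (φ ja.1 ja.2)) G
    (fun ja => span_fun (hZ _) (K (k ja.1)) (β ja.1) (φ ja.1 ja.2) (fun b σ y => by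
      rw [h1, TK_sD])) (fun (v : κ → (ofZ (bigD ℂ Z) hZb hposb).H) k => cV (v k))
  refine (Submodule.span_le.2 ?_) s1
  rintro _ ⟨ψ', hψ', rfl⟩
  have s2 := PP_span2 e {Y : Matrix (Fin (NB g) ⊕ Fin (NB g)) (Fin (NB g) ⊕ Fin (NB g)) ℂ |
      ∃ N : Matrix (Fin (NB g) ⊕ Fin (NB g)) (Fin (NB g) ⊕ Fin (NB g)) ℚ,
        (DZ (bigD ℂ Z))ᵀ * cK ℂ N + cK ℂ N * DZ (bigD ℂ Z) = 0 ∧ Y = cK ℂ N} ψ' G
    (fun s => span_bil (h2 s)) (fun (v : κ → (ofZ (bigD ℂ Z) hZb hposb).H) k => cV (v k))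
  refine (Submodule.span_le.2 ?_) s2
  rintro _ ⟨G', hG', rfl⟩
  choose N hN1 hN2 using hψ'
  choose N' hN'1 hN'2 using hG'
  choose L hL1 hL2 hL3 hL4 using fun j =>
    hkon (g (t (k j))) (Z (t (k j))) (hZ _) (hpos _) (K (k j)) (β j)
  refine Submodule.subset_span ⟨{ m := l
                                  n := fun j => g (t (k j))
                                  A := fun j => ofZ (Z (t (k j))) (hZ _) (hpos _)
                                  D := L
                                  h := fun j a => Matrix.mulVecLin (N ⟨j, a⟩)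
                                  hh := fun j a => hom_of_comm hZb hposb (hZ _) (hpos _) (hN1 ⟨j, a⟩)
                                  p := p
                                  β := fun s => evalM (bilc (N' s))
                                  hβ := fun s => bil_wgt hwgt hposb (hN'1 s)
                                  e := e }, ?_, ?_⟩
  · intro d
    have h4 := hchi l (fun j => (K (k j)).d) (fun j => (K (k j)).hd) (fun j => (K (k j)).μ)
      (fun j => (K (k j)).hμ) (fun j => KZ.sg (β j)) ?_ d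
    · refine Eq.trans (Finset.sum_congr rfl fun j _ => ?_) h4
      change (if (L j).d = d then (L j).s else 0) = _
      rw [hL1, hL3]
    · intro σ
      have h5 := h3 σ
      have h6 : ∀ j, sgn (β j) * (TK Z hZ hpos t K (k j) (sD (DZ (bigD ℂ Z)) σ)).trace =
          ((KZ.sg (β j) * chi (K (k j)).μ σ : ℤ) : ℂ) := by
        intro j
        rw [TK_sD, (T_map hc (hZ _) (hpos _) (K (k j)) σ).2, Int.cast_mul]
        congr 1
        cases β j
        · change (-1 : ℂ) = ((-1 : ℤ) : ℂ)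
          push_cast
          rfl
        · change (1 : ℂ) = ((1 : ℤ) : ℂ)
          push_cast
          rfl
      rw [Finset.sum_congr rfl fun j _ => h6 j] at h5
      exact_mod_cast h5
  · funext v
    unfold PP Mon.val
    congr 1
    · refine Finset.prod_congr rfl fun j _ => ?_
      have h5 := hL4 j fun a => N ⟨j, a⟩ *ᵥ (v (e (Sum.inl ⟨j, a⟩)))
      refine Eq.trans ?_ h5.symm
      have h6 := det_eq (K (k j)) (β j) (fun a => N ⟨j, a⟩) (fun a => v (e (Sum.inl ⟨j, a⟩)))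
      refine Eq.trans ?_ h6
      simp only [hN2]
    · refine Finset.prod_congr rfl fun s _ => ?_
      have h5 := bil_eq (N' s) (fun a => v (e (Sum.inr (s, a))))
      refine Eq.trans ?_ h5
      rw [hN'2]

/-- The value of a monomial is multilinear. -/
theorem exists_val {X : AV} {κ : Type} [DecidableEq κ] (M : Mon X κ) :
    ∃ F : MultilinearMap ℚ (fun _ : κ => X.H) ℂ, ∀ v, F v = M.val v := by
  obtain ⟨Ψ, h⟩ := exists_mm2 (R := ℚ) M.e
    (fun j => (M.D j).δ.toMultilinearMap.compLinearMap (M.h j)) (fun s => cxM (M.β s))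
  exact ⟨Ψ, h⟩

/-- The value of a form. -/
theorem evalF_cst {B : Type} [Fintype B] [DecidableEq B] {κ : Type} [Fintype κ] [DecidableEq κ]
    (f : (B → ℚ) [⋀^κ]→ₗ[ℚ] ℚ) (v : κ → B → ℚ) :
    evalF (cst ℂ fun I : κ → B => f fun k => Pi.single (I k) 1) (fun k => cV (v k)) =
      ((f v : ℚ) : ℂ) := by
  have h1 : evalM (fun I : κ → B => f fun k => Pi.single (I k) 1) = f.toMultilinearMap := by
    refine Basis.ext_multilinear (fun _ => Pi.basisFun ℚ B) fun I => ?_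
    simp only [Pi.basisFun_apply]
    rw [evalM_apply, evalF_single]
    rfl
  have h2 : f v = evalF (fun I : κ → B => f fun k => Pi.single (I k) 1) v := by
    rw [← evalM_apply, h1]
    rfl
  rw [h2]
  simp [evalF, cst, cV]

/-- The values of the forms as a linear map. -/
noncomputable def EV (B κ : Type) [Fintype B] [DecidableEq B] [Fintype κ] [DecidableEq κ] :
    ((κ → B) → ℂ) →ₗ[ℂ] ((κ → B → ℚ) → ℂ) where
  toFun := fun c v => evalF c (fun k => cV (v k))
  map_add' := fun c d => by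
    funext v
    simp only [evalF, Pi.add_apply, add_mul, Finset.sum_add_distrib]
  map_smul' := fun r c => by
    funext v
    simp only [evalF, Pi.smul_apply, smul_eq_mul, Finset.mul_sum, mul_assoc,
      RingHom.id_apply]

/-- Combinations of balanced monomials are good. -/
theorem span_good {X : AV} {κ : Type} [Fintype κ] [DecidableEq κ] (hbal : S_bal)
    (hlin : S_good_lin) (y : (κ → X.H) → ℂ)
    (hy : y ∈ Submodule.span ℂ {y : (κ → X.H) → ℂ | ∃ M : Mon X κ, M.Balanced ∧ y = M.val}) :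
    ∃ F : MultilinearMap ℚ (fun _ : κ => X.H) ℂ, (∀ v, F v = y v) ∧ Good X κ F := by
  induction hy using Submodule.span_induction with
  | mem y hy =>
    obtain ⟨M, hM, rfl⟩ := hy
    obtain ⟨F, hF⟩ := exists_val M
    exact ⟨F, hF, hbal _ κ M hM F hF⟩
  | zero => exact ⟨0, fun v => rfl, (hlin _ κ).2.2⟩
  | add x y _ _ hx hy =>
    obtain ⟨F, hF, hF'⟩ := hx
    obtain ⟨F₁, hF₁, hF₁'⟩ := hy
    exact ⟨F + F₁, fun v => by rw [_root_.add_apply, hF, hF₁]; rfl,
      (hlin _ κ).1 _ _ hF' hF₁'⟩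
  | smul c x _ hx =>
    obtain ⟨F, hF, hF'⟩ := hx
    exact ⟨c • F, fun v => by rw [_root_.smul_apply, hF]; rfl, (hlin _ κ).2.1 _ _ hF'⟩

/-- Rational forms which are combinations of balanced monomials are generated. -/
theorem gen_of_span {X : AV} {κ : Type} [Fintype κ] [DecidableEq κ] (hbal : S_bal)
    (hlin : S_good_lin) (halt : S_good_alt) (hdesc : S_desc) (f : X.H [⋀^κ]→ₗ[ℚ] ℚ)
    (h : (fun v : κ → X.H => ((f v : ℚ) : ℂ)) ∈
      Submodule.span ℂ {y : (κ → X.H) → ℂ | ∃ M : Mon X κ, M.Balanced ∧ y = M.val}) :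
    Gen X κ f := by
  obtain ⟨F, hF, hG⟩ := span_good hbal hlin _ h
  have h6 : F = (cx f).toMultilinearMap := by
    refine MultilinearMap.ext fun v => ?_
    rw [hF]
    rfl
  rw [h6] at hG
  exact hdesc _ κ f ((halt _ κ _).1 hG)

include hZ hpos in
/-- The values of a Hodge class. -/
theorem span_of_hodge (hgrs : S_grs) (hsps : S_sps) (hdarb : S_darb) (hexp : S_exp)
    (hc : Pool.Agent.Q144.D3.S_chiz') (hkon : S_kon) (hchi : S_chi) (hwgt : S_wgt) (hish : S_ish)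
    (hdata : ∀ i, HasPcs (DZ (Z i)) ∨ ∃ K : KZ (Z i), KFull K) {κ : Type} [Fintype κ]
    [DecidableEq κ]
    (f : (Fin (NB g) ⊕ Fin (NB g) → ℚ) [⋀^κ]→ₗ[ℚ] ℚ) (hf : IsHodge (perOne (bigD ℂ Z)) f) :
    (fun v : κ → Fin (NB g) ⊕ Fin (NB g) → ℚ => ((f v : ℚ) : ℂ)) ∈
      Submodule.span ℂ {y : (κ → Fin (NB g) ⊕ Fin (NB g) → ℚ) → ℂ |
        ∃ M : Mon (ofZ (bigD ℂ Z) hZb hposb) κ, M.Balanced ∧ y = M.val} := by
  obtain ⟨𝒦, t, K, hK⟩ := hodge_span Z hZ hpos hgrs hsps hdarb hexp hc hdata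
  have h1 := hK κ _ (hish _ _ hposb κ f hf)
  have h2 := Submodule.mem_map_of_mem (f := EV (Fin (NB g) ⊕ Fin (NB g)) κ) h1
  rw [Submodule.map_span] at h2
  have h3 : (fun v : κ → Fin (NB g) ⊕ Fin (NB g) → ℚ => ((f v : ℚ) : ℂ)) =
      EV (Fin (NB g) ⊕ Fin (NB g)) κ
        (cst ℂ fun I : κ → Fin (NB g) ⊕ Fin (NB g) => f fun k => Pi.single (I k) 1) :=
    funext fun v => (evalF_cst f v).symm
  rw [h3]
  refine (Submodule.span_le.2 ?_) h2
  rintro _ ⟨f', hf', rfl⟩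
  exact prod_mon Z hZ hpos hZb hposb hkon hchi hwgt hc t K f' hf'

include hZ hpos in
/-- Hodge classes on products of principally polarized abelian varieties. -/
theorem gen_of_hodge (hgrs : S_grs) (hsps : S_sps) (hdarb : S_darb) (hexp : S_exp)
    (hc : Pool.Agent.Q144.D3.S_chiz') (hkon : S_kon) (hchi : S_chi) (hwgt : S_wgt) (hish : S_ish)
    (hbal : S_bal) (hlin : S_good_lin) (halt : S_good_alt) (hdesc : S_desc)
    (hdata : ∀ i, HasPcs (DZ (Z i)) ∨ ∃ K : KZ (Z i), KFull K) {κ : Type} [Fintype κ]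
    (f : (ofZ (bigD ℂ Z) hZb hposb).H [⋀^κ]→ₗ[ℚ] ℚ)
    (hf : IsHodge (ofZ (bigD ℂ Z) hZb hposb).per f) :
    Gen (ofZ (bigD ℂ Z) hZb hposb) κ f := by
  classical
  exact gen_of_span hbal hlin halt hdesc f
    (span_of_hodge Z hZ hpos hZb hposb hgrs hsps hdarb hexp hc hkon hchi hwgt hish hdata f hf)

end

end Pool.Agent.Q60.D3
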