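import Mathlib
import Pool.Agent.Q60.D3.Fin

/-!
# Hodge classes on products of abelian varieties of dimension at most three
-/

set_option linter.unusedSectionVars false
set_option linter.unusedVariables false

namespace Pool.Agent.Q60.D3

open Matrix Module Pool.Agent.H204R3.CM Pool.Agent.H204R3.SP Pool.Agent.W437.HC
  Pool.Agent.W437.HD Pool.Agent.W437.HP Pool.Agent.W437.HR Pool.Agent.W437.HQ Pool.Agent.Q59.GC

/-- The case of dimension zero. -/
theorem hasPcs_zero {R : Type} [Fintype R] [DecidableEq R] [IsEmpty R] (D : Matrix R R ℂ) :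
    HasPcs D := by
  refine ⟨Empty, inferInstance, inferInstance, fun a => a.elim, fun a => a.elim, fun a => a.elim,
    fun a => a.elim, fun y => ?_, fun a => a.elim, fun a => a.elim, fun a => a.elim,
    fun a => a.elim, fun a => a.elim, fun a => a.elim⟩
  funext i
  exact isEmptyElim i

/-- The case of dimension one and CM type. -/
theorem kz_one (hcm1 : S_cm1) {g : ℕ} (hg : g = 1) (Z : Matrix (Fin g) (Fin g) ℂ)
    (hpos : (imM Z).PosDef) (hC : Comm Z) : ∃ K : KZ Z, KFull K := by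
  subst hg
  obtain ⟨K⟩ := hcm1 Z hpos hC
  refine ⟨K, fun L _ _ i j hij => ?_⟩
  exact absurd (Subsingleton.elim i j) hij

/-- The data of a simple factor. -/
theorem data_of_simple (htri : S_tri) (hfull : S_full) (hcm1 : S_cm1) {g : ℕ}
    (Z : Matrix (Fin g) (Fin g) ℂ) (hZ : Zᵀ = Z) (hpos : (imM Z).PosDef) (hs : IsSimpleAV Z)
    (hg : g ≤ 3) (hC : Comm Z → g ≤ 1) : HasPcs (DZ Z) ∨ ∃ K : KZ Z, KFull K := by
  by_cases h : Comm Z
  · have h1 := hC h
    have h2 : g = 0 ∨ g = 1 := by omega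
    rcases h2 with h2 | h2
    · left
      have : IsEmpty (Fin g ⊕ Fin g) := by
        subst h2
        infer_instance
      exact hasPcs_zero _
    · right
      exact kz_one hcm1 h2 Z hpos h
  · rcases htri g Z hZ hpos hs hg with h1 | h1 | ⟨_, ⟨K⟩⟩
    · exact absurd h1 h
    · exact Or.inl h1
    · exact Or.inr ⟨K, hfull g Z hZ hpos hs h K⟩

/-- Transport along an isomorphism. -/
theorem gen_transport (X Y : AV) (a : X.H ≃ₗ[ℚ] Y.H) (c : X.T ≃ₗ[ℂ] Y.T)
    (hac : ∀ w, c (X.per w) = Y.per (a w)) {κ : Type}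
    (h : ∀ f : Y.H [⋀^κ]→ₗ[ℚ] ℚ, IsHodge Y.per f → Gen Y κ f) (f : X.H [⋀^κ]→ₗ[ℚ] ℚ)
    (hf : IsHodge X.per f) : Gen X κ f := by
  have h1 : IsHodge Y.per (f.compLinearMap a.symm.toLinearMap) := by
    refine Pool.Agent.W437.HK.isHodge_pullback (Φ := c.symm.toLinearMap) (fun w => ?_) hf
    have h2 := hac (a.symm w)
    rw [a.apply_symm_apply] at h2
    change X.per (a.symm w) = c.symm (Y.per w)
    rw [← h2, c.symm_apply_apply]
  have h3 := Gen.pull (X := X) (Y := Y) a.toLinearMap ⟨c.toLinearMap, hac⟩ _ (h _ h1)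
  have h4 : (f.compLinearMap a.symm.toLinearMap).compLinearMap a.toLinearMap = f := by
    ext v
    change f (fun l => a.symm (a (v l))) = f v
    congr 1
    funext l
    exact a.symm_apply_apply _
  rwa [h4] at h3

/-- The theorem on Hodge classes, from the lemmas. -/
theorem top (hgrs : S_grs) (hsps : S_sps) (hdarb : S_darb) (hexp : S_exp)
    (hc : Pool.Agent.Q144.D3.S_chiz') (hkon : S_kon) (hchi : S_chi) (hwgt : S_wgt) (hish : S_ish)
    (hbal : S_bal) (hlin : S_good_lin) (halt : S_good_alt) (hdesc : S_desc)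
    (htri : S_tri) (hfull : S_full) (hcm1 : S_cm1) (hclose : S_close)
    (ι : Type) [Finite ι] (X : AV) (A : ι → AV) (hX : IsIsogenousToProd X A)
    (hs : ∀ i, IsSimple (A i)) (hd : ∀ i, Module.finrank ℂ (A i).T ≤ 3)
    (hcm : ∀ i, IsCM (A i) → Module.finrank ℂ (A i).T ≤ 1) (κ : Type) [Finite κ]
    (f : X.H [⋀^κ]→ₗ[ℚ] ℚ) (hf : IsHodge X.per f) : Gen X κ f := by
  refine hclose ?_ ι X A hX hs hd hcm κ f hf
  intro ι _ _ g Z hZ hpos hs hg hC Y a c hac κ _ f hf
  have hZb : (bigD ℂ Z)ᵀ = bigD ℂ Z := bigD_symm hZ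
  have hposb := imM_bigD_posDef Z hpos
  exact gen_transport Y (ofZ (bigD ℂ Z) hZb hposb) a c hac
    (fun f' hf' => gen_of_hodge Z hZ hpos hZb hposb hgrs hsps hdarb hexp hc hkon hchi hwgt hish
      hbal hlin halt hdesc (fun i => data_of_simple htri hfull hcm1 (Z i) (hZ i) (hpos i) (hs i)
        (hg i) (hC i)) f' hf') f hf

end Pool.Agent.Q60.D3
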