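import Mathlib
import Pool.Agent.Q60.D3.Top
import Pool.Agent.Q60.D3.NF
import Pool.Agent.Q128.D3.Conv
import Pool.Agent.Q134.D3.SliLink
import Pool.Agent.Q144.D3.Chiz
import Pool.Agent.Q144.D3.Full
import Pool.Agent.Q144.D3.Noe
import Pool.Agent.Q176.D3.Close
import Pool.Agent.Q176.D3.Darb
import Pool.Agent.Q176.D3.Gen1
import Pool.Agent.Q176.D3.Pol
import Pool.Agent.Q180.D3.CMD
import Pool.Agent.Q180.D3.CMOne
import Pool.Agent.Q180.D3.Exp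
import Pool.Agent.Q210.D3.L0
import Pool.Agent.Q210.D3.T2
import Pool.Agent.Q225.D3.Kon
import Pool.Agent.Q225.D3.Weil
import Pool.Agent.Q225.D3.Wt
import Pool.Agent.Q251.D3.Chi
import Pool.Agent.Q251.D3.Ell
import Pool.Agent.Q280.D3.Nol
import Pool.Agent.Q280.D3.Wgt
import Pool.Agent.Q6.D3.Ins
import Pool.Agent.Q6.D3.Tri
import Pool.Agent.Q75.D3.GR
import Pool.Agent.Q75.D3.GRS

/-!
# Hodge classes on products of abelian varieties of dimension at most three: the lemmas put together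
-/

namespace Pool.Agent.Q60.D3

open Pool.Agent.H204R3.CM

theorem ok_ins : S_ins :=
  Pool.Agent.Q6.D3.ins Pool.Agent.Q176.D3.good_alt Pool.Agent.Q176.D3.good_lin
    Pool.Agent.Q176.D3.good_reindex Pool.Agent.Q176.D3.good_mul

theorem ok_weil : S_weil :=
  Pool.Agent.Q225.D3.weil Pool.Agent.Q176.D3.good_alt Pool.Agent.Q176.D3.good_lin
    Pool.Agent.Q176.D3.good_reindex Pool.Agent.Q210.D3.L0 Pool.Agent.Q210.D3.hodge
    Pool.Agent.Q225.D3.wt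

theorem ok_bal : S_bal :=
  Pool.Agent.Q210.D3.bal Pool.Agent.Q176.D3.good_alt Pool.Agent.Q176.D3.good_lin
    Pool.Agent.Q176.D3.good_reindex Pool.Agent.Q176.D3.good_mul Pool.Agent.Q176.D3.good_pull
    ok_ins Pool.Agent.Q176.D3.pol' Pool.Agent.Q210.D3.L0 Pool.Agent.Q210.D3.hodge
    Pool.Agent.Q225.D3.wt ok_weil Pool.Agent.Q251.D3.t_ELL

theorem ok_grs : S_grs :=
  Pool.Agent.Q75.D3.grs Pool.Agent.Q75.D3.gr Pool.Agent.Q134.D3.sli
    (Pool.Agent.Q134.D3.link Pool.Agent.Q134.D3.sli)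
    (Pool.Agent.Q280.D3.nol Pool.Agent.Q134.D3.sli)

/-- The theorem on Hodge classes. -/
theorem hodge_dim_three {ι : Type} [Finite ι] {X : AV} {A : ι → AV} (hX : IsIsogenousToProd X A)
    (hs : ∀ i, IsSimple (A i)) (hd : ∀ i, Module.finrank ℂ (A i).T ≤ 3)
    (hcm : ∀ i, IsCM (A i) → Module.finrank ℂ (A i).T ≤ 1) {κ : Type} [Finite κ]
    (f : X.H [⋀^κ]→ₗ[ℚ] ℚ) : IsHodge X.per f ↔ Gen X κ f :=
  ⟨fun hf => top ok_grs Pool.Agent.Q176.D3.sps Pool.Agent.Q176.D3.darb Pool.Agent.Q180.D3.exp_mem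
    Pool.Agent.Q144.D3.chiz' (Pool.Agent.Q225.D3.kon Pool.Agent.Q280.D3.wgt)
    Pool.Agent.Q251.D3.t_CHI Pool.Agent.Q280.D3.wgt Pool.Agent.Q280.D3.ish ok_bal
    Pool.Agent.Q176.D3.good_lin Pool.Agent.Q176.D3.good_alt Pool.Agent.Q176.D3.desc
    (Pool.Agent.Q6.D3.tri Pool.Agent.Q144.D3.noe) (Pool.Agent.Q144.D3.full Pool.Agent.Q144.D3.noe)
    Pool.Agent.Q180.D3.cm1 (Pool.Agent.Q176.D3.close NF.nf Pool.Agent.Q180.D3.cmd)
    ι X A hX hs hd hcm κ f hf,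
  fun hf => Pool.Agent.Q128.D3.conv X κ f hf inferInstance⟩

end Pool.Agent.Q60.D3
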